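import Mathlib

/-!
The group `G = C_p × (F ⋊ Fˣ)`.
-/

set_option autoImplicit false

namespace Pool.Agent.R723

/-- The group `C_p × (F ⋊ Fˣ)` of all triples `(c, b, a)`, `c ∈ ℤ/p`, `b ∈ F`, `a ∈ Fˣ`. -/
@[ext]
structure AffG (p : ℕ) (F : Type) [Field F] where
  c : ZMod p
  b : F
  a : Fˣ

namespace AffG

variable {p : ℕ} {F : Type} [Field F]

instance : Mul (AffG p F) := ⟨fun x y => ⟨x.c + y.c, x.b + x.a * y.b, x.a * y.a⟩⟩
instance : One (AffG p F) := ⟨⟨0, 0, 1⟩⟩
instance : Inv (AffG p F) := ⟨fun x => ⟨-x.c, -(x.a⁻¹ * x.b), x.a⁻¹⟩⟩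

@[simp] theorem mul_c (x y : AffG p F) : (x * y).c = x.c + y.c := rfl
@[simp] theorem mul_b (x y : AffG p F) : (x * y).b = x.b + x.a * y.b := rfl
@[simp] theorem mul_a (x y : AffG p F) : (x * y).a = x.a * y.a := rfl
@[simp] theorem one_c : (1 : AffG p F).c = 0 := rfl
@[simp] theorem one_b : (1 : AffG p F).b = 0 := rfl
@[simp] theorem one_a : (1 : AffG p F).a = 1 := rfl
@[simp] theorem inv_c (x : AffG p F) : (x⁻¹).c = -x.c := rfl
@[simp] theorem inv_b (x : AffG p F) : (x⁻¹).b = -(x.a⁻¹ * x.b) := by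
  change -((x.a⁻¹ : Fˣ) * x.b) = _
  simp
@[simp] theorem inv_a (x : AffG p F) : (x⁻¹).a = x.a⁻¹ := rfl

instance : Group (AffG p F) :=
  Group.ofLeftAxioms
    (fun x y z => by
      ext
      · simp [add_assoc]
      · simp [mul_add, mul_assoc, add_assoc]
      · simp [mul_assoc])
    (fun x => by ext <;> simp)
    (fun x => by ext <;> simp)

/-- The underlying set is a product. -/
def equivProd : AffG p F ≃ ZMod p × F × Fˣ where
  toFun x := (x.c, x.b, x.a)
  invFun x := ⟨x.1, x.2.1, x.2.2⟩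
  left_inv _ := rfl
  right_inv _ := rfl

instance [NeZero p] [Finite F] : Finite (AffG p F) := Finite.of_equiv _ equivProd.symm

/-- the projection to `C_p` -/
def pr : AffG p F →* Multiplicative (ZMod p) where
  toFun x := Multiplicative.ofAdd x.c
  map_one' := rfl
  map_mul' _ _ := rfl

/-- the inclusion of `C_p` -/
def inC : Multiplicative (ZMod p) →* AffG p F where
  toFun c := ⟨c.toAdd, 0, 1⟩
  map_one' := rfl
  map_mul' x y := by ext <;> simp

@[simp] theorem pr_inC (c : Multiplicative (ZMod p)) : pr (inC c : AffG p F) = c := rfl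

theorem inC_commute (c : Multiplicative (ZMod p)) (x : AffG p F) : Commute (inC c) x := by
  ext <;> simp [inC, add_comm]

/-- the abelian normal subgroup `C_p × F` -/
def inP : Multiplicative (ZMod p × F) →* AffG p F where
  toFun x := ⟨x.toAdd.1, x.toAdd.2, 1⟩
  map_one' := rfl
  map_mul' x y := by ext <;> simp

theorem inP_injective : Function.Injective (inP : Multiplicative (ZMod p × F) →* AffG p F) := by
  intro x y h
  have h1 : x.toAdd.1 = y.toAdd.1 := congrArg AffG.c h
  have h2 : x.toAdd.2 = y.toAdd.2 := congrArg AffG.b h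
  exact Multiplicative.toAdd.injective (Prod.ext h1 h2)

/-- the kernel of `pr` -/
def inK (b : F) (a : Fˣ) : AffG p F := ⟨0, b, a⟩

theorem inK_mul (b b' : F) (a a' : Fˣ) :
    (inK b a * inK b' a' : AffG p F) = inK (b + a * b') (a * a') := by
  ext <;> simp [inK]

theorem pr_inK (b : F) (a : Fˣ) : pr (inK b a : AffG p F) = 1 := rfl

theorem eq_inC_mul_inK (x : AffG p F) : x = inC (pr x) * inK x.b x.a := by
  ext <;> simp [inK, inC, pr]

end AffG

end Pool.Agent.R723
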