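import Mathlib

/-!
Elementary bound for inner products of vectors indexed by pairs of points of the projective line
over a finite field, invariant under the Moebius transformations.
-/

namespace Pool.Agent.R723.AltSt

set_option linter.unusedSectionVars false

open scoped InnerProductSpace ComplexConjugate

variable {E : Type*} [Field E] [DecidableEq E]

/-- Translation `x ↦ x + u` of the projective line `E ∪ {∞}`. -/
def transl (u : E) : Equiv.Perm (Option E) := Equiv.optionCongr (Equiv.addRight u)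

/-- Scaling `x ↦ c x` of the projective line. -/
def scal (c : Eˣ) : Equiv.Perm (Option E) := Equiv.optionCongr (Units.mulLeft c)

/-- The map `x ↦ -1/x` on the projective line. -/
def invFun : Option E → Option E
  | none => some 0
  | some x => if x = 0 then none else some (-x⁻¹)

theorem invFun_invFun (x : Option E) : invFun (invFun x) = x := by
  rcases x with _ | x
  · simp [invFun]
  · by_cases hx : x = 0
    · simp [invFun, hx]
    · simp [invFun, hx]

/-- The permutation `x ↦ -1/x`. -/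
def inv : Equiv.Perm (Option E) := ⟨invFun, invFun, invFun_invFun, invFun_invFun⟩

/-- The group of Moebius transformations. -/
def Mob (E : Type*) [Field E] [DecidableEq E] : Subgroup (Equiv.Perm (Option E)) :=
  Subgroup.closure (Set.range (transl (E := E)) ∪ Set.range (scal (E := E)) ∪ {inv})

theorem transl_mem (u : E) : transl u ∈ Mob E :=
  Subgroup.subset_closure (Or.inl (Or.inl ⟨u, rfl⟩))

theorem scal_mem (c : Eˣ) : scal c ∈ Mob E :=
  Subgroup.subset_closure (Or.inl (Or.inr ⟨c, rfl⟩))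

theorem inv_mem' : (inv : Equiv.Perm (Option E)) ∈ Mob E :=
  Subgroup.subset_closure (Or.inr rfl)

@[simp] theorem transl_none (u : E) : transl u none = none := rfl
@[simp] theorem transl_some (u x : E) : transl u (some x) = some (x + u) := rfl
@[simp] theorem scal_none (c : Eˣ) : scal c none = none := rfl
@[simp] theorem scal_some (c : Eˣ) (x : E) : scal c (some x) = some (c * x) := rfl
@[simp] theorem inv_none : (inv : Equiv.Perm (Option E)) none = some 0 := rfl
@[simp] theorem inv_zero : (inv : Equiv.Perm (Option E)) (some 0) = none := by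
  simp [inv, invFun]
theorem inv_some {x : E} (hx : x ≠ 0) : (inv : Equiv.Perm (Option E)) (some x) = some (-x⁻¹) := by
  simp [inv, invFun, hx]

/-- 2-transitivity -/
theorem two_trans {p q : Option E} (h : p ≠ q) :
    ∃ γ ∈ Mob E, γ p = none ∧ γ q = some 0 := by
  have h1 : ∃ γ ∈ Mob E, γ p = none := by
    rcases p with _ | a
    · exact ⟨1, one_mem _, rfl⟩
    · refine ⟨inv * transl (-a), mul_mem inv_mem' (transl_mem _), ?_⟩
      simp
  obtain ⟨γ, hγ, hp⟩ := h1
  have hq : γ q ≠ none := by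
    intro hq
    exact h (γ.injective (hp.trans hq.symm))
  obtain ⟨b, hb⟩ := Option.ne_none_iff_exists'.mp hq
  refine ⟨transl (-b) * γ, mul_mem (transl_mem _) hγ, ?_, ?_⟩
  · simp [hp]
  · simp [hb]

/-- 3-transitivity -/
theorem three_trans {p q r : Option E} (h : p ≠ q) (hpr : p ≠ r) (hqr : q ≠ r) :
    ∃ γ ∈ Mob E, γ p = none ∧ γ q = some 0 ∧ γ r = some 1 := by
  obtain ⟨γ, hγ, hp, hq⟩ := two_trans h
  have hr : γ r ≠ none := fun hr => hpr (γ.injective (hp.trans hr.symm))
  obtain ⟨c, hc⟩ := Option.ne_none_iff_exists'.mp hr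
  have hc0 : c ≠ 0 := by
    rintro rfl
    exact hqr (γ.injective (hq.trans hc.symm))
  refine ⟨scal (Units.mk0 c hc0)⁻¹ * γ, mul_mem (scal_mem _) hγ, ?_, ?_, ?_⟩
  · simp [hp]
  · simp [hq]
  · simp [hc, hc0]

variable [Fintype E] {H : Type*} [NormedAddCommGroup H] [InnerProductSpace ℂ H]

/-- The hypotheses on the family of vectors. -/
structure Fam (y : Option E → Option E → H) : Prop where
  anti : ∀ p q, y q p = - y p q
  inv : ∀ γ ∈ Mob E, ∀ p q r s, ⟪y (γ p) (γ q), y (γ r) (γ s)⟫_ℂ = ⟪y p q, y r s⟫_ℂ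
  star : ∀ p, ∑ q, y p q = 0

variable {y : Option E → Option E → H}

theorem Fam.self (hy : Fam y) (p : Option E) : y p p = 0 := by
  have := hy.anti p p
  have h2 : (2 : ℂ) • y p p = 0 := by
    rw [two_smul]
    nth_rw 1 [this]
    simp
  simpa using h2

/-- common squared norm -/
noncomputable def sq (y : Option E → Option E → H) : ℝ := ‖y none (some 0)‖ ^ 2

theorem sq_nonneg' (y : Option E → Option E → H) : 0 ≤ sq y := by unfold sq; positivity

theorem Fam.inner_self (hy : Fam y) {p q : Option E} (h : p ≠ q) :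
    ⟪y p q, y p q⟫_ℂ = (sq y : ℂ) := by
  obtain ⟨γ, hγ, h1, h2⟩ := two_trans h
  rw [← hy.inv γ hγ, h1, h2, inner_self_eq_norm_sq_to_K]
  simp [sq]

theorem Fam.norm_sq (hy : Fam y) {p q : Option E} (h : p ≠ q) : ‖y p q‖ ^ 2 = sq y := by
  have h1 := hy.inner_self h
  rw [inner_self_eq_norm_sq_to_K] at h1
  have h2 : ((‖y p q‖ ^ 2 : ℝ) : ℂ) = (sq y : ℂ) := by
    rw [← h1]; push_cast; rfl
  exact Complex.ofReal_injective h2

/-- The inner product of two pairs sharing a point. -/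
theorem Fam.inner_share (hy : Fam y) {p q r : Option E} (h : p ≠ q) (hpr : p ≠ r) (hqr : q ≠ r) :
    ⟪y p q, y p r⟫_ℂ = ⟪y none (some 0), y none (some 1)⟫_ℂ := by
  obtain ⟨γ, hγ, h1, h2, h3⟩ := three_trans h hpr hqr
  rw [← hy.inv γ hγ, h1, h2, h3]

theorem Fam.share_eq (hy : Fam y) :
    ((Fintype.card E : ℂ) - 1) * ⟪y none (some 0), y none (some 1)⟫_ℂ = - (sq y : ℂ) := by
  have h := congrArg (fun v => ⟪y none (some 0), v⟫_ℂ) (hy.star none)
  simp only [inner_zero_right] at h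
  rw [Fintype.sum_option, hy.self, zero_add, inner_sum,
    ← Finset.add_sum_erase _ _ (Finset.mem_univ (0 : E)),
    hy.inner_self (by simp)] at h
  rw [Finset.sum_congr rfl (g := fun _ => ⟪y none (some 0), y none (some 1)⟫_ℂ)] at h
  · rw [Finset.sum_const, Finset.card_erase_of_mem (Finset.mem_univ _), Finset.card_univ,
      nsmul_eq_mul, Nat.cast_sub (Fintype.card_pos), Nat.cast_one] at h
    linear_combination h
  · intro b hb
    exact hy.inner_share (by simp) (by simp)
      (by simpa using (Finset.ne_of_mem_erase hb).symm)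


/-- The real number `c = -a/(Q-1)`. -/
noncomputable def cc (y : Option E → Option E → H) : ℝ := - sq y / ((Fintype.card E : ℝ) - 1)

theorem card_gt : (1 : ℝ) < (Fintype.card E : ℝ) := by
  exact_mod_cast Fintype.one_lt_card (α := E)

theorem Fam.share_val (hy : Fam y) :
    ⟪y none (some 0), y none (some 1)⟫_ℂ = (cc y : ℂ) := by
  have h := hy.share_eq
  have hQ : ((Fintype.card E : ℂ) - 1) ≠ 0 := by
    have := card_gt (E := E)
    intro h0
    have h1 : ((((Fintype.card E : ℝ) - 1 : ℝ)) : ℂ) = 0 := by push_cast; exact h0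
    have h2 := Complex.ofReal_eq_zero.mp h1
    linarith
  unfold cc
  push_cast
  rw [eq_div_iff hQ]
  linear_combination h

/-- Bessel type inequality. -/
theorem Fam.bessel (hy : Fam y) (b : H) :
    ∑ r : E, ‖⟪y none (some r), b⟫_ℂ‖ ^ 2 ≤ (sq y - cc y) * ‖b‖ ^ 2 := by
  set lam : E → ℂ := fun r => ⟪y none (some r), b⟫_ℂ with hlam
  set L : ℝ := ∑ r : E, ‖lam r‖ ^ 2 with hL
  have hL0 : 0 ≤ L := Finset.sum_nonneg fun r _ => by positivity
  set z : H := ∑ r : E, lam r • y none (some r) with hz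
  have hzb : ⟪z, b⟫_ℂ = (L : ℂ) := by
    rw [hz, sum_inner, hL]
    push_cast
    refine Finset.sum_congr rfl fun r _ => ?_
    rw [inner_smul_left]
    change conj (lam r) * lam r = _
    rw [Complex.conj_mul']
  have hsum0 : ∑ r : E, lam r = 0 := by
    have h1 := hy.star none
    rw [Fintype.sum_option, hy.self, zero_add] at h1
    rw [hlam, ← sum_inner, h1, inner_zero_left]
  have hzz : ⟪z, z⟫_ℂ = (((sq y - cc y) * L : ℝ) : ℂ) := by
    have hin : ∀ r s : E, ⟪y none (some r), y none (some s)⟫_ℂ =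
        (cc y : ℂ) + if r = s then ((sq y - cc y : ℝ) : ℂ) else 0 := by
      intro r s
      by_cases hrs : r = s
      · subst hrs
        rw [hy.inner_self (by simp), if_pos rfl]
        push_cast; ring
      · rw [hy.inner_share (by simp) (by simp) (by simpa using hrs), hy.share_val, if_neg hrs,
          add_zero]
    have h1 : ∀ r : E, ⟪y none (some r), z⟫_ℂ = ((sq y - cc y : ℝ) : ℂ) * lam r := by
      intro r
      rw [hz, inner_sum]
      simp_rw [inner_smul_right, hin, mul_add, Finset.sum_add_distrib, ← Finset.sum_mul, hsum0,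
        zero_mul, zero_add]
      rw [Finset.sum_eq_single r]
      · rw [if_pos rfl]; ring
      · intro s _ hs
        rw [if_neg (Ne.symm hs), mul_zero]
      · intro h; exact absurd (Finset.mem_univ r) h
    nth_rw 1 [hz]
    rw [sum_inner]
    simp_rw [inner_smul_left, h1]
    rw [hL]
    push_cast
    rw [Finset.mul_sum]
    refine Finset.sum_congr rfl fun r _ => ?_
    rw [← Complex.conj_mul' (lam r)]
    ring
  have hz2 : ‖z‖ ^ 2 = (sq y - cc y) * L := by
    rw [inner_self_eq_norm_sq_to_K] at hzz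
    have h2 : ((‖z‖ ^ 2 : ℝ) : ℂ) = (((sq y - cc y) * L : ℝ) : ℂ) := by
      rw [← hzz]; push_cast; rfl
    exact Complex.ofReal_injective h2
  have hcs : L ^ 2 ≤ (sq y - cc y) * L * ‖b‖ ^ 2 := by
    have h1 := norm_inner_le_norm (𝕜 := ℂ) z b
    rw [hzb, Complex.norm_real, Real.norm_of_nonneg hL0] at h1
    calc L ^ 2 ≤ (‖z‖ * ‖b‖) ^ 2 := by gcongr
      _ = (sq y - cc y) * L * ‖b‖ ^ 2 := by rw [mul_pow, hz2]
  rcases hL0.eq_or_lt with h0 | h0
  · rw [← h0]
    have hc : 0 ≤ sq y - cc y := by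
      have := card_gt (E := E)
      have h3 : cc y ≤ 0 := by
        unfold cc
        exact div_nonpos_of_nonpos_of_nonneg (neg_nonpos.mpr (sq_nonneg' y)) (by linarith)
      have := sq_nonneg' y
      linarith
    positivity
  · have : L * L ≤ ((sq y - cc y) * ‖b‖ ^ 2) * L := by nlinarith
    exact le_of_mul_le_mul_right this h0

/-- The explicit cross ratio value. -/
noncomputable def RR (a s : E) : E := a * (s - 1) ^ 2 / (s * (1 - a) ^ 2)

theorem moebius (a s : E) (ha1 : a ≠ 1) (hs0 : s ≠ 0) (hs1 : s ≠ 1) (hsa : s ≠ a) :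
    ∃ γ ∈ Mob E, γ (some a) = some 0 ∧ γ (some 1) = some 1 ∧ γ (some s) = none ∧
      γ (some (s * a)) = some (RR a s) := by
  have h1 : s - 1 ≠ 0 := sub_ne_zero.mpr hs1
  have h2 : s - a ≠ 0 := sub_ne_zero.mpr hsa
  have h3 : 1 - a ≠ 0 := sub_ne_zero.mpr ha1.symm
  have h3' : a - 1 ≠ 0 := sub_ne_zero.mpr ha1
  have h1' : 1 - s ≠ 0 := sub_ne_zero.mpr hs1.symm
  have h2' : a - s ≠ 0 := sub_ne_zero.mpr hsa.symm
  have h4 : s * a - s ≠ 0 := by
    have : s * a - s = s * (a - 1) := by ring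
    rw [this]; exact mul_ne_zero hs0 h3'
  set u0 : E := (1 - a) / ((s - 1) * (s - a)) with hu0
  have hu : u0 ≠ 0 := div_ne_zero h3 (mul_ne_zero h1 h2)
  refine ⟨scal (Units.mk0 u0⁻¹ (inv_ne_zero hu)) * (transl (-(s - a)⁻¹) * (inv * transl (-s))),
    ?_, ?_, ?_, ?_, ?_⟩
  · exact mul_mem (scal_mem _) (mul_mem (transl_mem _) (mul_mem inv_mem' (transl_mem _)))
  · rw [Equiv.Perm.mul_apply, Equiv.Perm.mul_apply, Equiv.Perm.mul_apply, transl_some,
      ← sub_eq_add_neg, inv_some h2', transl_some, scal_some]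
    congr 1
    have : -(a - s)⁻¹ + -(s - a)⁻¹ = 0 := by
      rw [show a - s = -(s - a) by ring, inv_neg]; ring
    rw [this, mul_zero]
  · rw [Equiv.Perm.mul_apply, Equiv.Perm.mul_apply, Equiv.Perm.mul_apply, transl_some,
      ← sub_eq_add_neg, inv_some h1', transl_some, scal_some]
    congr 1
    rw [Units.val_mk0, hu0, show (1 - s) = -(s - 1) by ring, inv_neg, neg_neg]
    field_simp
    ring
  · rw [Equiv.Perm.mul_apply, Equiv.Perm.mul_apply, Equiv.Perm.mul_apply, transl_some,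
      ← sub_eq_add_neg, sub_self, inv_zero, transl_none, scal_none]
  · rw [Equiv.Perm.mul_apply, Equiv.Perm.mul_apply, Equiv.Perm.mul_apply, transl_some,
      ← sub_eq_add_neg, inv_some h4, transl_some, scal_some]
    congr 1
    unfold RR
    rw [Units.val_mk0, hu0, show s * a - s = -(s * (1 - a)) by ring, inv_neg, neg_neg]
    field_simp
    ring


theorem RR_eq {a s s' : E} (ha : a ≠ 0) (ha1 : a ≠ 1) (hs : s ≠ 0) (hs' : s' ≠ 0)
    (h : RR a s = RR a s') : s = s' ∨ s = s'⁻¹ := by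
  unfold RR at h
  have h3 : (1 - a) ≠ 0 := sub_ne_zero.mpr ha1.symm
  rw [div_eq_div_iff (mul_ne_zero hs (pow_ne_zero 2 h3)) (mul_ne_zero hs' (pow_ne_zero 2 h3))] at h
  have h1 : (a * (1 - a) ^ 2) * ((s - s') * (s * s' - 1)) = 0 := by
    linear_combination h
  have h2 : (s - s') * (s * s' - 1) = 0 := by
    rcases mul_eq_zero.mp h1 with h | h
    · exact absurd h (mul_ne_zero ha (pow_ne_zero 2 h3))
    · exact h
  rcases mul_eq_zero.mp h2 with h | h
  · exact Or.inl (sub_eq_zero.mp h)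
  · right
    exact eq_inv_of_mul_eq_one_left (sub_eq_zero.mp h)

theorem Fam.norm_le (hy : Fam y) (p q r s : Option E) :
    ‖⟪y p q, y r s⟫_ℂ‖ ≤ sq y := by
  have hn : ∀ p q : Option E, ‖y p q‖ ^ 2 ≤ sq y := by
    intro p q
    by_cases h : p = q
    · subst h; rw [hy.self]; simpa using sq_nonneg' y
    · exact (hy.norm_sq h).le
  have h1 := norm_inner_le_norm (𝕜 := ℂ) (y p q) (y r s)
  have h2 := hn p q
  have h3 := hn r s
  nlinarith [sq_nonneg (‖y p q‖ - ‖y r s‖)]

theorem Fam.good (hy : Fam y) {a s : E} (ha1 : a ≠ 1) (hs0 : s ≠ 0) (hs1 : s ≠ 1)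
    (hsa : s ≠ a) :
    ‖⟪y (some a) (some 1), y (some (s * a)) (some s)⟫_ℂ‖ =
      ‖⟪y none (some (RR a s)), y (some 0) (some 1)⟫_ℂ‖ := by
  obtain ⟨γ, hγ, h1, h2, h3, h4⟩ := moebius a s ha1 hs0 hs1 hsa
  rw [← hy.inv γ hγ, h1, h2, h3, h4, norm_inner_symm, hy.anti none (some (RR a s)),
    inner_neg_left, norm_neg]

theorem Fam.sum_sq (hy : Fam y) {a : E} (ha : a ≠ 0) (ha1 : a ≠ 1) :
    ∑ s : Eˣ, ‖⟪y (some a) (some 1), y (some (s * a)) (some (s : E))⟫_ℂ‖ ^ 2 ≤ 7 * sq y ^ 2 := by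
  classical
  set f : Eˣ → ℝ := fun s => ‖⟪y (some a) (some 1), y (some (s * a)) (some (s : E))⟫_ℂ‖ ^ 2 with hf
  set g : E → ℝ := fun r => ‖⟪y none (some r), y (some 0) (some 1)⟫_ℂ‖ ^ 2 with hg
  have hfle : ∀ s, f s ≤ sq y ^ 2 := fun s => by
    have := hy.norm_le (some a) (some 1) (some (s * a)) (some (s : E))
    exact pow_le_pow_left₀ (norm_nonneg _) this 2
  set bad : Finset Eˣ := {1, Units.mk0 a ha} with hbad
  have hsplit := Finset.sum_add_sum_compl bad f
  have h1 : ∑ s ∈ bad, f s ≤ 2 * sq y ^ 2 := by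
    calc ∑ s ∈ bad, f s ≤ ∑ s ∈ bad, sq y ^ 2 := Finset.sum_le_sum fun s _ => hfle s
      _ = (bad.card : ℝ) * sq y ^ 2 := by rw [Finset.sum_const, nsmul_eq_mul]
      _ ≤ 2 * sq y ^ 2 := by
        have : (bad.card : ℝ) ≤ 2 := by exact_mod_cast Finset.card_le_two
        nlinarith [sq_nonneg (sq y)]
  have h2 : ∑ s ∈ badᶜ, f s ≤ 4 * sq y ^ 2 + sq y ^ 2 := by
    have e1 : ∀ s ∈ badᶜ, f s = g (RR a s) := by
      intro s hs
      rw [Finset.mem_compl, hbad, Finset.mem_insert, Finset.mem_singleton, not_or] at hs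
      simp only [hf, hg]
      rw [hy.good ha1 s.ne_zero (fun h => hs.1 (Units.ext h)) (fun h => hs.2 (Units.ext h))]
    rw [Finset.sum_congr rfl e1, ← Finset.sum_fiberwise (g := fun s : Eˣ => RR a s)]
    have e2 : ∀ r : E, ∑ s ∈ (badᶜ).filter (fun s : Eˣ => RR a (s : E) = r), g (RR a (s : E)) ≤ 2 * g r := by
      intro r
      rw [Finset.sum_congr rfl (g := fun _ => g r) (fun s hs => by rw [(Finset.mem_filter.mp hs).2]),
        Finset.sum_const, nsmul_eq_mul]
      have hg0 : 0 ≤ g r := by positivity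
      have hcard : (((badᶜ).filter (fun s : Eˣ => RR a (s : E) = r)).card : ℝ) ≤ 2 := by
        rcases ((badᶜ).filter (fun s : Eˣ => RR a (s : E) = r)).eq_empty_or_nonempty with h0 | ⟨s0, hs0⟩
        · rw [h0]; norm_num
        · have hsub : (badᶜ).filter (fun s : Eˣ => RR a (s : E) = r) ⊆ {s0, s0⁻¹} := by
            intro s hs
            have hA := (Finset.mem_filter.mp hs).2
            have hB := (Finset.mem_filter.mp hs0).2
            rcases RR_eq ha ha1 s.ne_zero s0.ne_zero (hA.trans hB.symm) with h | h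
            · rw [Units.ext h]; simp
            · have : s = s0⁻¹ := Units.ext (by rw [h]; simp)
              rw [this]; simp
          exact_mod_cast (Finset.card_le_card hsub).trans Finset.card_le_two
      nlinarith
    calc ∑ r : E, ∑ s ∈ (badᶜ).filter (fun s : Eˣ => RR a (s : E) = r), g (RR a (s : E)) ≤ ∑ r : E, 2 * g r :=
          Finset.sum_le_sum fun r _ => e2 r
      _ = 2 * ∑ r : E, g r := by rw [Finset.mul_sum]
      _ ≤ 2 * ((sq y - cc y) * ‖y (some 0) (some 1)‖ ^ 2) := by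
          have := hy.bessel (y (some 0) (some 1))
          simp only [hg]
          linarith
      _ ≤ 4 * sq y ^ 2 + sq y ^ 2 := by
          rw [hy.norm_sq (by simp)]
          have hc : - cc y ≤ sq y := by
            unfold cc
            have hQ := card_gt (E := E)
            have hQ2 : (1 : ℝ) ≤ (Fintype.card E : ℝ) - 1 := by
              have : (2 : ℝ) ≤ (Fintype.card E : ℝ) := by
                exact_mod_cast Fintype.one_lt_card (α := E)
              linarith
            rw [neg_div, neg_neg]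
            exact div_le_self (sq_nonneg' y) hQ2
          nlinarith [sq_nonneg' y]
  calc ∑ s : Eˣ, f s = ∑ s ∈ bad, f s + ∑ s ∈ badᶜ, f s := hsplit.symm
    _ ≤ 7 * sq y ^ 2 := by linarith


theorem Fam.torus (hy : Fam y) {a : E} (ha : a ≠ 0) (ha1 : a ≠ 1) :
    ((Fintype.card E : ℝ) - 1) * ‖⟪y none (some 0), y (some a) (some 1)⟫_ℂ‖ ^ 4 ≤ 7 * sq y ^ 4 := by
  classical
  set n : ℝ := (Fintype.card Eˣ : ℝ) with hn
  have hnQ : (Fintype.card E : ℝ) - 1 = n := by
    rw [hn, Fintype.card_units, Nat.cast_sub Fintype.card_pos, Nat.cast_one]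
  have hn1 : 1 ≤ n := by
    rw [hn]; exact_mod_cast Fintype.card_pos
  rw [hnQ]
  set z : Eˣ → H := fun t => y (some (t * a)) (some (t : E)) with hz
  set φ : ℂ := ⟪y none (some 0), y (some a) (some 1)⟫_ℂ with hφ
  set Z : H := ∑ t, z t with hZ
  set S : ℂ := ∑ s : Eˣ, ⟪y (some a) (some 1), y (some (s * a)) (some (s : E))⟫_ℂ with hS
  have h1 : ∀ t, ⟪y none (some 0), z t⟫_ℂ = φ := by
    intro t
    have h := hy.inv (scal t) (scal_mem t) none (some 0) (some a) (some 1)
    simp only [scal_none, scal_some, mul_zero, mul_one] at h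
    exact h
  have h2 : ⟪y none (some 0), Z⟫_ℂ = n * φ := by
    rw [hZ, inner_sum, Finset.sum_congr rfl (fun t _ => h1 t), Finset.sum_const, Finset.card_univ,
      nsmul_eq_mul, hn]
    push_cast; rfl
  have h3 : ∀ t t' : Eˣ, ⟪z t, z (t * t')⟫_ℂ =
      ⟪y (some a) (some 1), y (some (t' * a)) (some (t' : E))⟫_ℂ := by
    intro t t'
    rw [← hy.inv (scal t) (scal_mem t) (some a)]
    simp [hz, mul_assoc]
  have h4 : ⟪Z, Z⟫_ℂ = n * S := by
    rw [hZ, sum_inner]
    rw [Finset.sum_congr rfl (g := fun _ => S)]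
    · rw [Finset.sum_const, Finset.card_univ, nsmul_eq_mul, hn]; push_cast; rfl
    · intro t _
      rw [inner_sum, ← Equiv.sum_comp (Equiv.mulLeft t)]
      exact Finset.sum_congr rfl fun t' _ => h3 t t'
  have h5 : ‖Z‖ ^ 2 = n * ‖S‖ := by
    have : ‖⟪Z, Z⟫_ℂ‖ = ‖Z‖ ^ 2 := by
      rw [inner_self_eq_norm_sq_to_K]
      simp
    rw [← this, h4, norm_mul, Complex.norm_real, Real.norm_of_nonneg (by linarith)]
  have h6 : ‖S‖ ^ 2 ≤ n * (7 * sq y ^ 2) := by
    calc ‖S‖ ^ 2 ≤ (∑ s : Eˣ, ‖⟪y (some a) (some 1), y (some (s * a)) (some (s : E))⟫_ℂ‖) ^ 2 := by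
          gcongr
          exact norm_sum_le _ _
      _ ≤ n * ∑ s : Eˣ, ‖⟪y (some a) (some 1), y (some (s * a)) (some (s : E))⟫_ℂ‖ ^ 2 := by
          have := sq_sum_le_card_mul_sum_sq (s := (Finset.univ : Finset Eˣ))
            (f := fun s : Eˣ => ‖⟪y (some a) (some 1), y (some (s * a)) (some (s : E))⟫_ℂ‖)
          simpa [hn] using this
      _ ≤ n * (7 * sq y ^ 2) := by
          have := hy.sum_sq ha ha1
          gcongr
  have h7 : n * ‖φ‖ ^ 2 ≤ sq y * ‖S‖ := by
    have h8 := norm_inner_le_norm (𝕜 := ℂ) (y none (some 0)) Z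
    rw [h2, norm_mul, Complex.norm_real, Real.norm_of_nonneg (by linarith : (0 : ℝ) ≤ n)] at h8
    have h9 : (n * ‖φ‖) ^ 2 ≤ (‖y none (some 0)‖ * ‖Z‖) ^ 2 := by gcongr
    rw [mul_pow ‖y none (some 0)‖, h5] at h9
    have h10 : n * (n * ‖φ‖ ^ 2) ≤ n * (sq y * ‖S‖) := by
      unfold sq
      nlinarith
    exact le_of_mul_le_mul_left h10 (by linarith)
  have h11 : (n * ‖φ‖ ^ 2) ^ 2 ≤ (sq y * ‖S‖) ^ 2 := by
    gcongr
  have h12 : n * (n * ‖φ‖ ^ 4) ≤ n * (7 * sq y ^ 4) := by
    calc n * (n * ‖φ‖ ^ 4) = (n * ‖φ‖ ^ 2) ^ 2 := by ring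
      _ ≤ (sq y * ‖S‖) ^ 2 := h11
      _ = sq y ^ 2 * ‖S‖ ^ 2 := by ring
      _ ≤ sq y ^ 2 * (n * (7 * sq y ^ 2)) := by gcongr
      _ = n * (7 * sq y ^ 4) := by ring
  exact le_of_mul_le_mul_left h12 (by linarith)

theorem Fam.share_bound (hy : Fam y) {p q r : Option E} (h : p ≠ q) (hpr : p ≠ r) (hqr : q ≠ r) :
    ((Fintype.card E : ℝ) - 1) * ‖⟪y p q, y p r⟫_ℂ‖ ^ 4 ≤ 7 * sq y ^ 4 := by
  rw [hy.inner_share h hpr hqr, hy.share_val, Complex.norm_real]
  unfold cc
  have hQ2 : (1 : ℝ) ≤ (Fintype.card E : ℝ) - 1 := by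
    have : (2 : ℝ) ≤ (Fintype.card E : ℝ) := by
      exact_mod_cast Fintype.one_lt_card (α := E)
    linarith
  set n : ℝ := (Fintype.card E : ℝ) - 1 with hn
  rw [norm_div, norm_neg, Real.norm_of_nonneg (sq_nonneg' y), Real.norm_of_nonneg (by linarith),
    div_pow]
  have h1 : n * (sq y ^ 4 / n ^ 4) = sq y ^ 4 / n ^ 3 := by
    field_simp
  rw [h1]
  have h0 : 0 ≤ sq y ^ 4 := by have := sq_nonneg' y; positivity
  have h2 : sq y ^ 4 / n ^ 3 ≤ sq y ^ 4 := div_le_self h0 (one_le_pow₀ hQ2)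
  linarith

/-- the uniform bound -/
theorem Fam.bound (hy : Fam y) {p q r s : Option E} (hpq : p ≠ q) (hrs : r ≠ s)
    (h1 : ¬ (p = r ∧ q = s)) (h2 : ¬ (p = s ∧ q = r)) :
    ((Fintype.card E : ℝ) - 1) * ‖⟪y p q, y r s⟫_ℂ‖ ^ 4 ≤ 7 * sq y ^ 4 := by
  by_cases hpr : p = r
  · subst hpr
    exact hy.share_bound hpq hrs (fun h => h1 ⟨rfl, h⟩)
  by_cases hps : p = s
  · subst hps
    rw [hy.anti p r, inner_neg_right, norm_neg]
    exact hy.share_bound hpq hpr (fun h => h2 ⟨rfl, h⟩)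
  by_cases hqr : q = r
  · subst hqr
    rw [hy.anti q p, inner_neg_left, norm_neg]
    exact hy.share_bound hpq.symm hrs hps
  by_cases hqs : q = s
  · subst hqs
    rw [hy.anti q p, hy.anti q r, inner_neg_left, inner_neg_right, neg_neg]
    exact hy.share_bound hpq.symm hqr hpr
  obtain ⟨γ, hγ, e1, e2, e3⟩ := three_trans hpq hps hqs
  have hr : γ r ≠ none := fun h => hpr (γ.injective (e1.trans h.symm))
  obtain ⟨x, hx⟩ := Option.ne_none_iff_exists'.mp hr
  rw [← hy.inv γ hγ, e1, e2, e3, hx]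
  apply hy.torus
  · rintro rfl
    exact hqr (γ.injective (e2.trans hx.symm))
  · rintro rfl
    exact hrs (γ.injective (hx.trans e3.symm))

/-- Linear independence. -/
theorem Fam.indep (hy : Fam y) (w : Option E → Option E → ℂ) (halt : ∀ p q, w q p = - w p q)
    (S : Finset (Option E)) (hS : ∀ p q, w p q ≠ 0 → p ∈ S ∧ q ∈ S)
    (hn : 7 * (S.card : ℝ) ^ 8 < 16 * ((Fintype.card E : ℝ) - 1))
    (hsum : ∑ p, ∑ q, w p q • y p q = 0) (hw : ∃ p q, w p q ≠ 0) : sq y = 0 := by
  classical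
  by_contra hsq
  have hsq0 : 0 < sq y := lt_of_le_of_ne (sq_nonneg' y) (Ne.symm hsq)
  obtain ⟨p1, q1, hpq1⟩ := hw
  obtain ⟨⟨p0, q0⟩, _, hmax⟩ := Finset.exists_max_image (Finset.univ : Finset (Option E × Option E))
    (fun x => ‖w x.1 x.2‖) ⟨(p1, q1), Finset.mem_univ _⟩
  simp only [Finset.mem_univ, true_implies, Prod.forall] at hmax
  set m : ℝ := ‖w p0 q0‖ with hm
  have hm0 : 0 < m := (norm_pos_iff.mpr hpq1).trans_le (hmax p1 q1)
  have hwpp : ∀ p, w p p = 0 := by
    intro p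
    have := halt p p
    have h2 : (2 : ℂ) * w p p = 0 := by linear_combination this
    simpa using h2
  have hne : p0 ≠ q0 := by
    rintro rfl
    rw [hwpp, norm_zero] at hm
    exact hm0.ne' hm
  set n : ℝ := (Fintype.card E : ℝ) - 1 with hndef
  have hn1 : 0 < n := by
    have := card_gt (E := E)
    linarith
  set β : ℝ := Real.sqrt (Real.sqrt (7 * sq y ^ 4 / n)) with hβ
  have hβ0 : 0 ≤ β := Real.sqrt_nonneg _
  have hβ4 : β ^ 4 = 7 * sq y ^ 4 / n := by
    rw [hβ, show (4 : ℕ) = 2 * 2 by norm_num, pow_mul, Real.sq_sqrt (Real.sqrt_nonneg _),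
      Real.sq_sqrt (by positivity)]
  have hle : ∀ p q, ¬ (p0 = p ∧ q0 = q) → ¬ (p0 = q ∧ q0 = p) →
      ‖⟪y p0 q0, y p q⟫_ℂ‖ ≤ β := by
    intro p q h1 h2
    by_cases hpq : p = q
    · subst hpq
      rw [hy.self, inner_zero_right, norm_zero]
      exact hβ0
    · have h3 := hy.bound hne hpq h1 h2
      have h4 : ‖⟪y p0 q0, y p q⟫_ℂ‖ ^ 4 ≤ β ^ 4 := by
        rw [hβ4, le_div_iff₀ hn1]
        linarith
      exact le_of_pow_le_pow_left₀ (by norm_num) hβ0 h4
  have hin := congrArg (fun v => ⟪y p0 q0, v⟫_ℂ) hsum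
  simp only [inner_zero_right, inner_sum, inner_smul_right] at hin
  rw [← Finset.sum_product' (s := Finset.univ) (t := Finset.univ)
    (f := fun p q => w p q * ⟪y p0 q0, y p q⟫_ℂ)] at hin
  set f : Option E × Option E → ℂ := fun x => w x.1 x.2 * ⟪y p0 q0, y x.1 x.2⟫_ℂ with hf
  have hin' : ∑ x, f x = 0 := hin
  have hpair : (p0, q0) ≠ (q0, p0) := by
    intro h
    exact hne (Prod.ext_iff.mp h).1
  have hsplit := Finset.sum_add_sum_compl ({(p0, q0), (q0, p0)} : Finset (Option E × Option E)) f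
  rw [hin', Finset.sum_pair hpair] at hsplit
  have e1 : f (p0, q0) = w p0 q0 * sq y := by
    simp only [hf]; rw [hy.inner_self hne]
  have e2 : f (q0, p0) = w p0 q0 * sq y := by
    simp only [hf]
    rw [hy.anti p0 q0, halt p0 q0, inner_neg_right, hy.inner_self hne]
    ring
  rw [e1, e2] at hsplit
  have e3 : ‖∑ x ∈ ({(p0, q0), (q0, p0)} : Finset (Option E × Option E))ᶜ, f x‖ ≤
      (S.card : ℝ) ^ 2 * (m * β) := by
    have hsub : ∑ x ∈ ({(p0, q0), (q0, p0)} : Finset (Option E × Option E))ᶜ, f x =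
        ∑ x ∈ (({(p0, q0), (q0, p0)} : Finset (Option E × Option E))ᶜ).filter
          (fun x => x ∈ S ×ˢ S), f x := by
      rw [Finset.sum_filter]
      refine Finset.sum_congr rfl fun x _ => ?_
      split_ifs with h
      · rfl
      · simp only [hf]
        have : w x.1 x.2 = 0 := by
          by_contra h0
          exact h (Finset.mem_product.mpr (hS _ _ h0))
        rw [this, zero_mul]
    rw [hsub]
    calc _ ≤ ∑ x ∈ (({(p0, q0), (q0, p0)} : Finset (Option E × Option E))ᶜ).filter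
          (fun x => x ∈ S ×ˢ S), ‖f x‖ := norm_sum_le _ _
      _ ≤ ∑ x ∈ (({(p0, q0), (q0, p0)} : Finset (Option E × Option E))ᶜ).filter
          (fun x => x ∈ S ×ˢ S), m * β := by
          refine Finset.sum_le_sum fun x hx => ?_
          have hx1 := (Finset.mem_filter.mp hx).1
          rw [Finset.mem_compl, Finset.mem_insert, Finset.mem_singleton, not_or] at hx1
          simp only [hf]
          rw [norm_mul]
          refine mul_le_mul (hmax _ _) (hle _ _ ?_ ?_) (norm_nonneg _) hm0.le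
          · rintro ⟨a, b⟩
            exact hx1.1 (Prod.ext a.symm b.symm)
          · rintro ⟨a, b⟩
            exact hx1.2 (Prod.ext b.symm a.symm)
      _ = (((({(p0, q0), (q0, p0)} : Finset (Option E × Option E))ᶜ).filter
          (fun x => x ∈ S ×ˢ S)).card : ℝ) * (m * β) := by
          rw [Finset.sum_const, nsmul_eq_mul]
      _ ≤ (S.card : ℝ) ^ 2 * (m * β) := by
          have hc : ((({(p0, q0), (q0, p0)} : Finset (Option E × Option E))ᶜ).filter
            (fun x => x ∈ S ×ˢ S)).card ≤ S.card ^ 2 := by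
            rw [pow_two, ← Finset.card_product]
            exact Finset.card_le_card fun x hx => (Finset.mem_filter.mp hx).2
          have hc' : (((({(p0, q0), (q0, p0)} : Finset (Option E × Option E))ᶜ).filter
            (fun x => x ∈ S ×ˢ S)).card : ℝ) ≤ (S.card : ℝ) ^ 2 := by exact_mod_cast hc
          exact mul_le_mul_of_nonneg_right hc' (by positivity)
  have e4 : 2 * (m * sq y) ≤ (S.card : ℝ) ^ 2 * (m * β) := by
    have : ∑ x ∈ ({(p0, q0), (q0, p0)} : Finset (Option E × Option E))ᶜ, f x =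
        - (2 * (w p0 q0 * sq y)) := by linear_combination hsplit
    rw [this, norm_neg, norm_mul, norm_mul, Complex.norm_real, Real.norm_of_nonneg hsq0.le,
      ← hm, Complex.norm_two] at e3
    exact e3
  have e5 : 2 * sq y ≤ (S.card : ℝ) ^ 2 * β := by
    have : m * (2 * sq y) ≤ m * ((S.card : ℝ) ^ 2 * β) := by linarith
    exact le_of_mul_le_mul_left this hm0
  have e6 : (2 * sq y) ^ 4 ≤ ((S.card : ℝ) ^ 2 * β) ^ 4 := by gcongr
  rw [mul_pow ((S.card : ℝ) ^ 2), hβ4] at e6
  have e7 : 16 * n * sq y ^ 4 ≤ 7 * (S.card : ℝ) ^ 8 * sq y ^ 4 := by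
    have : (2 * sq y) ^ 4 * n ≤ (((S.card : ℝ) ^ 2) ^ 4 * (7 * sq y ^ 4 / n)) * n := by gcongr
    have h8 : (((S.card : ℝ) ^ 2) ^ 4 * (7 * sq y ^ 4 / n)) * n = 7 * (S.card : ℝ) ^ 8 * sq y ^ 4 := by
      rw [mul_assoc, div_mul_cancel₀ _ hn1.ne']; ring
    rw [h8] at this
    have h9 : (2 * sq y) ^ 4 * n = 16 * n * sq y ^ 4 := by ring
    rw [h9] at this
    exact this
  have e8 : 16 * n ≤ 7 * (S.card : ℝ) ^ 8 := le_of_mul_le_mul_right e7 (by positivity)
  linarith

end Pool.Agent.R723.AltSt
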