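import Mathlib

/-!
# Definitions for the antisymmetric part of St ⊗ St for SL_2
-/

namespace Pool.Agent.R723.AltSteinberg

open TensorProduct

universe u v

/-! ### Definitions -/

/-- The permutation representation of a group `G` acting on a set `X`, on the `k`-vector space with
basis `X` (finitely supported functions `X → k`): `g` sends the basis vector `x` to `g • x`. -/
noncomputable def permRep (k G X : Type*) [Field k] [Group G] [MulAction G X] :
    Representation k G (X →₀ k) where
  toFun g := Finsupp.lmapDomain k k (g • ·)
  map_one' := by ext; simp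
  map_mul' g h := by ext; simp [mul_smul]

section Defs

variable (F : Type u) [Field F] (k : Type v) [Field k]

/-- The abstract group `SL_2(F)`. -/
abbrev G := Matrix.SpecialLinearGroup (Fin 2) F

/-- The subgroup `B` of upper triangular matrices. -/
def borel : Subgroup (G F) where
  carrier := {g | g 1 0 = 0}
  one_mem' := by simp
  mul_mem' {a b} ha hb := by
    simp only [Set.mem_ofPred_eq] at ha hb ⊢
    simp [Matrix.mul_apply, Fin.sum_univ_two, ha, hb]
  inv_mem' {a} ha := by
    simp only [Set.mem_ofPred_eq] at ha ⊢
    simp [Matrix.SpecialLinearGroup.coe_inv, Matrix.adjugate_fin_two, ha]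

/-- The module `M(tr) = kG ⊗_{kB} k`, i.e. the permutation module `k[G/B]`: the `k`-vector space
with basis the set `G/B` of cosets. -/
noncomputable def M := (G F ⧸ borel F) →₀ k

noncomputable instance instGroupM : AddCommGroup (M F k) :=
  (Finsupp.instAddCommGroup : AddCommGroup ((G F ⧸ borel F) →₀ k))

noncomputable instance instModuleM : Module k (M F k) :=
  (Finsupp.module _ _ : Module k ((G F ⧸ borel F) →₀ k))

/-- The action of `G` on `M(tr)`, permuting the basis `G/B`. -/
noncomputable def MRep : Representation k (G F) (M F k) :=
  permRep k (G F) (G F ⧸ borel F)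

variable {F} in
/-- The unipotent matrix `ε(x)`. -/
def eps (x : F) : G F := ⟨!![1, x; 0, 1], by simp⟩

/-- The matrix `s` with rows `(0, 1)` and `(-1, 0)`. -/
def s : G F := ⟨!![0, 1; -1, 0], by simp⟩

/-- The generator `1_tr` of `M(tr)` (the basis vector at the coset of `1`). -/
noncomputable def oneTr : M F k :=
  (Finsupp.single (QuotientGroup.mk 1) 1 : (G F ⧸ borel F) →₀ k)

/-- `η = (1 - s) 1_tr`. -/
noncomputable def eta : M F k := oneTr F k - MRep F k (s F) (oneTr F k)

/-- The underlying subspace of the Steinberg module `kG η`, the span of all `g η`, `g ∈ G`. -/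
noncomputable def StSpan : Submodule k (M F k) :=
  Submodule.span k (Set.range fun g => MRep F k g (eta F k))

theorem StSpan_stable (g : G F) ⦃v : M F k⦄ (hv : v ∈ StSpan F k) :
    MRep F k g v ∈ StSpan F k := by
  induction hv using Submodule.span_induction with
  | mem x hx =>
    obtain ⟨h, rfl⟩ := hx
    refine Submodule.subset_span ⟨g * h, ?_⟩
    simp only [map_mul]
    rfl
  | zero => rw [map_zero]; exact zero_mem _
  | add x y _ _ hx hy => rw [map_add]; exact add_mem hx hy
  | smul c x _ hx => rw [map_smul]; exact Submodule.smul_mem _ _ hx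

/-- `kG η` as a subrepresentation of `M(tr)`. -/
noncomputable def StSub : Subrepresentation (MRep F k) := ⟨StSpan F k, StSpan_stable F k⟩

/-- The Steinberg module `St = kG η`. -/
noncomputable def St := ↥(StSub F k).toSubmodule

noncomputable instance instGroupSt : AddCommGroup (St F k) :=
  (Submodule.addCommGroup _ : AddCommGroup ↥(StSub F k).toSubmodule)

noncomputable instance instModuleSt : Module k (St F k) :=
  (Submodule.module _ : Module k ↥(StSub F k).toSubmodule)

/-- The action of `G` on `St`. -/
noncomputable def StRep : Representation k (G F) (St F k) := (StSub F k).toRepresentation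

variable {F} in
/-- The element `e_x = ε(x) η` of `St`. -/
noncomputable def e (x : F) : St F k :=
  (⟨MRep F k (eps x) (eta F k), Submodule.subset_span ⟨eps x, rfl⟩⟩ : (StSub F k).toSubmodule)

/-- The vector space `St ⊗ St`. -/
noncomputable def StSt := St F k ⊗[k] St F k

noncomputable instance instGroupStSt : AddCommGroup (StSt F k) :=
  (TensorProduct.addCommGroup : AddCommGroup (St F k ⊗[k] St F k))

noncomputable instance instModuleStSt : Module k (StSt F k) :=
  (TensorProduct.leftModule : Module k (St F k ⊗[k] St F k))

/-- The diagonal action of `G` on `St ⊗ St`. -/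
noncomputable def StStRep : Representation k (G F) (StSt F k) := (StRep F k).tprod (StRep F k)

variable {F k} in
/-- The pure tensor `u ⊗ v` in `St ⊗ St`. -/
noncomputable def tens (u v : St F k) : StSt F k := u ⊗ₜ[k] v

variable {F} in
/-- `ρ_{x,y} = (e_x ⊗ e_y - e_y ⊗ e_x) / 2` in `St ⊗ St`. -/
noncomputable def rho (x y : F) : StSt F k :=
  (2 : k)⁻¹ • (tens (e k x) (e k y) - tens (e k y) (e k x))

/-- The underlying subspace of `V_-`: the span of all `ρ_{x,y}` with `x ≠ y`. -/
noncomputable def VminusSpan : Submodule k (StSt F k) :=
  Submodule.span k {v | ∃ x y : F, x ≠ y ∧ v = rho k x y}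

end Defs

end Pool.Agent.R723.AltSteinberg
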