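import Pool.Agent.R723.AltStBound

/-!
Finite level statement: over a large finite field, the translates of a nonzero `cycle` supported on
few points span all cycles.
-/

namespace Pool.Agent.R723.AltSt

set_option linter.unusedSectionVars false

open scoped InnerProductSpace ComplexConjugate

variable {E : Type*} [Field E] [DecidableEq E] [Fintype E]

/-- The Hilbert space of functions on pairs of points. -/
abbrev HH (E : Type*) := EuclideanSpace ℂ (Option E × Option E)

/-- permutation of coordinates -/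
noncomputable def UU (γ : Equiv.Perm (Option E)) : HH E ≃ₗᵢ[ℂ] HH E :=
  LinearIsometryEquiv.piLpCongrLeft 2 ℂ ℂ (Equiv.prodCongr γ γ)

theorem UU_apply (γ : Equiv.Perm (Option E)) (f : HH E) (p q : Option E) :
    UU γ f (γ p, γ q) = f (p, q) := by
  unfold UU
  rw [LinearIsometryEquiv.piLpCongrLeft_apply]
  simp [Equiv.piCongrLeft']

theorem UU_single (γ : Equiv.Perm (Option E)) (p q : Option E) (c : ℂ) :
    UU γ (EuclideanSpace.single (p, q) c) = EuclideanSpace.single (γ p, γ q) c := by
  unfold UU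
  rw [EuclideanSpace.piLpCongrLeft_single]
  rfl

theorem UU_mul (γ δ : Equiv.Perm (Option E)) (f : HH E) : UU (γ * δ) f = UU γ (UU δ f) := by
  ext ⟨p, q⟩
  have h1 := UU_apply (γ * δ) f ((γ * δ).symm p) ((γ * δ).symm q)
  have h2 := UU_apply γ (UU δ f) (γ.symm p) (γ.symm q)
  have h3 := UU_apply δ f (δ.symm (γ.symm p)) (δ.symm (γ.symm q))
  simp only [Equiv.apply_symm_apply] at h1 h2 h3
  rw [h1, h2, h3]
  rfl

/-- elementary alternating tensor -/
noncomputable def ee (p q : Option E) : HH E :=
  EuclideanSpace.single (p, q) 1 - EuclideanSpace.single (q, p) 1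

theorem ee_anti (p q : Option E) : ee q p = - ee p q := by
  unfold ee; abel

theorem UU_ee (γ : Equiv.Perm (Option E)) (p q : Option E) : UU γ (ee p q) = ee (γ p) (γ q) := by
  unfold ee
  rw [map_sub, UU_single, UU_single]

/-- the star at a point -/
noncomputable def st (p : Option E) : HH E := ∑ q, ee p q

theorem UU_st (γ : Equiv.Perm (Option E)) (p : Option E) : UU γ (st p) = st (γ p) := by
  unfold st
  rw [map_sum]
  simp_rw [UU_ee]
  exact Equiv.sum_comp γ (fun q => ee (γ p) q)

/-- cycles -/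
structure IsCyc (f : HH E) : Prop where
  anti : ∀ p q, f (q, p) = - f (p, q)
  row : ∀ p, ∑ q, f (p, q) = 0

theorem IsCyc.UU {f : HH E} (hf : IsCyc f) (γ : Equiv.Perm (Option E)) : IsCyc (UU γ f) := by
  constructor
  · intro p q
    obtain ⟨p, rfl⟩ := γ.surjective p
    obtain ⟨q, rfl⟩ := γ.surjective q
    rw [UU_apply, UU_apply, hf.anti]
  · intro p
    obtain ⟨p, rfl⟩ := γ.surjective p
    rw [← Equiv.sum_comp γ]
    simp_rw [UU_apply]
    exact hf.row p

theorem inner_ee (p q : Option E) (f : HH E) : ⟪ee p q, f⟫_ℂ = f (p, q) - f (q, p) := by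
  unfold ee
  rw [inner_sub_left, EuclideanSpace.inner_single_left, EuclideanSpace.inner_single_left]
  simp

theorem IsCyc.inner_st {f : HH E} (hf : IsCyc f) (p : Option E) : ⟪st p, f⟫_ℂ = 0 := by
  unfold st
  rw [sum_inner]
  simp_rw [inner_ee, hf.anti p]
  have := hf.row p
  rw [Finset.sum_congr rfl (g := fun q => 2 * f (p, q)) (fun q _ => by ring),
    ← Finset.mul_sum, this, mul_zero]

theorem alt_eq_sum {f : HH E} (hf : ∀ p q, f (q, p) = - f (p, q)) :
    ∑ p, ∑ q, f (p, q) • ee p q = (2 : ℂ) • f := by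
  have h1 : ∑ p, ∑ q, f (p, q) • (EuclideanSpace.single (p, q) 1 : HH E) = f := by
    ext ⟨a, b⟩
    rw [← Finset.sum_product' (s := Finset.univ) (t := Finset.univ)
      (f := fun p q => f (p, q) • (EuclideanSpace.single (p, q) 1 : HH E))]
    rw [WithLp.ofLp_sum, Finset.sum_apply, Finset.sum_eq_single (a, b)]
    · simp
    · intro x _ hx
      simp [Pi.single_apply, Ne.symm hx]
    · intro h; exact absurd (Finset.mem_univ _) h
  have h2 : ∑ p, ∑ q, f (p, q) • (EuclideanSpace.single (q, p) 1 : HH E) = - f := by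
    rw [Finset.sum_comm]
    have : ∀ q p : Option E, f (p, q) • (EuclideanSpace.single (q, p) 1 : HH E) =
        - (f (q, p) • (EuclideanSpace.single (q, p) 1 : HH E)) := by
      intro q p
      rw [hf q p, neg_smul]
    simp_rw [this, Finset.sum_neg_distrib]
    rw [h1]
  unfold ee
  simp_rw [smul_sub, Finset.sum_sub_distrib]
  rw [h1, h2, two_smul]
  abel

/-- The span of translates of `w`. -/
noncomputable def W1 (w : HH E) : Submodule ℂ (HH E) :=
  Submodule.span ℂ {v | ∃ γ ∈ Mob E, v = UU γ w}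

/-- The span of the stars. -/
noncomputable def Sta (E : Type*) [Field E] [DecidableEq E] [Fintype E] : Submodule ℂ (HH E) :=
  Submodule.span ℂ (Set.range st)

theorem W1_stable (w : HH E) {γ : Equiv.Perm (Option E)} (hγ : γ ∈ Mob E) {v : HH E}
    (hv : v ∈ W1 w) : UU γ v ∈ W1 w := by
  unfold W1 at hv ⊢
  induction hv using Submodule.span_induction with
  | mem x hx =>
    obtain ⟨δ, hδ, rfl⟩ := hx
    exact Submodule.subset_span ⟨γ * δ, mul_mem hγ hδ, (UU_mul γ δ w).symm⟩
  | zero => rw [map_zero]; exact zero_mem _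
  | add x y _ _ hx hy => rw [map_add]; exact add_mem hx hy
  | smul c x _ hx => rw [map_smul]; exact Submodule.smul_mem _ _ hx

theorem Sta_stable (γ : Equiv.Perm (Option E)) {v : HH E}
    (hv : v ∈ Sta E) : UU γ v ∈ Sta E := by
  unfold Sta at hv ⊢
  induction hv using Submodule.span_induction with
  | mem x hx =>
    obtain ⟨p, rfl⟩ := hx
    exact Submodule.subset_span ⟨γ p, (UU_st γ p).symm⟩
  | zero => rw [map_zero]; exact zero_mem _
  | add x y _ _ hx hy => rw [map_add]; exact add_mem hx hy
  | smul c x _ hx => rw [map_smul]; exact Submodule.smul_mem _ _ hx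

theorem W1_cyc {w : HH E} (hw : IsCyc w) {v : HH E} (hv : v ∈ W1 w) : IsCyc v := by
  unfold W1 at hv
  induction hv using Submodule.span_induction with
  | mem x hx =>
    obtain ⟨δ, _, rfl⟩ := hx
    exact hw.UU δ
  | zero => exact ⟨fun p q => by simp, fun p => by simp⟩
  | add x y _ _ hx hy =>
    refine ⟨fun p q => ?_, fun p => ?_⟩
    · simp only [PiLp.add_apply]; rw [hx.anti, hy.anti]; ring
    · simp only [PiLp.add_apply]; rw [Finset.sum_add_distrib, hx.row, hy.row, add_zero]
  | smul c x _ hx =>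
    refine ⟨fun p q => ?_, fun p => ?_⟩
    · simp only [PiLp.smul_apply, smul_eq_mul]; rw [hx.anti]; ring
    · simp only [PiLp.smul_apply, smul_eq_mul]; rw [← Finset.mul_sum, hx.row, mul_zero]

theorem Sta_orth {f : HH E} (hf : IsCyc f) {v : HH E} (hv : v ∈ Sta E) : ⟪v, f⟫_ℂ = 0 := by
  unfold Sta at hv
  induction hv using Submodule.span_induction with
  | mem x hx =>
    obtain ⟨p, rfl⟩ := hx
    exact hf.inner_st p
  | zero => exact inner_zero_left _
  | add x y _ _ hx hy => rw [inner_add_left, hx, hy, add_zero]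
  | smul c x _ hx => rw [inner_smul_left, hx, mul_zero]

/-- The finite level theorem. -/
theorem finite_level (w : HH E) (hw : IsCyc w) (hw0 : w ≠ 0) (S : Finset (Option E))
    (hS : ∀ p q, w (p, q) ≠ 0 → p ∈ S ∧ q ∈ S)
    (hn : 7 * (S.card : ℝ) ^ 8 < 16 * ((Fintype.card E : ℝ) - 1))
    (r : HH E) (hr : IsCyc r) : r ∈ W1 w := by
  classical
  set W0 : Submodule ℂ (HH E) := W1 w ⊔ Sta E with hW0
  have hst : ∀ γ ∈ Mob E, ∀ v ∈ W0, UU γ v ∈ W0 := by
    intro γ hγ v hv
    obtain ⟨a, ha, b, hb, rfl⟩ := Submodule.mem_sup.mp hv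
    rw [map_add]
    exact Submodule.add_mem_sup (W1_stable w hγ ha) (Sta_stable γ hb)
  set N : HH E → HH E := fun v => v - W0.starProjection v with hN
  have hcomm : ∀ γ ∈ Mob E, ∀ v, N (UU γ v) = UU γ (N v) := by
    intro γ hγ v
    have h1 : W0.starProjection (UU γ v) = UU γ (W0.starProjection v) := by
      apply Submodule.eq_starProjection_of_mem_orthogonal
      · exact hst γ hγ _ (Submodule.starProjection_apply_mem _ _)
      · rw [← map_sub]
        intro u hu
        have h2 : UU γ⁻¹ u ∈ W0 := hst _ (inv_mem hγ) _ hu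
        have h3 : u = UU γ (UU γ⁻¹ u) := by
          rw [← UU_mul, mul_inv_cancel]
          ext ⟨p, q⟩
          exact (UU_apply 1 u p q).symm
        rw [h3, LinearIsometryEquiv.inner_map_map]
        exact (Submodule.sub_starProjection_mem_orthogonal v) _ h2
    simp only [hN]
    rw [h1, map_sub]
  set y : Option E → Option E → HH E := fun p q => N (ee p q) with hy
  have hNadd : ∀ a b, N (a + b) = N a + N b := by
    intro a b; simp only [hN, map_add]; abel
  have hNsmul : ∀ (c : ℂ) a, N (c • a) = c • N a := by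
    intro c a; simp only [hN, map_smul, smul_sub]
  set Nl : HH E →ₗ[ℂ] HH E := ⟨⟨N, hNadd⟩, hNsmul⟩ with hNl
  have hN0 : ∀ v ∈ W0, Nl v = 0 := by
    intro v hv
    change v - W0.starProjection v = 0
    rw [Submodule.starProjection_eq_self_iff.mpr hv, sub_self]
  have hFam : Fam y := by
    constructor
    · intro p q
      change Nl (ee q p) = - Nl (ee p q)
      rw [ee_anti, map_neg]
    · intro γ hγ p q r s
      change ⟪N (ee (γ p) (γ q)), N (ee (γ r) (γ s))⟫_ℂ = ⟪N (ee p q), N (ee r s)⟫_ℂ
      rw [← UU_ee, ← UU_ee, hcomm γ hγ, hcomm γ hγ, LinearIsometryEquiv.inner_map_map]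
    · intro p
      change ∑ q, Nl (ee p q) = 0
      rw [← map_sum]
      exact hN0 _ (Submodule.mem_sup_right (Submodule.subset_span ⟨p, rfl⟩))
  have hsum : ∑ p, ∑ q, w (p, q) • y p q = 0 := by
    have : ∑ p, ∑ q, w (p, q) • y p q = Nl ((2 : ℂ) • w) := by
      rw [← alt_eq_sum hw.anti]
      simp_rw [map_sum, map_smul]
      rfl
    rw [this, map_smul, hN0 w, smul_zero]
    refine Submodule.mem_sup_left (Submodule.subset_span ⟨1, one_mem _, ?_⟩)
    ext ⟨p, q⟩
    exact (UU_apply 1 w p q).symm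
  have hne : ∃ p q, w (p, q) ≠ 0 := by
    by_contra h
    push_neg at h
    apply hw0
    ext ⟨p, q⟩
    exact h p q
  have hsq := hFam.indep (fun p q => w (p, q)) hw.anti S hS hn hsum hne
  have hy0 : ∀ p q, y p q = 0 := by
    intro p q
    by_cases h : p = q
    · subst h; exact hFam.self p
    · have := hFam.norm_sq h
      rw [hsq] at this
      simpa using this
  have hee : ∀ p q, ee p q ∈ W0 := by
    intro p q
    have h1 : ee p q - W0.starProjection (ee p q) = 0 := hy0 p q
    rw [sub_eq_zero.mp h1]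
    exact Submodule.starProjection_apply_mem _ _
  have hrW : r ∈ W0 := by
    have h2 : (2 : ℂ) • r ∈ W0 := by
      rw [← alt_eq_sum hr.anti]
      exact sum_mem fun p _ => sum_mem fun q _ => Submodule.smul_mem _ _ (hee p q)
    have h3 : r = (2 : ℂ)⁻¹ • ((2 : ℂ) • r) := by
      rw [smul_smul]; norm_num
    rw [h3]
    exact Submodule.smul_mem _ _ h2
  obtain ⟨a, ha, b, hb, hab⟩ := Submodule.mem_sup.mp hrW
  have hac := W1_cyc hw ha
  have hb0 : ⟪b, b⟫_ℂ = 0 := by
    have h1 := Sta_orth hr hb
    have h2 := Sta_orth hac hb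
    rw [← hab, inner_add_right, h2, zero_add] at h1
    exact h1
  rw [inner_self_eq_zero] at hb0
  rw [← hab, hb0, add_zero]
  exact ha

end Pool.Agent.R723.AltSt
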