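import Mathlib

/-!
Every countable field of characteristic zero embeds into the complex numbers.
-/

namespace Pool.Agent.R723

open Cardinal

universe u

theorem exists_ringHom_complex (K : Type u) [Field K] [CharZero K] [Countable K] :
    Nonempty (K →+* ℂ) := by
  let P := MvPolynomial ℂ K
  let R := FractionRing P
  let A := AlgebraicClosure R
  have hP : #P = lift.{u} #ℂ := by
    have h1 : #P = lift.{0} #K ⊔ lift.{u} #ℂ ⊔ ℵ₀ := MvPolynomial.cardinalMk_eq_max_lift
    rw [h1]
    have hK : lift.{0} #K ≤ ℵ₀ := by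
      rw [lift_uzero]; exact mk_le_aleph0
    have hC : ℵ₀ ≤ lift.{u} #ℂ := by
      rw [aleph0_le_lift]; exact aleph0_le_mk ℂ
    rw [max_eq_right (hK.trans hC), max_eq_left hC]
  have hR : #R = #P := FractionRing.cardinalMk P
  have hinfP : ℵ₀ ≤ #P := by
    rw [hP, aleph0_le_lift]; exact aleph0_le_mk ℂ
  have hA : #A = #R := by
    apply le_antisymm
    · have := Algebra.IsAlgebraic.cardinalMk_le_max R A
      rwa [max_eq_left (by rw [hR]; exact hinfP)] at this
    · exact mk_le_of_injective (algebraMap R A).injective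
  have hAC : Nonempty (A ≃ ℂ) := by
    rw [← Cardinal.lift_mk_eq']
    rw [hA, hR, hP, lift_uzero]
  have hA0 : ℵ₀ < #A := by
    rw [hA, hR, hP, aleph0_lt_lift, mk_complex]
    exact aleph0_lt_continuum
  have : CharZero R := charZero_of_injective_algebraMap (algebraMap K R).injective
  have : CharZero A := charZero_of_injective_algebraMap (algebraMap R A).injective
  obtain ⟨e⟩ := IsAlgClosed.ringEquiv_of_equiv_of_charZero hA0 hAC
  exact ⟨e.toRingHom.comp (algebraMap K A)⟩

end Pool.Agent.R723
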