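import Pool.Agent.R723.AltStDefs
import Pool.Agent.R723.AltStFinite
import Pool.Agent.R723.EmbedC

/-!
# The antisymmetric part of St ⊗ St for SL_2 over the algebraic closure of a finite field: proofs
-/

namespace Pool.Agent.R723.AltSteinberg

open TensorProduct

universe u v

/-! ### The projective line -/

section Points

variable {F : Type u} [Field F]

/-- The points of `G/B` indexed by the projective line. -/
def pt : Option F → G F ⧸ borel F
  | none => QuotientGroup.mk 1
  | some x => QuotientGroup.mk (eps x * s F)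

theorem mk_eq_iff (a b : G F) :
    (QuotientGroup.mk a : G F ⧸ borel F) = QuotientGroup.mk b ↔ (a⁻¹ * b) 1 0 = 0 := by
  rw [QuotientGroup.eq]
  rfl

theorem mk_eq_iff' (a b : G F) :
    (QuotientGroup.mk a : G F ⧸ borel F) = QuotientGroup.mk b ↔
      a 0 0 * b 1 0 = a 1 0 * b 0 0 := by
  rw [mk_eq_iff]
  rw [Matrix.SpecialLinearGroup.coe_mul, Matrix.SpecialLinearGroup.coe_inv,
    Matrix.adjugate_fin_two, Matrix.mul_apply, Fin.sum_univ_two]
  simp only [Matrix.of_apply, Matrix.cons_val', Matrix.cons_val_zero, Matrix.cons_val_one,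
    Matrix.cons_val_fin_one]
  constructor
  · intro h; linear_combination h
  · intro h; linear_combination h

theorem pt_some (x : F) : (pt (some x)) = QuotientGroup.mk (eps x * s F) := rfl

theorem epss (x : F) : ((eps x * s F : G F) : Matrix (Fin 2) (Fin 2) F) = !![-x, 1; -1, 0] := by
  rw [Matrix.SpecialLinearGroup.coe_mul]
  simp [eps, s]

theorem pt_injective : Function.Injective (pt : Option F → G F ⧸ borel F) := by
  intro a b h
  rcases a with _ | x <;> rcases b with _ | y
  · rfl
  · exfalso
    have := (mk_eq_iff' _ _).mp h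
    rw [epss] at this
    simp at this
  · exfalso
    have := (mk_eq_iff' _ _).mp h
    rw [epss] at this
    simp at this
  · have := (mk_eq_iff' _ _).mp h
    rw [epss, epss] at this
    simp at this
    rw [this]

theorem pt_surjective : Function.Surjective (pt : Option F → G F ⧸ borel F) := by
  intro a
  obtain ⟨g, rfl⟩ := QuotientGroup.mk_surjective a
  by_cases h : g 1 0 = 0
  · refine ⟨none, ?_⟩
    change (QuotientGroup.mk 1 : G F ⧸ borel F) = _
    rw [mk_eq_iff']
    simp [h]
  · refine ⟨some (g 0 0 / g 1 0), ?_⟩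
    rw [pt_some, mk_eq_iff', epss]
    simp
    field_simp

theorem smul_mk (g h : G F) : g • (QuotientGroup.mk h : G F ⧸ borel F) = QuotientGroup.mk (g * h) :=
  rfl

theorem eps_smul_none (u : F) : eps u • (pt none : G F ⧸ borel F) = pt none := by
  change eps u • (QuotientGroup.mk 1 : G F ⧸ borel F) = QuotientGroup.mk 1
  rw [smul_mk, mul_one, mk_eq_iff']
  simp [eps]

theorem eps_smul_some (u x : F) : eps u • (pt (some x) : G F ⧸ borel F) = pt (some (x + u)) := by
  rw [pt_some, pt_some, smul_mk, mk_eq_iff', Matrix.SpecialLinearGroup.coe_mul, epss, epss]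
  simp [eps]
  ring

/-- diagonal matrices -/
def hh (t : Fˣ) : G F := ⟨!![(t : F), 0; 0, ((t⁻¹ : Fˣ) : F)], by simp⟩

theorem hh_smul_none (t : Fˣ) : hh t • (pt none : G F ⧸ borel F) = pt none := by
  change hh t • (QuotientGroup.mk 1 : G F ⧸ borel F) = QuotientGroup.mk 1
  rw [smul_mk, mul_one, mk_eq_iff']
  simp [hh]

theorem hh_smul_some (t : Fˣ) (x : F) :
    hh t • (pt (some x) : G F ⧸ borel F) = pt (some ((t : F) ^ 2 * x)) := by
  rw [pt_some, pt_some, smul_mk, mk_eq_iff', Matrix.SpecialLinearGroup.coe_mul, epss, epss]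
  simp [hh]
  field_simp

theorem s_smul_none : s F • (pt none : G F ⧸ borel F) = pt (some 0) := by
  change s F • (QuotientGroup.mk 1 : G F ⧸ borel F) = QuotientGroup.mk _
  rw [smul_mk, mul_one, mk_eq_iff', epss]
  simp [s]

theorem s_smul_zero : s F • (pt (some 0) : G F ⧸ borel F) = pt none := by
  change s F • (QuotientGroup.mk _ : G F ⧸ borel F) = QuotientGroup.mk 1
  rw [smul_mk, mk_eq_iff', Matrix.SpecialLinearGroup.coe_mul, epss]
  simp [s]

theorem s_smul_some {x : F} (hx : x ≠ 0) :
    s F • (pt (some x) : G F ⧸ borel F) = pt (some (-x⁻¹)) := by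
  rw [pt_some, pt_some, smul_mk, mk_eq_iff', Matrix.SpecialLinearGroup.coe_mul, epss, epss]
  simp [s, hx]

end Points


/-! ### The space of functions on pairs of points -/

section Pairs

theorem permRep_single (k : Type*) {G X : Type*} [Field k] [Group G] [MulAction G X] (g : G) (x : X)
    (c : k) : permRep k G X g (Finsupp.single x c) = Finsupp.single (g • x) c := by
  simp [permRep]

/-- The cycles. -/
noncomputable def Cyc (k X : Type*) [Field k] : Submodule k (X × X →₀ k) :=
  LinearMap.ker (Finsupp.lmapDomain k k (Prod.swap : X × X → X × X) + LinearMap.id) ⊓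
    LinearMap.ker (Finsupp.lmapDomain k k (Prod.fst : X × X → X))

theorem mem_Cyc {k X : Type*} [Field k] (f : X × X →₀ k) :
    f ∈ Cyc k X ↔ Finsupp.mapDomain Prod.swap f = - f ∧ Finsupp.mapDomain Prod.fst f = 0 := by
  unfold Cyc
  rw [Submodule.mem_inf, LinearMap.mem_ker, LinearMap.mem_ker, LinearMap.add_apply,
    Finsupp.lmapDomain_apply, Finsupp.lmapDomain_apply, LinearMap.id_apply, add_eq_zero_iff_eq_neg]


/-- Transfer from a finite field to `F`. -/
theorem span_complex (p : ℕ) [Fact p.Prime] (F : Type u) [Field F] [Algebra (ZMod p) F]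
    [IsAlgClosure (ZMod p) F] (w r : (G F ⧸ borel F) × (G F ⧸ borel F) →₀ ℂ)
    (hw : w ∈ Cyc ℂ (G F ⧸ borel F)) (hr : r ∈ Cyc ℂ (G F ⧸ borel F)) (hw0 : w ≠ 0) :
    r ∈ Submodule.span ℂ (Set.range fun g : G F =>
      permRep ℂ (G F) ((G F ⧸ borel F) × (G F ⧸ borel F)) g w) := by
  classical
  have : IsAlgClosed F := IsAlgClosure.isAlgClosed (ZMod p)
  have halg : Algebra.IsAlgebraic (ZMod p) F := IsAlgClosure.isAlgebraic
  have hinf : Infinite F := IsAlgClosed.instInfinite
  let X := G F ⧸ borel F
  let ptE : Option F ≃ X := Equiv.ofBijective pt ⟨pt_injective, pt_surjective⟩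
  -- the relevant points
  let P : Finset X := (w.support.image Prod.fst ∪ w.support.image Prod.snd) ∪
    (r.support.image Prod.fst ∪ r.support.image Prod.snd)
  obtain ⟨T', -, hT'card⟩ := Set.Infinite.exists_subset_card_eq (s := (Set.univ : Set F))
    Set.infinite_univ (7 * P.card ^ 8 + 2)
  let T : Finset F := (P.image ptE.symm).eraseNone ∪ T'
  let E := IntermediateField.adjoin (ZMod p) (T : Set F)
  have hfin : FiniteDimensional (ZMod p) E := by
    have : Finite (T : Set F) := T.finite_toSet
    exact IntermediateField.finiteDimensional_adjoin fun x _ =>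
      (Algebra.IsAlgebraic.isAlgebraic x).isIntegral
  have hfinE : Finite E := Module.finite_of_finite (ZMod p)
  let _ : Fintype E := Fintype.ofFinite E
  have hTE : ∀ x ∈ T, x ∈ E := fun x hx => IntermediateField.subset_adjoin _ _ hx
  have hcardE : 7 * P.card ^ 8 + 2 ≤ Fintype.card E := by
    rw [← hT'card, ← Fintype.card_coe]
    refine Fintype.card_le_of_injective (fun x : T' => (⟨x.1, hTE _ (Finset.mem_union_right _ x.2)⟩ : E)) ?_
    intro a b h
    exact Subtype.ext (congrArg (fun z : E => (z : F)) h)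
  let ι : Option E → X := fun a => pt (a.map (fun x : E => (x : F)))
  have hι : Function.Injective ι := by
    intro a b h
    exact Option.map_injective Subtype.val_injective (pt_injective h)
  have hιP : ∀ x ∈ P, ∃ a, ι a = x := by
    intro x hx
    obtain ⟨a, rfl⟩ := pt_surjective x
    rcases a with _ | b
    · exact ⟨none, rfl⟩
    · have hb : b ∈ T := by
        refine Finset.mem_union_left _ ?_
        rw [Finset.mem_eraseNone, Finset.mem_image]
        exact ⟨pt (some b), hx, ptE.symm_apply_apply (some b)⟩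
      exact ⟨some ⟨b, hTE b hb⟩, rfl⟩
  -- realisation of Moebius transformations
  have hreal : ∀ γ ∈ Pool.Agent.R723.AltSt.Mob E, ∃ g : G F, ∀ a, g • ι a = ι (γ a) := by
    intro γ hγ
    unfold Pool.Agent.R723.AltSt.Mob at hγ
    induction hγ using Subgroup.closure_induction with
    | mem γ hγ =>
      rcases hγ with (⟨u, rfl⟩ | ⟨c, rfl⟩) | hγ
      · refine ⟨eps (u : F), ?_⟩
        rintro (_ | x)
        · exact eps_smul_none _
        · exact eps_smul_some _ _
      · obtain ⟨t, ht⟩ := IsAlgClosed.exists_pow_nat_eq ((c : E) : F) (n := 2) (by norm_num)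
        have ht0 : t ≠ 0 := by
          rintro rfl
          rw [zero_pow (by norm_num)] at ht
          exact c.ne_zero (Subtype.ext ht.symm)
        refine ⟨hh (Units.mk0 t ht0), ?_⟩
        rintro (_ | x)
        · exact hh_smul_none _
        · change hh (Units.mk0 t ht0) • pt (some ((x : E) : F)) = _
          rw [hh_smul_some, Units.val_mk0, ht]
          rfl
      · rw [Set.mem_singleton_iff] at hγ
        subst hγ
        refine ⟨s F, ?_⟩
        rintro (_ | x)
        · exact s_smul_none
        · by_cases hx : x = 0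
          · subst hx
            rw [Pool.Agent.R723.AltSt.inv_zero]
            exact s_smul_zero
          · rw [Pool.Agent.R723.AltSt.inv_some hx]
            have hx' : (x : F) ≠ 0 := fun h => hx (Subtype.ext h)
            exact s_smul_some hx'
    | one => exact ⟨1, fun a => one_smul _ _⟩
    | mul γ δ _ _ h1 h2 =>
      obtain ⟨g, hg⟩ := h1
      obtain ⟨h, hh⟩ := h2
      refine ⟨g * h, fun a => ?_⟩
      rw [mul_smul, hh, hg]
      rfl
    | inv γ _ h1 =>
      obtain ⟨g, hg⟩ := h1
      refine ⟨g⁻¹, fun a => ?_⟩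
      rw [inv_smul_eq_iff, hg]
      congr 1
      exact (Equiv.apply_symm_apply γ a).symm
  -- functions on the finite projective line
  let J : Pool.Agent.R723.AltSt.HH E →ₗ[ℂ] (X × X →₀ ℂ) :=
    { toFun := fun f => ∑ z, Finsupp.single (ι z.1, ι z.2) (f z)
      map_add' := fun f g => by
        simp only [PiLp.add_apply, Finsupp.single_add, Finset.sum_add_distrib]
      map_smul' := fun c f => by
        simp only [PiLp.smul_apply, Finset.smul_sum, Finsupp.smul_single, RingHom.id_apply] }
  let res : (X × X →₀ ℂ) → Pool.Agent.R723.AltSt.HH E := fun v =>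
    WithLp.toLp 2 (fun z => v (ι z.1, ι z.2))
  have hJ : ∀ v : X × X →₀ ℂ, (∀ z ∈ v.support, z.1 ∈ P ∧ z.2 ∈ P) → J (res v) = v := by
    intro v hv
    ext z
    change (∑ y : Option E × Option E, Finsupp.single (ι y.1, ι y.2) (v (ι y.1, ι y.2))) z = v z
    rw [Finsupp.finsetSum_apply]
    by_cases hz : ∃ a b, z = (ι a, ι b)
    · obtain ⟨a, b, rfl⟩ := hz
      rw [Finset.sum_eq_single (a, b)]
      · rw [Finsupp.single_eq_same]
      · rintro ⟨c, d⟩ _ hcd
        apply Finsupp.single_eq_of_ne
        intro h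
        apply hcd
        have h1 := (Prod.ext_iff.mp h).1
        have h2 := (Prod.ext_iff.mp h).2
        rw [hι h1, hι h2]
      · intro h; exact absurd (Finset.mem_univ _) h
    · have hvz : v z = 0 := by
        by_contra h0
        obtain ⟨h1, h2⟩ := hv z (Finsupp.mem_support_iff.mpr h0)
        obtain ⟨a, ha⟩ := hιP _ h1
        obtain ⟨b, hb⟩ := hιP _ h2
        exact hz ⟨a, b, Prod.ext ha.symm hb.symm⟩
      rw [hvz]
      apply Finset.sum_eq_zero
      rintro ⟨a, b⟩ _
      apply Finsupp.single_eq_of_ne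
      intro h
      exact hz ⟨a, b, h⟩
  have hres : ∀ v : X × X →₀ ℂ, (∀ z ∈ v.support, z.1 ∈ P ∧ z.2 ∈ P) → v ∈ Cyc ℂ X →
      Pool.Agent.R723.AltSt.IsCyc (res v) := by
    intro v hv hc
    rw [mem_Cyc] at hc
    constructor
    · intro a b
      change v (ι b, ι a) = - v (ι a, ι b)
      have h1 := congrArg (fun f : X × X →₀ ℂ => f (ι a, ι b)) hc.1
      simp only [Finsupp.coe_neg, Pi.neg_apply] at h1
      rw [← h1]
      exact (Finsupp.mapDomain_apply Prod.swap_injective v (ι b, ι a)).symm
    · intro a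
      have h2 := hc.2
      rw [← hJ v hv] at h2
      change Finsupp.mapDomain Prod.fst
        (∑ z : Option E × Option E, Finsupp.single (ι z.1, ι z.2) ((res v) z)) = 0 at h2
      rw [Finsupp.mapDomain_finsetSum] at h2
      simp only [Finsupp.mapDomain_single] at h2
      have h3 := congrArg (fun f : X →₀ ℂ => f (ι a)) h2
      simp only [Finsupp.finsetSum_apply, Finsupp.coe_zero, Pi.zero_apply,
        Finsupp.single_apply] at h3
      rw [Fintype.sum_prod_type] at h3
      simp only [hι.eq_iff] at h3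
      rw [Finset.sum_eq_single a] at h3
      · simpa using h3
      · intro b _ hb
        simp [hb]
      · intro h; exact absurd (Finset.mem_univ _) h
  have hwP : ∀ z ∈ w.support, z.1 ∈ P ∧ z.2 ∈ P := by
    intro z hz
    exact ⟨Finset.mem_union_left _ (Finset.mem_union_left _ (Finset.mem_image_of_mem _ hz)),
      Finset.mem_union_left _ (Finset.mem_union_right _ (Finset.mem_image_of_mem _ hz))⟩
  have hrP : ∀ z ∈ r.support, z.1 ∈ P ∧ z.2 ∈ P := by
    intro z hz
    exact ⟨Finset.mem_union_right _ (Finset.mem_union_left _ (Finset.mem_image_of_mem _ hz)),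
      Finset.mem_union_right _ (Finset.mem_union_right _ (Finset.mem_image_of_mem _ hz))⟩
  let S : Finset (Option E) := Finset.univ.filter fun a => ι a ∈ P
  have hScard : S.card ≤ P.card := by
    refine Finset.card_le_card_of_injOn ι (fun a ha => ?_) (hι.injOn)
    exact (Finset.mem_filter.mp ha).2
  have hfl := Pool.Agent.R723.AltSt.finite_level (res w) (hres w hwP hw)
    (by
      intro h0
      apply hw0
      rw [← hJ w hwP, h0, map_zero])
    S
    (by
      intro a b hab
      have h1 : w (ι a, ι b) ≠ 0 := hab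
      obtain ⟨h2, h3⟩ := hwP _ (Finsupp.mem_support_iff.mpr h1)
      exact ⟨Finset.mem_filter.mpr ⟨Finset.mem_univ _, h2⟩,
        Finset.mem_filter.mpr ⟨Finset.mem_univ _, h3⟩⟩)
    (by
      have h1 : ((7 * P.card ^ 8 + 2 : ℕ) : ℝ) ≤ (Fintype.card E : ℝ) := by exact_mod_cast hcardE
      have h2 : (S.card : ℝ) ^ 8 ≤ (P.card : ℝ) ^ 8 := by
        have : (S.card : ℝ) ≤ (P.card : ℝ) := by exact_mod_cast hScard
        gcongr
      push_cast at h1
      have h3 : (0 : ℝ) ≤ (P.card : ℝ) ^ 8 := by positivity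
      linarith)
    (res r) (hres r hrP hr)
  have hmain : ∀ v ∈ Pool.Agent.R723.AltSt.W1 (res w), J v ∈ Submodule.span ℂ
      (Set.range fun g : G F => permRep ℂ (G F) (X × X) g w) := by
    intro v hv
    unfold Pool.Agent.R723.AltSt.W1 at hv
    induction hv using Submodule.span_induction with
    | mem v hv =>
      obtain ⟨γ, hγ, rfl⟩ := hv
      obtain ⟨g, hg⟩ := hreal γ hγ
      refine Submodule.subset_span ⟨g, ?_⟩
      have h1 : w = J (res w) := (hJ w hwP).symm
      change permRep ℂ (G F) (X × X) g w = _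
      rw [h1]
      change permRep ℂ (G F) (X × X) g
        (∑ z : Option E × Option E, Finsupp.single (ι z.1, ι z.2) ((res w) z)) =
        ∑ z : Option E × Option E, Finsupp.single (ι z.1, ι z.2)
          ((Pool.Agent.R723.AltSt.UU γ (res (J (res w)))) z)
      rw [← h1, map_sum]
      simp only [permRep_single]
      refine Eq.trans ?_ (Equiv.sum_comp (Equiv.prodCongr γ γ)
        (fun z => Finsupp.single (ι z.1, ι z.2) ((Pool.Agent.R723.AltSt.UU γ (res w)) z)))
      refine Finset.sum_congr rfl fun z _ => ?_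
      have h2 : (Pool.Agent.R723.AltSt.UU γ (res w)) (Equiv.prodCongr γ γ z) = (res w) z :=
        Pool.Agent.R723.AltSt.UU_apply γ (res w) z.1 z.2
      rw [h2]
      congr 1
      exact Prod.ext (hg z.1) (hg z.2)
    | zero => rw [map_zero]; exact zero_mem _
    | add x y _ _ hx hy => rw [map_add]; exact add_mem hx hy
    | smul c x _ hx => rw [map_smul]; exact Submodule.smul_mem _ _ hx
  have := hmain _ hfl
  rwa [hJ r hrP] at this

/-- extension of coefficients -/
noncomputable def mapc {K L : Type*} [Field K] [Field L] (σ : K →+* L) (X : Type*) (v : X →₀ K) :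
    X →₀ L := Finsupp.mapRange σ (map_zero σ) v

theorem mapc_inj {K L : Type*} [Field K] [Field L] (σ : K →+* L) (X : Type*) :
    Function.Injective (mapc σ X) := by
  intro a b h
  ext x
  have := congrArg (fun f : X →₀ L => f x) h
  simp only [mapc, Finsupp.mapRange_apply] at this
  exact σ.injective this

theorem mapc_Cyc {K L : Type*} [Field K] [Field L] (σ : K →+* L) (X : Type*)
    (v : X × X →₀ K) : mapc σ (X × X) v ∈ Cyc L X ↔ v ∈ Cyc K X := by
  rw [mem_Cyc, mem_Cyc]
  unfold mapc
  rw [Finsupp.mapDomain_mapRange _ _ _ _ (map_add σ), Finsupp.mapDomain_mapRange _ _ _ _ (map_add σ)]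
  have h1 : - Finsupp.mapRange σ (map_zero σ) v = Finsupp.mapRange σ (map_zero σ) (-v) := by
    ext x; simp
  have h2 : (0 : X →₀ L) = Finsupp.mapRange σ (map_zero σ) (0 : X →₀ K) := by
    simp
  rw [h1, h2]
  constructor
  · rintro ⟨a, b⟩
    exact ⟨mapc_inj σ _ a, mapc_inj σ _ b⟩
  · rintro ⟨a, b⟩
    rw [a, b]
    exact ⟨rfl, rfl⟩

theorem permRep_apply {k G X : Type*} [Field k] [Group G] [MulAction G X] (g : G) (v : X →₀ k)
    (x : X) : permRep k G X g v x = v (g⁻¹ • x) := by
  change Finsupp.mapDomain (g • ·) v x = _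
  have h := Finsupp.mapDomain_apply (f := fun y : X => g • y) (MulAction.injective g) v (g⁻¹ • x)
  simp only [smul_inv_smul] at h
  exact h

theorem span_field (p : ℕ) [Fact p.Prime] (F : Type u) [Field F] [Algebra (ZMod p) F]
    [IsAlgClosure (ZMod p) F] (k : Type v) [Field k] [CharZero k]
    (w r : (G F ⧸ borel F) × (G F ⧸ borel F) →₀ k)
    (hw : w ∈ Cyc k (G F ⧸ borel F)) (hr : r ∈ Cyc k (G F ⧸ borel F)) (hw0 : w ≠ 0) :
    r ∈ Submodule.span k (Set.range fun g : G F =>
      permRep k (G F) ((G F ⧸ borel F) × (G F ⧸ borel F)) g w) := by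
  classical
  let X := G F ⧸ borel F
  let s : Set k := ↑(w.support.image w) ∪ ↑(r.support.image r)
  have hsfin : s.Finite := (Finset.finite_toSet _).union (Finset.finite_toSet _)
  let k0 : Subfield k := Subfield.closure s
  have hcount : Countable k0 := by
    rw [← Cardinal.mk_le_aleph0_iff]
    refine (Subfield.cardinalMk_closure_le_max s).trans ?_
    rw [max_le_iff]
    exact ⟨(Cardinal.lt_aleph0_iff_set_finite.mpr hsfin).le, le_rfl⟩
  have : CharZero k0 := (algebraMap k0 k).charZero
  have hmem : ∀ v : X × X →₀ k, (↑(v.support.image v) : Set k) ⊆ s → ∀ z, v z ∈ k0 := by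
    intro v hv z
    by_cases h : v z = 0
    · rw [h]; exact zero_mem _
    · exact Subfield.subset_closure (hv (by
        simp only [Finset.coe_image, Set.mem_image]
        exact ⟨z, Finset.mem_coe.mpr (Finsupp.mem_support_iff.mpr h), rfl⟩))
  have hdesc : ∀ v : X × X →₀ k, (∀ z, v z ∈ k0) →
      ∃ v0 : X × X →₀ k0, mapc (algebraMap k0 k) (X × X) v0 = v := by
    intro v hv
    refine ⟨Finsupp.onFinset v.support (fun z => ⟨v z, hv z⟩) ?_, ?_⟩
    · intro z hz
      rw [Finsupp.mem_support_iff]
      intro h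
      exact hz (Subtype.ext h)
    · ext z
      simp only [mapc, Finsupp.mapRange_apply, Finsupp.onFinset_apply]
      rfl
  obtain ⟨w0, hw0'⟩ := hdesc w (hmem w Set.subset_union_left)
  obtain ⟨r0, hr0'⟩ := hdesc r (hmem r Set.subset_union_right)
  obtain ⟨σ⟩ := Pool.Agent.R723.exists_ringHom_complex k0
  have hwC : mapc σ (X × X) w0 ∈ Cyc ℂ X := by
    rw [mapc_Cyc, ← mapc_Cyc (algebraMap k0 k), hw0']
    exact hw
  have hrC : mapc σ (X × X) r0 ∈ Cyc ℂ X := by
    rw [mapc_Cyc, ← mapc_Cyc (algebraMap k0 k), hr0']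
    exact hr
  have hwC0 : mapc σ (X × X) w0 ≠ 0 := by
    intro h
    apply hw0
    have h1 : w0 = 0 := mapc_inj σ _ (by rw [h]; simp [mapc])
    rw [← hw0', h1]
    simp [mapc]
  have hspan := span_complex p F _ _ hwC hrC hwC0
  rw [Finsupp.mem_span_range_iff_exists_finsupp] at hspan
  obtain ⟨c, hc⟩ := hspan
  let _ : Algebra k0 ℂ := σ.toAlgebra
  obtain ⟨π, hπ⟩ := LinearMap.exists_leftInverse_of_injective (Algebra.linearMap k0 ℂ)
    (LinearMap.ker_eq_bot.mpr (algebraMap k0 ℂ).injective)
  have hπσ : ∀ a : k0, π (σ a) = a := fun a => LinearMap.congr_fun hπ a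
  have hr0sum : ∀ z, r0 z = c.sum fun g a => π a * w0 (g⁻¹ • z) := by
    intro z
    have h1 := congrArg (fun f : X × X →₀ ℂ => f z) hc
    simp only [Finsupp.sum, Finsupp.finsetSum_apply, Finsupp.smul_apply, smul_eq_mul] at h1
    have h2 := congrArg π h1
    rw [map_sum] at h2
    have h3 : π ((mapc σ (X × X) r0) z) = r0 z := hπσ _
    rw [h3] at h2
    rw [← h2, Finsupp.sum]
    refine Finset.sum_congr rfl fun g _ => ?_
    have h4 : c g * (mapc σ (X × X) w0) (g⁻¹ • z) = (w0 (g⁻¹ • z)) • c g := by
      rw [Algebra.smul_def]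
      change c g * σ _ = σ _ * c g
      ring
    have h6 : (permRep ℂ (G F) ((G F ⧸ borel F) × G F ⧸ borel F) g (mapc σ (X × X) w0)) z =
        mapc σ (X × X) w0 (g⁻¹ • z) := permRep_apply g _ z
    refine (congrArg π ((congrArg (fun x => c g * x) h6).trans h4)).trans ?_
    rw [map_smul, smul_eq_mul, mul_comm]
  rw [Finsupp.mem_span_range_iff_exists_finsupp]
  refine ⟨Finsupp.mapRange (fun a : ℂ => ((π a : k0) : k)) (by simp) c, ?_⟩
  rw [Finsupp.sum_mapRange_index (fun g => by simp)]
  ext z
  rw [Finsupp.sum_apply]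
  have h5 : r z = ((r0 z : k0) : k) := by
    rw [← hr0']; rfl
  rw [h5, hr0sum z]
  simp only [Finsupp.sum]
  rw [AddSubmonoidClass.coe_finsetSum]
  refine Finset.sum_congr rfl fun g _ => ?_
  rw [Finsupp.smul_apply, smul_eq_mul]
  have h6 : (permRep k (G F) ((G F ⧸ borel F) × G F ⧸ borel F) g w) z =
      w (g⁻¹ • z) := permRep_apply g _ z
  refine (congrArg (fun x => ((π (c g) : k0) : k) * x) h6).trans ?_
  rw [← hw0']
  rfl

end Pairs


section Final

variable {F : Type u} [Field F] {k : Type v} [Field k]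

/-- The basis vector of `M(tr)` at a point. -/
noncomputable def bv (k : Type v) [Field k] (a : G F ⧸ borel F) : M F k :=
  (Finsupp.single a 1 : (G F ⧸ borel F) →₀ k)

/-- An element of `M(tr)` viewed as a finitely supported function. -/
def toF (v : M F k) : (G F ⧸ borel F) →₀ k := v

theorem MRep_bv (g : G F) (a : G F ⧸ borel F) : MRep F k g (bv k a) = bv k (g • a) :=
  permRep_single k g a 1

theorem eta_eq : eta F k = bv k (pt none) - bv k (pt (some 0)) := by
  unfold eta oneTr
  change bv k (pt none) - MRep F k (s F) (bv k (pt none)) = _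
  rw [MRep_bv, s_smul_none]

/-- The inclusion of `St` in `M(tr)`. -/
noncomputable def incl (F : Type u) [Field F] (k : Type v) [Field k] : St F k →ₗ[k] M F k :=
  (StSub F k).toSubmodule.subtype

theorem incl_injective : Function.Injective (incl F k) := Submodule.injective_subtype _

theorem incl_StRep (g : G F) (u : St F k) : incl F k (StRep F k g u) = MRep F k g (incl F k u) :=
  rfl

theorem incl_e (x : F) : incl F k (e k x) = bv k (pt none) - bv k (pt (some x)) := by
  change MRep F k (eps x) (eta F k) = _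
  rw [eta_eq, map_sub, MRep_bv, MRep_bv, eps_smul_none, eps_smul_some, zero_add]

theorem mem_St (a : G F ⧸ borel F) : bv k (pt none) - bv k a ∈ (StSub F k).toSubmodule := by
  obtain ⟨b, rfl⟩ := pt_surjective a
  rcases b with _ | x
  · rw [sub_self]; exact zero_mem _
  · rw [← incl_e]
    exact (show (StSub F k).toSubmodule from e k x).2

/-- the elements `[∞] - [a]` of `St` -/
noncomputable def Ep (k : Type v) [Field k] (a : G F ⧸ borel F) : St F k :=
  (⟨bv k (pt none) - bv k a, mem_St a⟩ : (StSub F k).toSubmodule)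

theorem incl_Ep (a : G F ⧸ borel F) : incl F k (Ep k a) = bv k (pt none) - bv k a := rfl

theorem Ep_none : Ep k (pt none : G F ⧸ borel F) = 0 :=
  incl_injective (by rw [incl_Ep, sub_self, map_zero])

theorem e_eq (x : F) : e k x = Ep k (pt (some x)) :=
  incl_injective (by rw [incl_Ep, incl_e])

theorem St_Ep (g : G F) (a : G F ⧸ borel F) :
    StRep F k g (Ep k a) = Ep k (g • a) - Ep k (g • pt none) := by
  apply incl_injective
  rw [incl_StRep, incl_Ep, map_sub, map_sub, MRep_bv, MRep_bv, incl_Ep, incl_Ep]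
  abel

theorem tens_sub (u v w : St F k) : tens u (v - w) = tens u v - tens u w := tmul_sub _ _ _

theorem sub_tens (u v w : St F k) : tens (u - v) w = tens u w - tens v w := sub_tmul _ _ _

theorem zero_tens (u : St F k) : tens 0 u = 0 := zero_tmul _ _

theorem tens_zero (u : St F k) : tens u 0 = 0 := tmul_zero _ _

/-- half the commutator -/
noncomputable def Rb (u v : St F k) : StSt F k :=
  (2 : k)⁻¹ • (tens u v - tens v u)

theorem rho_eq (x y : F) : rho k x y = Rb (Ep k (pt (some x))) (Ep k (pt (some y))) := by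
  unfold rho Rb
  rw [e_eq, e_eq]

theorem Rb_self (u : St F k) : Rb u u = 0 := by
  unfold Rb; rw [sub_self, smul_zero]

theorem Rb_zero_left (u : St F k) : Rb 0 u = 0 := by
  unfold Rb; rw [zero_tens, tens_zero, sub_self, smul_zero]

theorem Rb_zero_right (u : St F k) : Rb u 0 = 0 := by
  unfold Rb; rw [zero_tens, tens_zero, sub_self, smul_zero]

theorem Rb_sub (u v w z : St F k) :
    Rb (u - v) (w - z) = Rb u w - Rb u z - Rb v w + Rb v z := by
  unfold Rb
  simp only [sub_tens, tens_sub, smul_sub]
  abel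

theorem StSt_Rb (g : G F) (u v : St F k) :
    StStRep F k g (Rb u v) = Rb (StRep F k g u) (StRep F k g v) := by
  unfold Rb
  rw [map_smul, map_sub]
  rfl

theorem Rb_mem (a b : G F ⧸ borel F) : Rb (Ep k a) (Ep k b) ∈ VminusSpan F k := by
  obtain ⟨a, rfl⟩ := pt_surjective a
  obtain ⟨b, rfl⟩ := pt_surjective b
  rcases a with _ | x
  · rw [Ep_none, Rb_zero_left]; exact zero_mem _
  · rcases b with _ | y
    · rw [Ep_none, Rb_zero_right]; exact zero_mem _
    · by_cases h : x = y
      · subst h; rw [Rb_self]; exact zero_mem _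
      · exact Submodule.subset_span ⟨x, y, h, (rho_eq x y).symm⟩

theorem VminusSpan_stable (g : G F) ⦃v : StSt F k⦄
    (hv : v ∈ VminusSpan F k) : StStRep F k g v ∈ VminusSpan F k := by
  induction hv using Submodule.span_induction with
  | mem x hx =>
    obtain ⟨a, b, _, rfl⟩ := hx
    rw [rho_eq, StSt_Rb, St_Ep, St_Ep, Rb_sub]
    exact add_mem (sub_mem (sub_mem (Rb_mem _ _) (Rb_mem _ _)) (Rb_mem _ _)) (Rb_mem _ _)
  | zero => rw [map_zero]; exact zero_mem _
  | add x y _ _ hx hy => rw [map_add]; exact add_mem hx hy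
  | smul c x _ hx => rw [map_smul]; exact Submodule.smul_mem _ _ hx

/-- Comparison with functions on pairs of points. -/
noncomputable def Phi (F : Type u) [Field F] (k : Type v) [Field k] :
    StSt F k →ₗ[k] ((G F ⧸ borel F) × (G F ⧸ borel F) →₀ k) :=
  (finsuppTensorFinsupp' k (G F ⧸ borel F) (G F ⧸ borel F)).toLinearMap ∘ₗ
    TensorProduct.map (incl F k) (incl F k)

theorem Phi_injective : Function.Injective (Phi F k) := by
  have h := TensorProduct.map_injective_of_flat_flat (R := k)
    (incl F k) (incl F k) incl_injective incl_injective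
  exact (LinearEquiv.injective
    (finsuppTensorFinsupp' k (G F ⧸ borel F) (G F ⧸ borel F))).comp h

theorem Phi_tens (u v : St F k) :
    Phi F k (tens u v) = finsuppTensorFinsupp' k (G F ⧸ borel F) (G F ⧸ borel F)
      (toF (incl F k u) ⊗ₜ toF (incl F k v)) := rfl

theorem Phi_tmul (u v : St F k) (a b : G F ⧸ borel F) :
    Phi F k (tens u v) (a, b) = toF (incl F k u) a * toF (incl F k v) b :=
  finsuppTensorFinsupp'_apply_apply k _ _ (toF (incl F k u)) (toF (incl F k v)) a b

theorem toF_MRep (g : G F) (v : M F k) (a : G F ⧸ borel F) :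
    toF (MRep F k g v) a = toF v (g⁻¹ • a) := permRep_apply g _ a

theorem Phi_equiv (g : G F) (v : StSt F k) :
    Phi F k (StStRep F k g v) =
      permRep k (G F) ((G F ⧸ borel F) × (G F ⧸ borel F)) g (Phi F k v) := by
  have h : Phi F k ∘ₗ StStRep F k g =
      permRep k (G F) ((G F ⧸ borel F) × (G F ⧸ borel F)) g ∘ₗ Phi F k := by
    refine TensorProduct.ext' fun x y => ?_
    ext ⟨a, b⟩
    change Phi F k (tens (StRep F k g x) (StRep F k g y)) (a, b) =
      permRep k (G F) ((G F ⧸ borel F) × (G F ⧸ borel F)) g (Phi F k (tens x y)) (a, b)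
    rw [permRep_apply]
    change Phi F k (tens (StRep F k g x) (StRep F k g y)) (a, b) =
      Phi F k (tens x y) (g⁻¹ • a, g⁻¹ • b)
    rw [Phi_tmul, Phi_tmul, incl_StRep, incl_StRep, toF_MRep, toF_MRep]
  exact LinearMap.congr_fun h v

theorem Phi_Ep (a b : G F ⧸ borel F) :
    Phi F k (tens (Ep k a) (Ep k b)) =
      Finsupp.single (pt none, pt none) 1 - Finsupp.single (pt none, b) 1
        - Finsupp.single (a, pt none) 1 + Finsupp.single (a, b) 1 := by
  have h : ∀ a : G F ⧸ borel F, toF (incl F k (Ep k a)) =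
      Finsupp.single (pt none) 1 - Finsupp.single a 1 := fun _ => rfl
  rw [Phi_tens, h, h]
  simp only [sub_tmul, tmul_sub, map_sub, finsuppTensorFinsupp'_single_tmul_single, mul_one]
  abel

theorem Phi_Rb (a b : G F ⧸ borel F) : Phi F k (Rb (Ep k a) (Ep k b)) =
    (2 : k)⁻¹ • ((Finsupp.single (pt none, pt none) 1 - Finsupp.single (pt none, b) 1
        - Finsupp.single (a, pt none) 1 + Finsupp.single (a, b) 1) -
        (Finsupp.single (pt none, pt none) 1 - Finsupp.single (pt none, a) 1
        - Finsupp.single (b, pt none) 1 + Finsupp.single (b, a) 1)) := by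
  unfold Rb
  rw [map_smul, map_sub, Phi_Ep, Phi_Ep]

theorem Phi_mem_Cyc (v : StSt F k)
    (hv : v ∈ VminusSpan F k) : Phi F k v ∈ Cyc k (G F ⧸ borel F) := by
  induction hv using Submodule.span_induction with
  | mem x hx =>
    obtain ⟨a, b, _, rfl⟩ := hx
    rw [rho_eq, Phi_Rb]
    apply Submodule.smul_mem
    unfold Cyc
    rw [Submodule.mem_inf, LinearMap.mem_ker, LinearMap.mem_ker, LinearMap.add_apply,
      LinearMap.id_apply]
    simp only [map_sub, map_add, Finsupp.lmapDomain_apply, Finsupp.mapDomain_single,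
      Prod.swap_prod_mk]
    constructor <;> abel
  | zero => rw [map_zero]; exact zero_mem _
  | add x y _ _ hx hy => rw [map_add]; exact add_mem hx hy
  | smul c x _ hx => rw [map_smul]; exact Submodule.smul_mem _ _ hx

theorem rho_ne_zero [CharZero k] {x y : F} (h : x ≠ y) : rho k x y ≠ 0 := by
  intro h0
  have h1 := congrArg (fun v => Phi F k v (pt (some x), pt (some y))) h0
  simp only [map_zero, Finsupp.coe_zero, Pi.zero_apply] at h1
  rw [rho_eq, Phi_Rb] at h1
  have hne : ∀ a b c d : Option F, (a, b) ≠ (c, d) →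
      (Finsupp.single ((pt a : G F ⧸ borel F), (pt b : G F ⧸ borel F)) (1 : k)) (pt c, pt d) = 0 := by
    intro a b c d hab
    apply Finsupp.single_eq_of_ne
    intro h
    apply hab
    rw [Prod.mk.injEq] at h
    rw [pt_injective h.1, pt_injective h.2]
  simp only [Finsupp.smul_apply, Finsupp.sub_apply, Finsupp.add_apply] at h1
  rw [hne none none _ _ (by simp), hne none (some y) _ _ (by simp),
    hne (some x) none _ _ (by simp), hne none (some x) _ _ (by simp),
    hne (some y) none _ _ (by simp), hne (some y) (some x) _ _ (by simp [h.symm]),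
    Finsupp.single_eq_same] at h1
  simp at h1

end Final

theorem Vminus_span (p : ℕ) [Fact p.Prime] (F : Type u) [Field F] [Algebra (ZMod p) F]
    [IsAlgClosure (ZMod p) F] (k : Type v) [Field k] [CharZero k]
    (w r : StSt F k)
    (hw : w ∈ VminusSpan F k) (hr : r ∈ VminusSpan F k) (hw0 : w ≠ 0) :
    r ∈ Submodule.span k (Set.range fun g : G F => StStRep F k g w) := by
  have h := span_field p F k (Phi F k w) (Phi F k r) (Phi_mem_Cyc w hw) (Phi_mem_Cyc r hr)
    (fun h0 => hw0 (Phi_injective (by rw [h0, map_zero])))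
  have h2 : (Set.range fun g : G F => permRep k (G F) ((G F ⧸ borel F) × (G F ⧸ borel F)) g
      (Phi F k w)) = Phi F k '' (Set.range fun g : G F => StStRep F k g w) := by
    rw [← Set.range_comp]
    congr 1
    ext1 g
    exact (Phi_equiv g w).symm
  rw [h2, Submodule.span_image] at h
  obtain ⟨r', hr', hr''⟩ := h
  rwa [← Phi_injective hr'']

end Pool.Agent.R723.AltSteinberg
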