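import Mathlib

namespace Pool.Agent.MP618be3

open WeierstrassCurve WeierstrassCurve.Affine

/-- The Weierstrass model `Y^2 = (X + bc)(X + ca)(X + ab)` over `ℚ` of the curve
`y^2 = (ax+1)(bx+1)(cx+1)`, with `X = abc x`, `Y = abc y`. -/
def inducedCurve (a b c : ℤ) : WeierstrassCurve.Affine ℚ where
  a₁ := 0
  a₂ := a * b + b * c + c * a
  a₃ := 0
  a₄ := (a * b * c) * (a + b + c)
  a₆ := (a * b * c) ^ 2

section
variable {K : Type*} [Field K] [Algebra ℚ K]

theorem cA1 (a b c : ℤ) : ((inducedCurve a b c)⁄K).a₁ = 0 := by simp [inducedCurve]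
theorem cA3 (a b c : ℤ) : ((inducedCurve a b c)⁄K).a₃ = 0 := by simp [inducedCurve]
theorem cA2 [CharZero K] (a b c : ℤ) : ((inducedCurve a b c)⁄K).a₂ = a * b + b * c + c * a := by
  simp [inducedCurve]
theorem cA4 [CharZero K] (a b c : ℤ) : ((inducedCurve a b c)⁄K).a₄ = (a * b * c) * (a + b + c) := by
  simp [inducedCurve]
theorem cA6 [CharZero K] (a b c : ℤ) : ((inducedCurve a b c)⁄K).a₆ = (a * b * c) ^ 2 := by
  simp [inducedCurve]

theorem psi3 [CharZero K] [DecidableEq K] (a b c : ℤ) {x y : K}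
    (h : ((inducedCurve a b c)⁄K).Nonsingular x y)
    (h3 : Affine.Point.some x y h + Affine.Point.some x y h = - Affine.Point.some x y h) :
    3 * x ^ 4 + 4 * (a * b + b * c + c * a) * x ^ 3 + 6 * ((a * b * c) * (a + b + c)) * x ^ 2
      + 12 * (a * b * c) ^ 2 * x + (4 * (a * b + b * c + c * a) * (a * b * c) ^ 2
        - ((a * b * c) * (a + b + c)) ^ 2) = (0 : K) := by
  obtain ⟨e1, h1⟩ : ∃ e1 : K, e1 = a * b + b * c + c * a := ⟨_, rfl⟩
  obtain ⟨e2, h2⟩ : ∃ e2 : K, e2 = (a * b * c) * (a + b + c) := ⟨_, rfl⟩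
  obtain ⟨e3, h3'⟩ : ∃ e3 : K, e3 = (a * b * c) ^ 2 := ⟨_, rfl⟩
  have hA1 := cA1 (K := K) a b c
  have hA3 := cA3 (K := K) a b c
  have hA2 := cA2 (K := K) a b c
  have hA4 := cA4 (K := K) a b c
  have hA6 := cA6 (K := K) a b c
  rw [← h1] at hA2 ⊢
  rw [← h2] at hA4 ⊢
  rw [← h3'] at hA6 ⊢
  have heq : y ^ 2 = x ^ 3 + e1 * x ^ 2 + e2 * x + e3 := by
    have := ((inducedCurve a b c)⁄K).equation_iff x y |>.mp h.1
    rw [hA1, hA2, hA3, hA4, hA6] at this
    linear_combination this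
  by_cases hy : y = ((inducedCurve a b c)⁄K).negY x y
  · rw [Affine.Point.add_self_of_Y_eq hy] at h3
    exact absurd h3.symm (by rw [Affine.Point.neg_some]; exact Affine.Point.some_ne_zero _)
  · rw [Affine.Point.add_self_of_Y_ne hy, Affine.Point.neg_some, Affine.Point.some.injEq] at h3
    have h4 := h3.1
    rw [Affine.slope_of_Y_ne rfl hy] at h4
    simp only [Affine.addX, Affine.negY] at h4 hy
    rw [hA1, hA2, hA3, hA4] at h4
    rw [hA1, hA3] at hy
    have hy2 : (2 : K) * y ≠ 0 := by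
      intro h0
      apply hy
      linear_combination h0
    have h5 : (y - (-y - 0 * x - 0)) = 2 * y := by ring
    rw [h5] at h4
    have h6 : (3 * x ^ 2 + 2 * e1 * x + e2) ^ 2 = (2 * y) ^ 2 * (3 * x + e1) := by
      have : ((3 * x ^ 2 + 2 * e1 * x + e2 - 0 * y) / (2 * y)) ^ 2 = 3 * x + e1 := by
        linear_combination h4
      rw [div_pow, div_eq_iff (pow_ne_zero 2 hy2)] at this
      linear_combination this
    linear_combination (-1) * h6 - 4 * (3 * x + e1) * heq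
end

theorem rat_root (a b c : ℤ) {x : ℚ}
    (h : 3 * x ^ 4 + 4 * (a * b + b * c + c * a) * x ^ 3 + 6 * ((a * b * c) * (a + b + c)) * x ^ 2
      + 12 * (a * b * c) ^ 2 * x + (4 * (a * b + b * c + c * a) * (a * b * c) ^ 2
        - ((a * b * c) * (a + b + c)) ^ 2) = 0) :
    ∃ t : ℤ, t ^ 4 - 4 * (a * b + b * c + c * a) * t ^ 3
      + 18 * ((a * b * c) * (a + b + c)) * t ^ 2
      - 108 * (a * b * c) ^ 2 * t + 27 * (4 * (a * b + b * c + c * a) * (a * b * c) ^ 2
        - ((a * b * c) * (a + b + c)) ^ 2) = 0 := by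
  obtain ⟨E1, h1⟩ : ∃ e1 : ℤ, e1 = 4 * (a * b + b * c + c * a) := ⟨_, rfl⟩
  obtain ⟨E2, h2⟩ : ∃ e2 : ℤ, e2 = 18 * ((a * b * c) * (a + b + c)) := ⟨_, rfl⟩
  obtain ⟨E3, h3⟩ : ∃ e2 : ℤ, e2 = 108 * (a * b * c) ^ 2 := ⟨_, rfl⟩
  obtain ⟨E4, h4⟩ : ∃ e2 : ℤ, e2 = 27 * (4 * (a * b + b * c + c * a) * (a * b * c) ^ 2
        - ((a * b * c) * (a + b + c)) ^ 2) := ⟨_, rfl⟩
  have key : (-(3 * x)) ^ 4 - E1 * (-(3 * x)) ^ 3 + E2 * (-(3 * x)) ^ 2 - E3 * (-(3 * x)) + E4
      = (0 : ℚ) := by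
    rw [h1, h2, h3, h4]; push_cast
    linear_combination 27 * h
  have hint : _root_.IsIntegral ℤ (-(3 * x)) := by
    refine ⟨Polynomial.X ^ 4 - Polynomial.C E1 * Polynomial.X ^ 3
      + Polynomial.C E2 * Polynomial.X ^ 2 - Polynomial.C E3 * Polynomial.X + Polynomial.C E4,
      ?_, ?_⟩
    · monicity!
    · simp only [Polynomial.eval₂_add, Polynomial.eval₂_sub, Polynomial.eval₂_mul,
        Polynomial.eval₂_pow, Polynomial.eval₂_X, Polynomial.eval₂_C]
      simp only [eq_intCast]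
      exact key
  obtain ⟨t, ht⟩ := IsIntegrallyClosed.isIntegral_iff.mp hint
  refine ⟨t, ?_⟩
  rw [← h4, ← h1, ← h2, ← h3]
  rw [← ht] at key
  simp only [eq_intCast] at key
  exact_mod_cast key


theorem dvd_of_sq_dvd_three {t x : ℤ} (ht : t ≠ 0) (h : t ^ 2 ∣ 3 * x ^ 2) : t ∣ x := by
  obtain ⟨k, hk⟩ := h
  have h1 : t ^ 2 ∣ (3 * x) ^ 2 := ⟨3 * k, by linear_combination 3 * hk⟩
  have h2 : t ∣ 3 * x := (Int.pow_dvd_pow_iff (two_ne_zero)).mp h1
  obtain ⟨y, hy⟩ := h2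
  have h3 : y ^ 2 = 3 * k := by
    have : t ^ 2 * y ^ 2 = t ^ 2 * (3 * k) := by
      have e : (3 * x) ^ 2 = (t * y) ^ 2 := by rw [hy]
      linear_combination (-1) * e + 3 * hk
    exact mul_left_cancel₀ (pow_ne_zero 2 ht) this
  have h4 : (3 : ℤ) ∣ y := Int.Prime.dvd_pow' (by norm_num : Nat.Prime 3) ⟨k, h3⟩
  obtain ⟨z, hz⟩ := h4
  refine ⟨z, ?_⟩
  rw [hz] at hy
  linarith

/-- arithmetic core -/
theorem core (a b c t s : ℤ) (hab : a ≠ b)
    (hs : a + b + c = 2 * s) (he : a * b + b * c + c * a = s ^ 2 - 1)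
    (hsgn : 0 < a * b + b * c + c * a) (hN : 0 < (a * b * c) * s)
    (h : t ^ 4 - 4 * (s ^ 2 - 1) * t ^ 3 + 36 * (a * b * c) * s * t ^ 2
      - 108 * (a * b * c) ^ 2 * (t + 1) = 0) : False := by
  obtain ⟨N, hNdef⟩ : ∃ N : ℤ, N = a * b * c := ⟨_, rfl⟩
  rw [← hNdef] at h hN
  have hs1 : 0 < s ^ 2 - 1 := he ▸ hsgn
  rcases lt_trichotomy t 0 with ht | ht | ht
  · have h1 : 0 < t ^ 4 := by
      have : 0 < t ^ 2 := by nlinarith
      have e : t ^ 4 = t ^ 2 * t ^ 2 := by ring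
      rw [e]; exact mul_pos this this
    have h2 : 0 ≤ - (4 * (s ^ 2 - 1) * t ^ 3) := by
      have : t ^ 3 ≤ 0 := by
        have : t ^ 3 = t * t ^ 2 := by ring
        rw [this]; exact mul_nonpos_of_nonpos_of_nonneg ht.le (sq_nonneg t)
      nlinarith
    have h3 : 0 ≤ 36 * N * s * t ^ 2 := by
      have := mul_nonneg hN.le (sq_nonneg t)
      nlinarith
    have h4 : 0 ≤ - (108 * N ^ 2 * (t + 1)) := by
      have : 0 ≤ N ^ 2 * (-(t + 1)) := mul_nonneg (sq_nonneg N) (by omega)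
      nlinarith
    linarith
  · subst ht
    have : N ^ 2 = 0 := by nlinarith
    have hN0 : N = 0 := by nlinarith [pow_eq_zero_iff (two_ne_zero) |>.mp this]
    rw [hN0] at hN; simp at hN
  · -- t > 0
    have hcop : IsCoprime (t ^ 2) (t + 1) := by
      refine ⟨1, 1 - t, by ring⟩
    have hd1 : t ^ 2 ∣ 108 * N ^ 2 * (t + 1) := by
      refine ⟨t ^ 2 - 4 * (s ^ 2 - 1) * t + 36 * N * s, ?_⟩
      linarith
    have hd2 : t ^ 2 ∣ 108 * N ^ 2 := hcop.dvd_of_dvd_mul_right hd1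
    have ht0 : t ≠ 0 := ht.ne'
    have hd3 : t ∣ 6 * N := by
      apply dvd_of_sq_dvd_three ht0
      have e : 3 * (6 * N) ^ 2 = 108 * N ^ 2 := by ring
      rw [e]; exact hd2
    obtain ⟨m, hm⟩ := hd3
    have h5 : 3 * m ^ 2 = t * (t - 4 * (s ^ 2 - 1) + 6 * m * s - 3 * m ^ 2) := by
      have e1 : 108 * N ^ 2 = 3 * m ^ 2 * t ^ 2 := by
        linear_combination (18 * N + 3 * t * m) * hm
      have e2 : 36 * N * s * t ^ 2 = 6 * m * s * t ^ 3 := by
        linear_combination (6 * s * t ^ 2) * hm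
      have e3 : t ^ 2 * (3 * m ^ 2) = t ^ 2 * (t * (t - 4 * (s ^ 2 - 1) + 6 * m * s - 3 * m ^ 2)) := by
        linear_combination (-1) * h + e2 - (t + 1) * e1
      exact mul_left_cancel₀ (pow_ne_zero 2 ht0) e3
    obtain ⟨q, hq⟩ : ∃ q : ℤ, q = t - 4 * (s ^ 2 - 1) + 6 * m * s - 3 * m ^ 2 := ⟨_, rfl⟩
    rw [← hq] at h5
    have h6 : (4 * s - 3 * m) ^ 2 = (4 - q) * (t + 4) := by
      linear_combination 4 * hq - h5
    have hNne : N ≠ 0 := by
      rintro rfl; simp at hN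
    have hm0 : m ≠ 0 := by
      rintro rfl; apply hNne; simpa using hm
    have hq0 : 0 < q := by
      have : 0 < t * q := by rw [← h5]; positivity
      exact (mul_pos_iff_of_pos_left ht).mp this
    have hq4 : q ≤ 4 := by
      by_contra hcon
      push Not at hcon
      have : (4 - q) * (t + 4) < 0 := mul_neg_of_neg_of_pos (by omega) (by omega)
      nlinarith [sq_nonneg (4 * s - 3 * m)]
    obtain ⟨x, hx⟩ : ∃ x : ℤ, x = 4 * s - 3 * m := ⟨_, rfl⟩
    rw [← hx] at h6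
    have hcases : q = 1 ∨ q = 2 ∨ q = 3 ∨ q = 4 := by omega
    rcases hcases with rfl | rfl | rfl | rfl
    · -- x^2 = 3 (3 m^2 + 4)
      have h7 : (x - 3 * m) * (x + 3 * m) = 12 := by
        have : t = 3 * m ^ 2 := by linarith
        rw [this] at h6; linear_combination h6
      have hd : (x - 3 * m) ∣ 12 := ⟨_, h7.symm⟩
      have hle : x - 3 * m ≤ 12 := Int.le_of_dvd (by norm_num) hd
      have hge : -12 ≤ x - 3 * m := by
        have : (-(x - 3 * m)) ∣ 12 := (neg_dvd).mpr hd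
        have := Int.le_of_dvd (by norm_num) this
        linarith
      obtain ⟨y, hy⟩ : ∃ y : ℤ, y = x - 3 * m := ⟨_, rfl⟩
      have h8 : y * (y + 6 * m) = 12 := by rw [hy]; linear_combination h7
      rw [← hy] at hle hge
      interval_cases y <;> omega
    · have h7 : 2 * t = 3 * m ^ 2 := by linarith
      have h8 : x ^ 2 = 3 * m ^ 2 + 8 := by linear_combination h6 + h7
      have h9 : x ^ 2 % 3 = 2 := by omega
      have : x % 3 = 0 ∨ x % 3 = 1 ∨ x % 3 = 2 := by omega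
      rcases this with h | h | h <;> simp [pow_two, Int.mul_emod, h] at h9
    · have h7 : (x - m) * (x + m) = 4 := by
        have : t = m ^ 2 := by linarith
        rw [this] at h6; linear_combination h6
      have hd : (x - m) ∣ 4 := ⟨_, h7.symm⟩
      have hle : x - m ≤ 4 := Int.le_of_dvd (by norm_num) hd
      have hge : -4 ≤ x - m := by
        have : (-(x - m)) ∣ 4 := (neg_dvd).mpr hd
        have := Int.le_of_dvd (by norm_num) this
        linarith
      obtain ⟨y, hy⟩ : ∃ y : ℤ, y = x - m := ⟨_, rfl⟩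
      have h8 : y * (y + 2 * m) = 4 := by rw [hy]; linear_combination h7
      rw [← hy] at hle hge
      interval_cases y <;> omega
    · -- q = 4
      have hx0 : x = 0 := by
        have : x ^ 2 = 0 := by rw [h6]; ring
        exact pow_eq_zero_iff (two_ne_zero) |>.mp this
      have h7 : 4 * s = 3 * m := by linarith
      -- 2 s = a+b+c; 6 N = t m ; 4 t = 3 m^2
      obtain ⟨n, hn⟩ : ∃ n : ℤ, m = 2 * n := ⟨m / 2, by
        have : m % 2 = 0 := by omega
        omega⟩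
      have ht' : t = 3 * n ^ 2 := by rw [hn] at h5; linarith
      have hN' : N = n ^ 3 := by
        rw [ht', hn] at hm
        have : 6 * N = 6 * n ^ 3 := by rw [hm]; ring
        linarith
      have hs' : a + b + c = 3 * n := by rw [hs]; omega
      -- abc = n^3, a+b+c=3n
      rw [hNdef] at hN'
      obtain ⟨e, hedef⟩ : ∃ e : ℤ, e = a * b + b * c + c * a := ⟨_, rfl⟩
      rw [← hedef] at hsgn
      have k1 : e ≤ 3 * n ^ 2 := by
        nlinarith [sq_nonneg (a - b), sq_nonneg (b - c), sq_nonneg (c - a)]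
      have k2 : (3 * n ^ 2) ^ 2 ≤ e ^ 2 := by
        have k3 : 0 ≤ (a * b - b * c) ^ 2 + (b * c - c * a) ^ 2 + (c * a - a * b) ^ 2 := by
          positivity
        have k4 : (a * b - b * c) ^ 2 + (b * c - c * a) ^ 2 + (c * a - a * b) ^ 2
            = 2 * (e ^ 2 - 3 * (a * b * c) * (a + b + c)) := by rw [hedef]; ring
        rw [k4, hN', hs'] at k3
        nlinarith
      have k5 : e = 3 * n ^ 2 := by
        apply le_antisymm k1
        by_contra hcon
        push Not at hcon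
        nlinarith
      have k6 : (a - b) ^ 2 + (b - c) ^ 2 + (c - a) ^ 2 = 0 := by
        have : (a - b) ^ 2 + (b - c) ^ 2 + (c - a) ^ 2
          = 2 * ((a + b + c) ^ 2 - 3 * (a * b + b * c + c * a)) := by ring
        rw [this, hs', ← hedef, k5]; ring
      have k7 : (a - b) ^ 2 = 0 := by
        nlinarith [sq_nonneg (a - b), sq_nonneg (b - c), sq_nonneg (c - a)]
      exact hab (sub_eq_zero.mp (pow_eq_zero_iff (two_ne_zero) |>.mp k7))



/-- A Diophantine triple in integers: distinct nonzero `a, b, c` such that `ab+1`, `ac+1`, `bc+1`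
are squares of integers. -/
def IsDiophantineTriple (a b c : ℤ) : Prop :=
  a ≠ 0 ∧ b ≠ 0 ∧ c ≠ 0 ∧ a ≠ b ∧ a ≠ c ∧ b ≠ c ∧
    IsSquare (a * b + 1) ∧ IsSquare (a * c + 1) ∧ IsSquare (b * c + 1)

/-- The triple is regular: `(c-a-b)^2 = 4(ab+1)`. -/
def IsRegular (a b c : ℤ) : Prop := (c - a - b) ^ 2 = 4 * (a * b + 1)

theorem mul_pos_of_sq {a b : ℤ} (ha : a ≠ 0) (hb : b ≠ 0) (h : IsSquare (a * b + 1)) :
    0 < a * b ∨ (a = 1 ∧ b = -1) ∨ (a = -1 ∧ b = 1) := by
  obtain ⟨r, hr⟩ := h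
  have h0 : 0 ≤ a * b + 1 := by rw [hr]; exact mul_self_nonneg r
  have h1 : a * b ≠ 0 := mul_ne_zero ha hb
  rcases lt_or_gt_of_ne h1 with h2 | h2
  · right
    have h3 : a * b = -1 := by omega
    rcases Int.mul_eq_neg_one_iff_eq_one_or_neg_one.mp h3 with h | h
    · left; exact h
    · right; exact h
  · left; exact h2

theorem no_root (a b c : ℤ) (hD : IsDiophantineTriple a b c) (hR : IsRegular a b c) (x : ℚ)
    (h : 3 * x ^ 4 + 4 * (a * b + b * c + c * a) * x ^ 3 + 6 * ((a * b * c) * (a + b + c)) * x ^ 2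
      + 12 * (a * b * c) ^ 2 * x + (4 * (a * b + b * c + c * a) * (a * b * c) ^ 2
        - ((a * b * c) * (a + b + c)) ^ 2) = 0) : False := by
  obtain ⟨t, ht⟩ := rat_root a b c h
  obtain ⟨ha, hb, hc, hab, hac, hbc, sab, sac, sbc⟩ := hD
  unfold IsRegular at hR
  -- a + b + c is even
  have hev : ∃ s, a + b + c = 2 * s := by
    obtain ⟨r, hr⟩ := sab
    have h1 : (c - a - b) ^ 2 = (2 * r) ^ 2 := by rw [hR, hr]; ring
    rcases sq_eq_sq_iff_eq_or_eq_neg.mp h1 with h2 | h2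
    · exact ⟨a + b + r, by linarith⟩
    · exact ⟨a + b - r, by linarith⟩
  obtain ⟨s, hs⟩ := hev
  have he : a * b + b * c + c * a = s ^ 2 - 1 := by
    have : (a + b + c) ^ 2 = 4 * s ^ 2 := by rw [hs]; ring
    nlinarith
  -- sign
  have hab' : 0 < a * b := by
    rcases mul_pos_of_sq ha hb sab with h | ⟨rfl, rfl⟩ | ⟨rfl, rfl⟩
    · exact h
    · exfalso; apply hc
      have : c ^ 2 = 0 := by nlinarith
      exact pow_eq_zero_iff (two_ne_zero) |>.mp this
    · exfalso; apply hc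
      have : c ^ 2 = 0 := by nlinarith
      exact pow_eq_zero_iff (two_ne_zero) |>.mp this
  have hac' : 0 < a * c := by
    rcases mul_pos_of_sq ha hc sac with h | ⟨rfl, rfl⟩ | ⟨rfl, rfl⟩
    · exact h
    · exfalso; apply hb
      have : b ^ 2 = 0 := by nlinarith
      exact pow_eq_zero_iff (two_ne_zero) |>.mp this
    · exfalso; apply hb
      have : b ^ 2 = 0 := by nlinarith
      exact pow_eq_zero_iff (two_ne_zero) |>.mp this
  have hbc' : 0 < b * c := by
    rcases mul_pos_of_sq hb hc sbc with h | ⟨rfl, rfl⟩ | ⟨rfl, rfl⟩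
    · exact h
    · exfalso; apply ha
      have : a ^ 2 = 0 := by nlinarith
      exact pow_eq_zero_iff (two_ne_zero) |>.mp this
    · exfalso; apply ha
      have : a ^ 2 = 0 := by nlinarith
      exact pow_eq_zero_iff (two_ne_zero) |>.mp this
  have hsgn : 0 < a * b + b * c + c * a := by nlinarith
  have hN : 0 < (a * b * c) * s := by
    have h1 : (a * b * c) * (2 * s) = (a * b) * (a * c) + (a * b) * (b * c) + (a * b) * c ^ 2 := by
      rw [← hs]; ring
    have h2 : 0 < (a * b) * (a * c) := mul_pos hab' hac'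
    have h3 : 0 < (a * b) * (b * c) := mul_pos hab' hbc'
    have h4 : 0 ≤ (a * b) * c ^ 2 := mul_nonneg hab'.le (sq_nonneg c)
    linarith
  refine core a b c t s hab hs he hsgn hN ?_
  have e1 : 4 * (a * b + b * c + c * a) * (a * b * c) ^ 2 - ((a * b * c) * (a + b + c)) ^ 2
      = - 4 * (a * b * c) ^ 2 := by
    rw [he, hs]; ring
  rw [e1, he, hs] at ht
  linear_combination ht

section
variable {K : Type*} [Field K] [NumberField K]

theorem no_root' (a b c : ℤ) (hD : IsDiophantineTriple a b c) (hR : IsRegular a b c) (x : K)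
    (hx : x ∈ Set.range (algebraMap ℚ K))
    (h : 3 * x ^ 4 + 4 * (a * b + b * c + c * a) * x ^ 3 + 6 * ((a * b * c) * (a + b + c)) * x ^ 2
      + 12 * (a * b * c) ^ 2 * x + (4 * (a * b + b * c + c * a) * (a * b * c) ^ 2
        - ((a * b * c) * (a + b + c)) ^ 2) = 0) : False := by
  obtain ⟨q, rfl⟩ := hx
  refine no_root a b c hD hR q ?_
  apply (algebraMap ℚ K).injective
  simp only [map_add, map_sub, map_mul, map_pow, map_intCast, map_ofNat, map_zero]
  exact h

end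

end Pool.Agent.MP618be3
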