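import Mathlib

/-!
Two elementary facts about `Ext¹` in module categories.
-/

set_option autoImplicit false

open CategoryTheory

namespace Pool.Agent.R723

universe u

variable {A : Type u} [Ring A]

/-- If `Ext¹(Z, ker f) = 0` then the surjection `f : Y → Z` splits. -/
theorem exists_section {Y Z : Type u} [AddCommGroup Y] [Module A Y] [AddCommGroup Z] [Module A Z]
    (f : Y →ₗ[A] Z) (hf : Function.Surjective f)
    (h : Subsingleton (Abelian.Ext (ModuleCat.of A Z) (ModuleCat.of A (LinearMap.ker f)) 1)) :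
    ∃ s : Z →ₗ[A] Y, ∀ z, f (s z) = z := by
  have hS := LinearMap.shortExact_shortComplexKer hf
  obtain ⟨x₂, hx₂⟩ := Abelian.Ext.covariant_sequence_exact₃ (X := ModuleCat.of A Z) hS
    (Abelian.Ext.mk₀ (𝟙 (ModuleCat.of A Z))) (n₁ := 1) rfl (Subsingleton.elim _ _)
  obtain ⟨s, rfl⟩ := Abelian.Ext.mk₀_bijective _ _ |>.2 x₂
  rw [Abelian.Ext.mk₀_comp_mk₀] at hx₂
  have := (Abelian.Ext.mk₀_bijective _ _).1 hx₂
  refine ⟨s.hom, fun z => ?_⟩
  have h2 := congrArg (fun t => t.hom z) this
  simpa using h2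

/-- If `P` is projective, `f : P → M` is surjective and `Hom(ker f, N) = 0` then
`Ext¹(M, N) = 0`. -/
theorem ext_one_subsingleton {P M N : Type u} [AddCommGroup P] [Module A P] [AddCommGroup M]
    [Module A M] [AddCommGroup N] [Module A N] [Module.Projective A P]
    (f : P →ₗ[A] M) (hf : Function.Surjective f) (h : ∀ g : LinearMap.ker f →ₗ[A] N, g = 0) :
    Subsingleton (Abelian.Ext (ModuleCat.of A M) (ModuleCat.of A N) 1) := by
  have hS := LinearMap.shortExact_shortComplexKer hf
  haveI : Projective (ModuleCat.of A P) := by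
    rw [← IsProjective.iff_projective]
    infer_instance
  refine subsingleton_of_forall_eq 0 fun x => ?_
  obtain ⟨x₁, hx₁⟩ := Abelian.Ext.contravariant_sequence_exact₃ hS (ModuleCat.of A N) x
    (Abelian.Ext.eq_zero_of_projective _) (n₀ := 0) rfl
  obtain ⟨s, rfl⟩ := Abelian.Ext.mk₀_bijective _ _ |>.2 x₁
  have hs : s = 0 := by
    have := h s.hom
    ext x
    exact congrArg (fun t => t x) this
  rw [← hx₁, hs]
  simp

end Pool.Agent.R723
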