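import Mathlib

/-!
# Guessable and strongly guessable weighted-automaton functions: definitions
-/

namespace Pool.Agent.R723.Guess

/-- `f` is computed by a finite weighted automaton over `S`: there are an initial vector `α`,
transition matrices `μ a` and a final vector `β` with `f w = α μ(w) β`. -/
def Recognizable {S A : Type} [Semiring S] (f : List A → S) : Prop :=
  ∃ (n : ℕ) (α : Fin n → S) (μ : A → Matrix (Fin n) (Fin n) S) (β : Fin n → S),
    ∀ w : List A, f w = ∑ i, ∑ j, α i * ((w.map μ).prod i j * β j)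

/-- `Λ_{Q,T}`: the coefficient families `(λ_q)`, `(λ_{q,a,p})` with
`⟨ε⟩_T = ∑ λ_q ⟨q⟩_T` and `⟨qa⟩_T = ∑ λ_{q,a,p} ⟨p⟩_T`, where `⟨u⟩_w = f (u w)`. -/
def Lam {S A : Type} [Semiring S] (f : List A → S) (Q : Finset (List A)) (T : Set (List A)) :
    Set ((Q → S) × (Q → A → Q → S)) :=
  {l | (∀ w ∈ T, f w = ∑ q : Q, l.1 q * f (q.1 ++ w)) ∧
    ∀ (q : Q) (a : A), ∀ w ∈ T, f (q.1 ++ (a :: w)) = ∑ p : Q, l.2 q a p * f (p.1 ++ w)}

/-- `f` is guessable: `Λ_{Q,T} = Λ_Q ≠ ∅` for some finite nonempty `Q` and finite `T`. -/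
def Guessable {S A : Type} [Semiring S] (f : List A → S) : Prop :=
  ∃ Q T : Finset (List A), Q.Nonempty ∧ T.Nonempty ∧
    Lam f Q (T : Set (List A)) = Lam f Q Set.univ ∧ (Lam f Q Set.univ).Nonempty

/-- `f` is strongly guessable: guessable, and for every finite nonempty `Q` some finite `T` has
`Λ_{Q,T} = Λ_Q`. -/
def StronglyGuessable {S A : Type} [Semiring S] (f : List A → S) : Prop :=
  Guessable f ∧ ∀ Q : Finset (List A), Q.Nonempty →
    ∃ T : Finset (List A), Lam f Q (T : Set (List A)) = Lam f Q Set.univ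

/-- `Γ_{Q,T}`: the coefficient families with `[ε]_Q = ∑ [t]_Q γ_t` and
`[at]_Q = ∑ [s]_Q γ_{s,a,t}`, where `[v]_w = f (w v)`; here `g.2 s a t` is `γ_{s,a,t}`. -/
def Gam {S A : Type} [Semiring S] (f : List A → S) (Q : Set (List A)) (T : Finset (List A)) :
    Set ((T → S) × (T → A → T → S)) :=
  {g | (∀ w ∈ Q, f w = ∑ t : T, f (w ++ t.1) * g.1 t) ∧
    ∀ (t : T) (a : A), ∀ w ∈ Q, f (w ++ (a :: t.1)) = ∑ s : T, f (w ++ s.1) * g.2 s a t}

/-- `f` is co-guessable: `Γ_{Q,T} = Γ_T ≠ ∅` for some finite `Q` and finite nonempty `T`. -/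
def CoGuessable {S A : Type} [Semiring S] (f : List A → S) : Prop :=
  ∃ Q T : Finset (List A), Q.Nonempty ∧ T.Nonempty ∧
    Gam f (Q : Set (List A)) T = Gam f Set.univ T ∧ (Gam f Set.univ T).Nonempty

/-- `f` is strongly co-guessable: co-guessable, and for every finite nonempty `T` some finite `Q`
has `Γ_{Q,T} = Γ_T`. -/
def StronglyCoGuessable {S A : Type} [Semiring S] (f : List A → S) : Prop :=
  CoGuessable f ∧ ∀ T : Finset (List A), T.Nonempty →
    ∃ Q : Finset (List A), Gam f (Q : Set (List A)) T = Gam f Set.univ T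

end Pool.Agent.R723.Guess
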