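import Pool.Agent.R723.GuessDefs

/-!
# A guessable function that is not strongly guessable
-/

namespace Pool.Agent.R723.Guess

open SetSemiring

/-- The monoid of maps `h : ℕ → ℕ` (under composition) which are the identity, the successor
map, constant, or satisfy `h n ≥ n + 2` for all `n`. -/
def Mon : Submonoid (Function.End ℕ) where
  carrier := {h | h = (id : ℕ → ℕ) ∨ h = (Nat.succ : ℕ → ℕ) ∨ (∃ k : ℕ, ∀ n, h n = k) ∨
    ∀ n : ℕ, n + 2 ≤ h n}
  one_mem' := Or.inl rfl
  mul_mem' := by
    intro a b ha hb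
    rcases ha with ha | ha | ⟨k, ha⟩ | ha
    · have : a * b = b := by rw [ha]; rfl
      rw [this]; exact hb
    · rcases hb with hb | hb | ⟨k, hb⟩ | hb
      · have : a * b = a := by rw [hb]; rfl
        rw [this]; exact Or.inr (Or.inl ha)
      · refine Or.inr (Or.inr (Or.inr fun n => ?_))
        rw [ha, hb]
        exact le_refl (n + 2)
      · refine Or.inr (Or.inr (Or.inl ⟨k + 1, fun n => ?_⟩))
        have : (a * b) n = a (b n) := rfl
        rw [this, hb n, ha]
      · refine Or.inr (Or.inr (Or.inr fun n => ?_))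
        have : (a * b) n = a (b n) := rfl
        rw [this, ha]
        exact (hb n).trans (Nat.le_succ _)
    · exact Or.inr (Or.inr (Or.inl ⟨k, fun n => ha (b n)⟩))
    · rcases hb with hb | hb | ⟨k, hb⟩ | hb
      · have : a * b = a := by rw [hb]; rfl
        rw [this]; exact Or.inr (Or.inr (Or.inr ha))
      · refine Or.inr (Or.inr (Or.inr fun n => ?_))
        have : (a * b) n = a (b n) := rfl
        rw [this, hb]
        have := ha (Nat.succ n)
        omega
      · refine Or.inr (Or.inr (Or.inl ⟨a k, fun n => ?_⟩))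
        have : (a * b) n = a (b n) := rfl
        rw [this, hb n]
      · refine Or.inr (Or.inr (Or.inr fun n => ?_))
        have : (a * b) n = a (b n) := rfl
        rw [this]
        have h1 := ha (b n)
        have h2 := hb n
        omega

/-- The semiring: finite or infinite subsets of `Mon` under union and product. -/
abbrev S0 := SetSemiring Mon

/-- constant maps -/
def cst (k : ℕ) : Mon := ⟨fun _ => k, Or.inr (Or.inr (Or.inl ⟨k, fun _ => rfl⟩))⟩

/-- successor -/
def sc : Mon := ⟨Nat.succ, Or.inr (Or.inl rfl)⟩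

/-- the map `n ↦ n + 2` for `n ≤ N` and `n ↦ n + 3` for `n > N` -/
def xx (N : ℕ) : Mon := ⟨fun n => if n ≤ N then n + 2 else n + 3, by
  refine Or.inr (Or.inr (Or.inr fun n => ?_))
  show n + 2 ≤ if n ≤ N then n + 2 else n + 3
  split_ifs <;> omega⟩

/-- singletons -/
def sg (h : Mon) : S0 := Set.up {h}

theorem sg_mul (h h' : Mon) : sg h * sg h' = sg (h * h') := by
  unfold sg
  rw [mul_def]
  simp

theorem sg_inj {h h' : Mon} (e : sg h = sg h') : h = h' := by
  unfold sg at e
  have := Set.up.injective e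
  exact Set.singleton_injective this

theorem mul_cst (h : Mon) (n : ℕ) : h * cst n = cst (h.1 n) := rfl

theorem cst_inj {k k' : ℕ} (e : cst k = cst k') : k = k' := by
  have h1 : (cst k).1 0 = (cst k').1 0 := by rw [e]
  exact h1

/-- solutions of `y * sg (cst n) = sg (cst m)` -/
theorem eq_iff (y : S0) (n m : ℕ) (e : y * sg (cst n) = sg (cst m)) :
    ∀ h ∈ y.down, h.1 n = m := by
  intro h hh
  have h1 : (y * sg (cst n)).down = {cst m} := by rw [e]; rfl
  have h2 : h * cst n ∈ (y * sg (cst n)).down := by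
    rw [down_mul]
    exact Set.mul_mem_mul hh (Set.mem_singleton _)
  rw [h1, Set.mem_singleton_iff, mul_cst] at h2
  exact cst_inj h2

theorem nonempty_of_eq (y : S0) (n m : ℕ) (e : y * sg (cst n) = sg (cst m)) :
    y.down.Nonempty := by
  by_contra hne
  rw [Set.not_nonempty_iff_eq_empty] at hne
  have h1 : (y * sg (cst n)).down = {cst m} := by rw [e]; rfl
  rw [down_mul, hne, Set.empty_mul] at h1
  exact Set.singleton_ne_empty _ h1.symm

theorem eq_one (y : S0) (e0 : y * sg (cst 0) = sg (cst 0)) (e1 : y * sg (cst 1) = sg (cst 1)) :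
    y = sg 1 := by
  have h0 := eq_iff y 0 0 e0
  have h1 := eq_iff y 1 1 e1
  have h2 : ∀ h ∈ y.down, h = 1 := by
    intro h hh
    have h3 := h0 h hh
    have h4 := h1 h hh
    rcases h.2 with h5 | h5 | ⟨k, h5⟩ | h5
    · exact Subtype.ext h5
    · rw [h5] at h3; exact absurd h3 (by decide)
    · rw [h5] at h3 h4; omega
    · have := h5 0; omega
  obtain ⟨h, hh⟩ := nonempty_of_eq y 0 0 e0
  have h6 : y.down = {1} := by
    apply Set.eq_singleton_iff_nonempty_unique_mem.2
    exact ⟨⟨h, hh⟩, h2⟩
  rw [← SetSemiring.up_down y, h6]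
  rfl

theorem eq_sc (y : S0) (e0 : y * sg (cst 0) = sg (cst 1)) (e1 : y * sg (cst 1) = sg (cst 2)) :
    y = sg sc := by
  have h0 := eq_iff y 0 1 e0
  have h1 := eq_iff y 1 2 e1
  have h2 : ∀ h ∈ y.down, h = sc := by
    intro h hh
    have h3 := h0 h hh
    have h4 := h1 h hh
    rcases h.2 with h5 | h5 | ⟨k, h5⟩ | h5
    · rw [h5] at h3; exact absurd h3 (by decide)
    · exact Subtype.ext h5
    · rw [h5] at h3 h4; omega
    · have := h5 0; omega
  obtain ⟨h, hh⟩ := nonempty_of_eq y 0 1 e0
  have h6 : y.down = {sc} := by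
    apply Set.eq_singleton_iff_nonempty_unique_mem.2
    exact ⟨⟨h, hh⟩, h2⟩
  rw [← SetSemiring.up_down y, h6]
  rfl

/-- The function: a word of length `n` is mapped to the constant map with value `n`. -/
def f0 (w : List Unit) : S0 := sg (cst w.length)

theorem sc_mul (w : List Unit) : f0 (() :: w) = sg sc * f0 w := by
  unfold f0
  rw [sg_mul, mul_cst]
  rfl

theorem f0_rec : Recognizable f0 := by
  refine ⟨1, fun _ => 1, fun _ => Matrix.of fun _ _ => sg sc, fun _ => sg (cst 0), ?_⟩
  intro w
  rw [Fin.sum_univ_one, Fin.sum_univ_one, one_mul]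
  induction w with
  | nil =>
    rw [List.map_nil, List.prod_nil, Matrix.one_apply_eq, one_mul]
    rfl
  | cons a w ih =>
    rw [List.map_cons, List.prod_cons, Matrix.mul_apply, Fin.sum_univ_one, mul_assoc, ← ih,
      Matrix.of_apply]
    exact sc_mul w

theorem lam_single (T : Set (List Unit))
    (l : (({[]} : Finset (List Unit)) → S0) ×
      (({[]} : Finset (List Unit)) → Unit → ({[]} : Finset (List Unit)) → S0)) :
    l ∈ Lam f0 {[]} T ↔
      (∀ w ∈ T, f0 w = l.1 ⟨[], Finset.mem_singleton_self _⟩ * f0 w) ∧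
      (∀ w ∈ T, f0 (() :: w) = l.2 ⟨[], Finset.mem_singleton_self _⟩ ()
        ⟨[], Finset.mem_singleton_self _⟩ * f0 w) := by
  have hsum : ∀ F : ({[]} : Finset (List Unit)) → S0,
      ∑ q : ({[]} : Finset (List Unit)), F q = F ⟨[], Finset.mem_singleton_self _⟩ := by
    intro F
    apply Fintype.sum_eq_single
    intro q hq
    exact absurd (Subtype.ext (Finset.mem_singleton.1 q.2)) hq
  unfold Lam
  rw [Set.mem_ofPred_eq]
  simp only [hsum]
  constructor
  · rintro ⟨h1, h2⟩
    exact ⟨h1, h2 ⟨[], Finset.mem_singleton_self _⟩ ()⟩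
  · rintro ⟨h1, h2⟩
    refine ⟨h1, ?_⟩
    rintro ⟨q, hq⟩ ⟨⟩
    obtain rfl := Finset.mem_singleton.1 hq
    exact h2

theorem f0_lam : Lam f0 {[]} (({[], [()]} : Finset (List Unit)) : Set (List Unit))
    = Lam f0 {[]} Set.univ := by
  ext l
  rw [lam_single, lam_single]
  constructor
  · rintro ⟨h1, h2⟩
    have e1 : l.1 ⟨[], Finset.mem_singleton_self _⟩ = sg 1 :=
      eq_one _ (h1 [] (by simp)).symm (h1 [()] (by simp)).symm
    have e2 : l.2 ⟨[], Finset.mem_singleton_self _⟩ () ⟨[], Finset.mem_singleton_self _⟩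
        = sg sc := eq_sc _ (h2 [] (by simp)).symm (h2 [()] (by simp)).symm
    rw [e1, e2]
    refine ⟨fun w _ => ?_, fun w _ => sc_mul w⟩
    unfold f0
    rw [sg_mul, one_mul]
  · rintro ⟨h1, h2⟩
    exact ⟨fun w _ => h1 w (Set.mem_univ _), fun w _ => h2 w (Set.mem_univ _)⟩

theorem f0_ne : (Lam f0 {[]} Set.univ).Nonempty := by
  refine ⟨(fun _ => sg 1, fun _ _ _ => sg sc), ?_⟩
  rw [lam_single]
  refine ⟨fun w _ => ?_, fun w _ => sc_mul w⟩
  unfold f0
  rw [sg_mul, one_mul]

open Classical in
theorem f0_not (T : Finset (List Unit)) :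
    ∃ l, l ∈ Lam f0 {[], [()]} (T : Set (List Unit)) ∧ l ∉ Lam f0 {[], [()]} Set.univ := by
  set N := T.sup List.length with hN
  have hm : ([] : List Unit) ∈ ({[], [()]} : Finset (List Unit)) := by simp
  have hm1 : ([()] : List Unit) ∈ ({[], [()]} : Finset (List Unit)) := by simp
  refine ⟨(fun q => if q.1 = [] then 1 else 0,
    fun q _ p => if p.1 = [] then (if q.1 = [] then sg sc else sg (xx N)) else 0), ?_, ?_⟩
  · constructor
    · intro w _
      rw [Fintype.sum_eq_single ⟨[], hm⟩]
      · simp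
      · intro q hq
        have : q.1 ≠ [] := fun h => hq (Subtype.ext h)
        simp [this]
    · intro q a w hw
      rw [Fintype.sum_eq_single ⟨[], hm⟩]
      · simp only [if_true, List.nil_append]
        rcases q with ⟨q, hq⟩
        rw [Finset.mem_insert, Finset.mem_singleton] at hq
        rcases hq with rfl | rfl
        · simp only [if_true, List.nil_append]
          exact sc_mul w
        · simp only [List.cons_ne_nil, if_false, List.cons_append, List.nil_append]
          have hlen : w.length ≤ N := Finset.le_sup (f := List.length) (Finset.mem_coe.1 hw)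
          unfold f0
          rw [sg_mul, mul_cst]
          congr 1
          have : (xx N).1 w.length = w.length + 2 := if_pos hlen
          rw [this]
          rfl
      · intro p hp
        have : p.1 ≠ [] := fun h => hp (Subtype.ext h)
        simp [this]
  · rintro ⟨_, h2⟩
    have h3 := h2 ⟨[()], hm1⟩ () (List.replicate (N + 1) ()) (Set.mem_univ _)
    rw [Fintype.sum_eq_single ⟨[], hm⟩] at h3
    · simp only [if_true, List.nil_append, List.cons_ne_nil, if_false, List.cons_append] at h3
      unfold f0 at h3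
      rw [sg_mul, mul_cst] at h3
      have h4 := cst_inj (sg_inj h3)
      simp only [List.length_cons, List.length_replicate] at h4
      have h5 : (xx N).1 (N + 1) = N + 1 + 3 := if_neg (by omega)
      rw [h5] at h4
      omega
    · intro p hp
      have : p.1 ≠ [] := fun h => hp (Subtype.ext h)
      simp [this]

theorem main1 : Recognizable f0 ∧ Guessable f0 ∧ ¬ StronglyGuessable f0 := by
  refine ⟨f0_rec, ⟨{[]}, {[], [()]}, by simp, by simp, f0_lam, f0_ne⟩, ?_⟩
  rintro ⟨_, h⟩
  obtain ⟨T, hT⟩ := h {[], [()]} (by simp)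
  obtain ⟨l, h1, h2⟩ := f0_not T
  rw [hT] at h1
  exact h2 h1

/-- The dual function with values in the opposite semiring. -/
def f1 (w : List Unit) : S0ᵐᵒᵖ := MulOpposite.op (f0 w)

theorem f0_comm (u v : List Unit) : f0 (u ++ v) = f0 (v ++ u) := by
  unfold f0
  rw [List.length_append, List.length_append, add_comm]

theorem f0_cons (u v : List Unit) (a : Unit) : f0 (u ++ (a :: v)) = f0 (v ++ (a :: u)) := by
  unfold f0
  congr 2
  simp only [List.length_append, List.length_cons]
  omega

/-- transport of coefficient families -/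
def tr (T : Finset (List Unit)) (g : (T → S0ᵐᵒᵖ) × (T → Unit → T → S0ᵐᵒᵖ)) :
    (T → S0) × (T → Unit → T → S0) :=
  (fun t => (g.1 t).unop, fun t a s => (g.2 s a t).unop)

theorem tr_surj (T : Finset (List Unit)) : Function.Surjective (tr T) := by
  intro l
  exact ⟨(fun t => MulOpposite.op (l.1 t), fun s a t => MulOpposite.op (l.2 t a s)), rfl⟩

theorem gam_eq (Q : Set (List Unit)) (T : Finset (List Unit)) :
    Gam f1 Q T = tr T ⁻¹' Lam f0 T Q := by
  ext g
  unfold Gam Lam
  rw [Set.mem_preimage, Set.mem_ofPred_eq, Set.mem_ofPred_eq]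
  have key : ∀ (x : S0) (F : T → List Unit) (G : T → S0ᵐᵒᵖ),
      (MulOpposite.op x = ∑ t : T, f1 (F t) * G t) ↔ x = ∑ t : T, (G t).unop * f0 (F t) := by
    intro x F G
    rw [← MulOpposite.unop_inj, MulOpposite.unop_op, Finset.unop_sum]
    rfl
  constructor
  · rintro ⟨h1, h2⟩
    refine ⟨fun w hw => ?_, fun q a w hw => ?_⟩
    · have h3 := (key _ _ _).1 (h1 w hw)
      rw [h3]
      exact Finset.sum_congr rfl fun t _ => by rw [f0_comm w t.1]; rfl
    · have h3 := (key _ _ _).1 (h2 q a w hw)
      rw [f0_cons, h3]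
      exact Finset.sum_congr rfl fun t _ => by rw [f0_comm w t.1]; rfl
  · rintro ⟨h1, h2⟩
    refine ⟨fun w hw => ?_, fun q a w hw => ?_⟩
    · apply (key _ _ _).2
      rw [h1 w hw]
      exact Finset.sum_congr rfl fun t _ => by rw [f0_comm w t.1]; rfl
    · apply (key _ _ _).2
      rw [f0_cons, h2 q a w hw]
      exact Finset.sum_congr rfl fun t _ => by rw [f0_comm w t.1]; rfl

theorem f1_rec : Recognizable f1 := by
  refine ⟨1, fun _ => MulOpposite.op (sg (cst 0)), fun _ => Matrix.of fun _ _ => MulOpposite.op (sg sc),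
    fun _ => 1, ?_⟩
  intro w
  rw [Fin.sum_univ_one, Fin.sum_univ_one, mul_one]
  have h1 : ∀ w : List Unit, ((w.map (fun _ : Unit => (Matrix.of fun _ _ =>
      MulOpposite.op (sg sc) : Matrix (Fin 1) (Fin 1) S0ᵐᵒᵖ))).prod 0 0)
        = MulOpposite.op (sg sc ^ w.length) := by
    intro w
    induction w with
    | nil =>
      rw [List.map_nil, List.prod_nil, Matrix.one_apply_eq]
      rfl
    | cons a w ih =>
      rw [List.map_cons, List.prod_cons, Matrix.mul_apply, Fin.sum_univ_one, ih,
        Matrix.of_apply, ← MulOpposite.op_mul, List.length_cons, pow_succ]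
  rw [h1, ← MulOpposite.op_mul]
  unfold f1
  congr 1
  induction w with
  | nil => rw [List.length_nil, pow_zero, one_mul]; rfl
  | cons a w ih =>
    rw [List.length_cons, pow_succ', mul_assoc, ← ih]
    exact sc_mul w

theorem main2 : Recognizable f1 ∧ CoGuessable f1 ∧ ¬ StronglyCoGuessable f1 := by
  refine ⟨f1_rec, ⟨{[], [()]}, {[]}, by simp, by simp, ?_, ?_⟩, ?_⟩
  · rw [gam_eq, gam_eq, f0_lam]
  · rw [gam_eq]
    exact f0_ne.preimage (tr_surj _)
  · rintro ⟨_, h⟩
    obtain ⟨Q, hQ⟩ := h {[], [()]} (by simp)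
    obtain ⟨l, h1, h2⟩ := f0_not Q
    obtain ⟨g, rfl⟩ := tr_surj _ l
    have h3 : g ∈ Gam f1 (Q : Set (List Unit)) {[], [()]} := by
      rw [gam_eq]; exact h1
    rw [hQ, gam_eq] at h3
    exact h2 h3

end Pool.Agent.R723.Guess
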