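import Pool.Agent.R723.AffG

/-!
The group algebra of `C_p × (F ⋊ Fˣ)` in characteristic `p` is indecomposable.
-/

set_option autoImplicit false

open MonoidAlgebra

namespace Pool.Agent.R723

universe u

/-- A function which is invariant under translation by an element of order `p` has sum zero in
characteristic `p`. -/
theorem sum_eq_zero_of_invariant {p : ℕ} [Fact p.Prime] {k : Type u} [Field k] [CharP k p]
    {G : Type} [Group G] [Fintype G] (κ : G) (hκ : κ ≠ 1) (hκp : κ ^ p = 1) (f : G → k)
    (hf : ∀ g, f (g * κ) = f g) : ∑ g, f g = 0 := by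
  classical
  let H := Subgroup.zpowers κ
  have hcard : Nat.card H = p := by
    rw [Nat.card_zpowers]
    exact orderOf_eq_prime hκp hκ
  have hinv : ∀ g, ∀ h ∈ H, f (g * h) = f g := by
    intro g h hh
    obtain ⟨n, rfl⟩ := Subgroup.mem_zpowers_iff.1 hh
    induction n using Int.induction_on with
    | zero => simp
    | succ n ih =>
      rw [zpow_add_one, ← mul_assoc, hf]
      exact ih (Subgroup.mem_zpowers_iff.2 ⟨_, rfl⟩)
    | pred n ih =>
      rw [zpow_sub_one, ← mul_assoc, ← hf, inv_mul_cancel_right]
      exact ih (Subgroup.mem_zpowers_iff.2 ⟨_, rfl⟩)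
  let F : (G ⧸ H) × H → G := fun x => x.1.out * x.2
  have hmk : ∀ (q : G ⧸ H) (h : H), (((q.out * h : G) : G) : G ⧸ H) = q := by
    intro q h
    rw [QuotientGroup.mk_mul_of_mem _ h.2]
    exact Quotient.out_eq q
  have hF : Function.Bijective F := by
    constructor
    · rintro ⟨q, h⟩ ⟨q', h'⟩ hqq
      have h1 : q = q' := by
        rw [← hmk q h, ← hmk q' h']
        exact congrArg _ hqq
      subst h1
      have h2 : (h : G) = h' := mul_left_cancel hqq
      rw [Subtype.ext h2]
    · intro g
      have hm : ((g : G ⧸ H).out)⁻¹ * g ∈ H := by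
        rw [← QuotientGroup.eq]
        exact Quotient.out_eq _
      exact ⟨((g : G ⧸ H), ⟨_, hm⟩), by simp [F]⟩
  rw [← Equiv.sum_comp (Equiv.ofBijective F hF), Fintype.sum_prod_type]
  refine Finset.sum_eq_zero fun q _ => ?_
  have h1 : ∀ h : H, f (Equiv.ofBijective F hF (q, h)) = f q.out := by
    intro h
    exact hinv _ _ h.2
  rw [Finset.sum_congr rfl fun h _ => h1 h, Finset.sum_const, Finset.card_univ,
    ← Nat.card_eq_fintype_card, hcard]
  simp

theorem coeff_mul_sum {k : Type u} [Field k] {G : Type} [Group G] [Fintype G]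
    (x y : MonoidAlgebra k G) (g : G) :
    (x * y).coeff g = ∑ h, x.coeff h * y.coeff (h⁻¹ * g) := by
  rw [MonoidAlgebra.coeff_mul_apply_left]
  exact Finsupp.sum_fintype _ _ (by simp)

/-- An idempotent of the group algebra of an abelian group of exponent `p` is trivial. -/
theorem idem_comm {p : ℕ} [Fact p.Prime] {k : Type u} [Field k] [CharP k p]
    {P : Type} [CommGroup P] [Fintype P] (hP : ∀ u : P, u ^ p = 1) (y : MonoidAlgebra k P)
    (hy : y * y = y) : y = 0 ∨ y = 1 := by
  classical
  have : CharP (MonoidAlgebra k P) p :=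
    charP_of_injective_algebraMap (algebraMap k (MonoidAlgebra k P)).injective p
  have h1 : y ^ p = y := by
    have : ∀ n : ℕ, y ^ (n + 1) = y := by
      intro n
      induction n with
      | zero => simp
      | succ n ih => rw [pow_succ, ih, hy]
    obtain ⟨n, hn⟩ := Nat.exists_eq_succ_of_ne_zero (Fact.out : p.Prime).ne_zero
    rw [hn]
    exact this n
  have h2 : y = ∑ u, MonoidAlgebra.single u (y.coeff u) := by
    ext v
    rw [MonoidAlgebra.coeff_sum, Finsupp.finsetSum_apply]
    simp [Finsupp.single_apply]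
  have h3 : y = MonoidAlgebra.single 1 (∑ u, (y.coeff u) ^ p) := by
    conv_lhs => rw [← h1, h2]
    rw [sum_pow_char]
    simp only [MonoidAlgebra.single_pow, hP]
    exact (map_sum (MonoidAlgebra.singleAddHom (1 : P)) _ _).symm
  set c := ∑ u, (y.coeff u) ^ p
  have h4 : c * c = c := by
    have := hy
    rw [h3, MonoidAlgebra.single_mul_single, one_mul] at this
    exact MonoidAlgebra.single_right_injective this
  have h5 : c = 0 ∨ c = 1 := by
    have : c * (c - 1) = 0 := by rw [mul_sub, h4]; ring
    rcases mul_eq_zero.1 this with h | h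
    · exact Or.inl h
    · exact Or.inr (sub_eq_zero.1 h)
  rcases h5 with h | h
  · left; rw [h3, h]; simp
  · right; rw [h3, h]; rfl

section

variable {p : ℕ} [Fact p.Prime] {k : Type u} [Field k] [CharP k p] {F : Type} [Field F] [Finite F]
  [CharP F p]

open AffG

/-- The only central idempotents of `k[C_p × (F ⋊ Fˣ)]` are `0` and `1`. -/
theorem central_idem (E : MonoidAlgebra k (AffG p F)) (hE : E * E = E)
    (hc : ∀ y, E * y = y * E) : E = 0 ∨ E = 1 := by
  classical
  have : Fintype (AffG p F) := Fintype.ofFinite _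
  have : Fintype (Multiplicative (ZMod p × F)) := Fintype.ofFinite _
  -- class function
  have hconj : ∀ h g, E.coeff (h * g * h⁻¹) = E.coeff g := by
    intro h g
    have h1 := congrArg (fun y => y.coeff (h * g)) (hc (MonoidAlgebra.single h 1))
    simp only [MonoidAlgebra.coeff_mul_single_apply, MonoidAlgebra.coeff_single_mul_apply] at h1
    simpa using h1
  have hb : ∀ (c : ZMod p) (b b' : F) (a : Fˣ), a ≠ 1 →
      E.coeff ⟨c, b, a⟩ = E.coeff ⟨c, b', a⟩ := by
    intro c b b' a ha
    have ha' : (1 : F) - a ≠ 0 := by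
      intro h
      exact ha (Units.ext (sub_eq_zero.1 h).symm)
    rw [← hconj ⟨0, (b' - b) / (1 - a), 1⟩ ⟨c, b, a⟩]
    congr 1
    ext
    · simp
    · simp
      field_simp
      ring
    · simp
  let n : MonoidAlgebra k (AffG p F) := .ofCoeff (E.coeff.filter fun g => g.a ≠ 1)
  let E1 : MonoidAlgebra k (AffG p F) := .ofCoeff (E.coeff.filter fun g => g.a = 1)
  have hn : ∀ g, n.coeff g = if g.a ≠ 1 then E.coeff g else 0 := fun g => Finsupp.filter_apply ..
  have hE1 : ∀ g, E1.coeff g = if g.a = 1 then E.coeff g else 0 := fun g =>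
    Finsupp.filter_apply ..
  have hsum : E = E1 + n := by
    ext g
    rw [MonoidAlgebra.coeff_add, Finsupp.add_apply, hn, hE1]
    by_cases h : g.a = 1 <;> simp [h]
  have hninv : ∀ (c : ZMod p) (b b' : F) (a : Fˣ), n.coeff ⟨c, b, a⟩ = n.coeff ⟨c, b', a⟩ := by
    intro c b b' a
    rw [hn, hn]
    by_cases h : a = 1
    · simp [h]
    · simp only [ne_eq, h, not_false_eq_true, if_true]
      exact hb _ _ _ _ h
  have hnn : n * n = 0 := by
    ext x
    rw [coeff_mul_sum]
    have := sum_eq_zero_of_invariant (p := p) (⟨0, 1, 1⟩ : AffG p F)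
      (by
        intro h
        have := congrArg AffG.b h
        simp at this)
      (by
        have : ∀ m : ℕ, (⟨0, 1, 1⟩ : AffG p F) ^ m = ⟨0, m, 1⟩ := by
          intro m
          induction m with
          | zero => ext <;> simp
          | succ m ih => rw [pow_succ, ih]; ext <;> simp
        rw [this]
        ext <;> simp)
      (fun h => n.coeff h * n.coeff (h⁻¹ * x)) (by
        intro g
        have e1 : g * (⟨0, 1, 1⟩ : AffG p F) = ⟨g.c, g.b + g.a, g.a⟩ := by ext <;> simp
        have e2 : (g * (⟨0, 1, 1⟩ : AffG p F))⁻¹ * x =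
            ⟨(g⁻¹ * x).c, (g⁻¹ * x).b - 1, (g⁻¹ * x).a⟩ := by
          ext
          · simp
          · simp; ring
          · simp
        rw [e2, e1]
        rw [hninv g.c (g.b + g.a) g.b g.a, hninv (g⁻¹ * x).c ((g⁻¹ * x).b - 1) (g⁻¹ * x).b])
    exact this
  have hE1E1 : ∀ x : AffG p F, x.a ≠ 1 → (E1 * E1).coeff x = 0 := by
    intro x hx
    rw [coeff_mul_sum]
    refine Finset.sum_eq_zero fun g _ => ?_
    rw [hE1, hE1]
    by_cases h : g.a = 1
    · have : (g⁻¹ * x).a ≠ 1 := by simpa [h] using hx
      rw [if_neg this, mul_zero]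
    · simp [h]
  have hE1n : ∀ x : AffG p F, x.a = 1 → (E1 * n).coeff x = 0 := by
    intro x hx
    rw [coeff_mul_sum]
    refine Finset.sum_eq_zero fun g _ => ?_
    rw [hE1, hn]
    by_cases h : g.a = 1
    · have : (g⁻¹ * x).a = 1 := by simp [h, hx]
      rw [if_neg (not_not.2 this), mul_zero]
    · simp [h]
  have hcomm : E1 * n = n * E1 := by
    have h1 := hc n
    rw [hsum, add_mul, mul_add, hnn, add_zero, add_zero] at h1
    exact h1
  have hmain : E1 * E1 + (E1 * n + E1 * n) = E1 + n := by
    have h1 := hE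
    rw [hsum, add_mul, mul_add, mul_add, hnn, add_zero, ← hcomm] at h1
    rw [← h1, add_assoc]
  have hE1idem : E1 * E1 = E1 := by
    ext x
    by_cases hx : x.a = 1
    · have h1 := congrArg (fun y => y.coeff x) hmain
      simp only [MonoidAlgebra.coeff_add, Finsupp.add_apply, hE1n x hx, add_zero] at h1
      rw [h1, hn]
      simp [hx]
    · rw [hE1E1 x hx, hE1]
      simp [hx]
  have hn2 : E1 * n + E1 * n = n := by
    have := hmain
    rw [hE1idem] at this
    exact add_left_cancel this
  -- `E1` comes from the group algebra of the abelian group `C_p × F`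
  have hE1' : E1 = 0 ∨ E1 = 1 := by
    let y : MonoidAlgebra k (Multiplicative (ZMod p × F)) :=
      MonoidAlgebra.comapDomain (inP : _ →* AffG p F) inP_injective E1
    have hy : MonoidAlgebra.mapDomain (inP : _ →* AffG p F) y = E1 := by
      apply MonoidAlgebra.mapDomain_comapDomain
      intro g hg
      have h1 : E1.coeff g ≠ 0 := by simpa using hg
      rw [hE1] at h1
      have h2 : g.a = 1 := by
        by_contra h
        simp [h] at h1
      refine ⟨Multiplicative.ofAdd (g.c, g.b), ?_⟩
      ext <;> simp [inP, h2]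
    have hyy : y * y = y := by
      apply MonoidAlgebra.mapDomain_injective (R := k) (f := (inP : _ →* AffG p F)) inP_injective
      rw [MonoidAlgebra.mapDomain_mul, hy, hE1idem]
    have hexp : ∀ u : Multiplicative (ZMod p × F), u ^ p = 1 := by
      intro u
      apply Multiplicative.toAdd.injective
      rw [toAdd_pow]
      ext <;> simp
    rcases idem_comm hexp y hyy with h | h
    · left
      rw [← hy, h, MonoidAlgebra.mapDomain_zero]
    · right
      rw [← hy, h, MonoidAlgebra.mapDomain_one]
  rcases hE1' with h | h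
  · left
    rw [h] at hn2
    simp at hn2
    rw [hsum, h, ← hn2]
    simp
  · right
    rw [h] at hn2
    simp at hn2
    rw [hsum, h, hn2]
    simp

end

end Pool.Agent.R723
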