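import Mathlib

/-!
Blocks of group algebras, `φ_M` and `Δ_B`.
All modules are right modules, i.e. modules over the opposite ring.
-/

set_option autoImplicit false

open CategoryTheory

namespace Pool.Agent.R723

universe u

/-- The `k`-algebra `B` is (isomorphic to) a block of the group algebra `kG`: it is a direct factor
of the algebra `kG`, and it is indecomposable as an algebra, i.e. `0 ≠ 1` in `B` and the only
central idempotents of `B` are `0` and `1`. -/
structure IsBlock (k : Type u) [Field k] (G : Type) [Group G] (B : Type u) [Ring B] [Algebra k B] :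
    Prop where
  /-- `B` is a direct factor of `kG` -/
  factor : ∃ (C : Type u) (_ : Ring C) (_ : Algebra k C), Nonempty (MonoidAlgebra k G ≃ₐ[k] B × C)
  /-- `B` is not zero -/
  nontrivial : Nontrivial B
  /-- `B` is not a product of two nonzero algebras -/
  indecomposable : ∀ e : B, e * e = e → (∀ b : B, e * b = b * e) → e = 0 ∨ e = 1

/-- `φ_M = inf {r ≥ 1 : Ext^r_B(M, M) ≠ 0}` for a right `B`-module `M`. -/
noncomputable def phi (B : Type u) [Ring B] (M : Type u) [AddCommGroup M] [Module Bᵐᵒᵖ M] : ℕ∞ :=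
  sInf {x : ℕ∞ | ∃ r : ℕ, 1 ≤ r ∧ x = (r : ℕ∞) ∧
    Nontrivial (Abelian.Ext (ModuleCat.of Bᵐᵒᵖ M) (ModuleCat.of Bᵐᵒᵖ M) r)}

/-- `Δ_B = sup {φ_M : M a finitely generated non-projective right B-module}`. -/
noncomputable def Delta (B : Type u) [Ring B] : ℕ∞ :=
  sSup {x : ℕ∞ | ∃ (M : Type u) (_ : AddCommGroup M) (_ : Module Bᵐᵒᵖ M),
    Module.Finite Bᵐᵒᵖ M ∧ ¬ Module.Projective Bᵐᵒᵖ M ∧ x = phi B M}

/-- `max {φ_S : S a simple right B-module}`. -/
noncomputable def maxPhiSimple (B : Type u) [Ring B] : ℕ∞ :=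
  sSup {x : ℕ∞ | ∃ (S : Type u) (_ : AddCommGroup S) (_ : Module Bᵐᵒᵖ S),
    IsSimpleModule Bᵐᵒᵖ S ∧ x = phi B S}

end Pool.Agent.R723
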