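import Pool.Agent.R723.RDLevels

/-!
# Convolution inequalities: from indicator functions to all functions, with a squared log loss
-/

namespace Pool.Agent.R723.RDConv

open Finset

variable {G : Type*} [Group G]

open Classical in
theorem sum_shift (S Y : Finset G) (f : G → ℝ) (hf : ∀ x, f x ≠ 0 → x ∈ Y) (g : G) :
    ∑ s ∈ S, f (s⁻¹ * g) = ∑ x ∈ Y, (if g * x⁻¹ ∈ S then (1 : ℝ) else 0) * f x := by
  have h1 : ∑ s ∈ S, f (s⁻¹ * g) = ∑ x ∈ S.image (fun s => s⁻¹ * g), f x := by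
    rw [Finset.sum_image]
    intro a _ b _ hab
    simpa using hab
  rw [h1]
  have h2 : ∑ x ∈ Y, (if g * x⁻¹ ∈ S then (1 : ℝ) else 0) * f x
      = ∑ x ∈ Y with g * x⁻¹ ∈ S, f x := by
    rw [Finset.sum_filter]
    refine Finset.sum_congr rfl fun x _ => ?_
    split_ifs <;> simp
  rw [h2]
  have h3 : ∀ x, x ∈ S.image (fun s => s⁻¹ * g) ↔ g * x⁻¹ ∈ S := by
    intro x
    rw [Finset.mem_image]
    constructor
    · rintro ⟨s, hs, rfl⟩
      simpa using hs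
    · intro h
      exact ⟨_, h, by simp⟩
  symm
  apply Finset.sum_subset_zero_on_sdiff
  · intro x hx
    rw [Finset.mem_filter] at hx
    exact (h3 x).2 hx.2
  · intro x hx
    rw [Finset.mem_sdiff, Finset.mem_filter, h3] at hx
    by_contra hne
    exact hx.2 ⟨hf x hne, hx.1⟩
  · intro x _
    rfl

/-- restricted type inequality for the subsets of `Φ`: for all `S ⊆ Φ` and all finite `Y`, `W` -/
def Restr (Φ : Finset G) (A : ℝ) : Prop :=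
  open Classical in
  ∀ S ⊆ Φ, ∀ Y W : Finset G,
    ∑ g ∈ W, (∑ s ∈ S, if s⁻¹ * g ∈ Y then (1 : ℝ) else 0) ^ 2 ≤ A * #S * #Y

open Classical in
theorem step1 {Φ : Finset G} {A : ℝ} (hA : 1 ≤ A) (hR : Restr Φ A) {m : ℕ}
    (hm : (#Φ : ℝ) ≤ 2 ^ m) (S : Finset G) (hS : S ⊆ Φ) (X W : Finset G) (ψ : G → ℝ)
    (hψ : ∀ x, 0 ≤ ψ x) (hX : ∀ x, ψ x ≠ 0 → x ∈ X) :
    ∑ g ∈ W, (∑ s ∈ S, ψ (s⁻¹ * g)) ^ 2
      ≤ (4 * (2 * m + 1) * A + 2) * #S * ∑ x ∈ X, (ψ x) ^ 2 := by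
  set X' := X.filter (fun x => 0 < ψ x) with hX'
  have hX2 : ∀ x, ψ x ≠ 0 → x ∈ X' := by
    intro x hx
    rw [hX', Finset.mem_filter]
    exact ⟨hX x hx, lt_of_le_of_ne (hψ x) (Ne.symm hx)⟩
  set a : G → G → ℝ := fun g x => if g * x⁻¹ ∈ S then (1 : ℝ) else 0 with ha
  have ha0 : ∀ g x, 0 ≤ a g x := by
    intro g x
    rw [ha]; dsimp only
    split_ifs <;> norm_num
  have hind : ∀ Y : Finset G, ∀ g, ∑ x ∈ Y, a g x
      = ∑ s ∈ S, if s⁻¹ * g ∈ Y then (1 : ℝ) else 0 := by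
    intro Y g
    rw [sum_shift S Y (fun x => if x ∈ Y then (1 : ℝ) else 0) (by
      intro x hx
      by_contra h
      simp [h] at hx) g]
    refine Finset.sum_congr rfl fun x hx => ?_
    rw [if_pos hx, mul_one]
  have r1 : ∀ g ∈ W, ∑ x ∈ X', a g x ≤ #S := by
    intro g _
    rw [hind]
    calc ∑ s ∈ S, (if s⁻¹ * g ∈ X' then (1 : ℝ) else 0) ≤ ∑ s ∈ S, (1 : ℝ) := by
          refine Finset.sum_le_sum fun s _ => ?_
          split_ifs <;> norm_num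
      _ = #S := by simp
  have r2 : ∀ x ∈ X', ∑ g ∈ W, a g x ≤ #S := by
    intro x _
    have h1 : ∑ g ∈ W, a g x = #(W.filter (fun g => g * x⁻¹ ∈ S)) := by
      rw [ha]; dsimp only
      rw [← Finset.sum_filter]
      simp
    rw [h1]
    have h2 : #(W.filter (fun g => g * x⁻¹ ∈ S)) ≤ #S := by
      refine Finset.card_le_card_of_injOn (fun g => g * x⁻¹) ?_ ?_
      · intro g hg
        have := (Finset.mem_filter.1 (Finset.mem_coe.1 hg)).2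
        exact this
      · intro g _ g' _ h
        simpa using h
    exact_mod_cast h2
  have e : ∀ Y ⊆ X', ∑ g ∈ W, (∑ x ∈ Y, a g x) ^ 2 ≤ (A * #S) * #Y := by
    intro Y _
    simp_rw [hind]
    exact hR S hS Y W
  have hBL := RDLevels.BL W X' a ha0 (#S) (A * #S) m r1 r2 e ψ
    (fun x hx => (Finset.mem_filter.1 hx).2)
  have hconv : ∀ g, ∑ s ∈ S, ψ (s⁻¹ * g) = ∑ x ∈ X', a g x * ψ x := fun g =>
    sum_shift S X' ψ hX2 g
  simp_rw [hconv]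
  refine hBL.trans ?_
  have h3 : ∑ x ∈ X', (ψ x) ^ 2 ≤ ∑ x ∈ X, (ψ x) ^ 2 :=
    Finset.sum_le_sum_of_subset_of_nonneg (Finset.filter_subset _ _) (fun _ _ _ => sq_nonneg _)
  have hSm : (#S : ℝ) ≤ 2 ^ m := le_trans (by exact_mod_cast Finset.card_le_card hS) hm
  have h4 : (#S : ℝ) ^ 2 / 2 ^ m ≤ #S := by
    rw [div_le_iff₀ (by positivity), sq]
    exact mul_le_mul_of_nonneg_left hSm (by positivity)
  have hA0 : 0 ≤ A := by linarith
  calc (4 * (2 * (m : ℝ) + 1) * (A * #S) + 2 * ((#S : ℝ) ^ 2 / 2 ^ m)) * ∑ x ∈ X', (ψ x) ^ 2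
      ≤ (4 * (2 * (m : ℝ) + 1) * (A * #S) + 2 * #S) * ∑ x ∈ X, (ψ x) ^ 2 := by
        refine mul_le_mul ?_ h3 (Finset.sum_nonneg fun _ _ => sq_nonneg _) (by positivity)
        linarith
    _ = _ := by ring

open Classical in
theorem shift_sq (W X : Finset G) (ψ : G → ℝ) (hX : ∀ x, ψ x ≠ 0 → x ∈ X) (h : G) :
    ∑ g ∈ W, (ψ (h⁻¹ * g)) ^ 2 ≤ ∑ x ∈ X, (ψ x) ^ 2 := by
  have h1 : ∑ g ∈ W, (ψ (h⁻¹ * g)) ^ 2 = ∑ x ∈ W.image (fun g => h⁻¹ * g), (ψ x) ^ 2 := by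
    rw [Finset.sum_image]
    intro a _ b _ hab
    simpa using hab
  rw [h1]
  have h2 : ∑ x ∈ W.image (fun g => h⁻¹ * g), (ψ x) ^ 2
      = ∑ x ∈ W.image (fun g => h⁻¹ * g) with x ∈ X, (ψ x) ^ 2 := by
    rw [Finset.sum_filter]
    refine Finset.sum_congr rfl fun x _ => ?_
    split_ifs with hx
    · rfl
    · by_contra hne
      apply hx
      apply hX
      intro h0
      apply hne
      rw [h0]; norm_num
  rw [h2]
  refine Finset.sum_le_sum_of_subset_of_nonneg ?_ (fun _ _ _ => sq_nonneg _)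
  intro x hx
  exact (Finset.mem_filter.1 hx).2

open Classical in
theorem step2 {Φ : Finset G} {A : ℝ} (hA : 1 ≤ A) (hR : Restr Φ A) {m : ℕ}
    (hm : (#Φ : ℝ) ≤ 2 ^ m) (X W : Finset G) (φ ψ : G → ℝ) (hφ : ∀ h, 0 ≤ φ h)
    (hψ : ∀ x, 0 ≤ ψ x) (hX : ∀ x, ψ x ≠ 0 → x ∈ X) :
    ∑ g ∈ W, (∑ h ∈ Φ, φ h * ψ (h⁻¹ * g)) ^ 2
      ≤ 50 * A * (m + 1) ^ 2 * (∑ h ∈ Φ, (φ h) ^ 2) * ∑ x ∈ X, (ψ x) ^ 2 := by
  set μ : ℝ := Real.sqrt (∑ h ∈ Φ, (φ h) ^ 2) with hμ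
  have hμ2 : μ ^ 2 = ∑ h ∈ Φ, (φ h) ^ 2 :=
    Real.sq_sqrt (Finset.sum_nonneg fun _ _ => sq_nonneg _)
  have hμ0 : 0 ≤ μ := Real.sqrt_nonneg _
  have hle : ∀ h ∈ Φ, φ h ≤ μ := by
    intro h hh
    rw [hμ]
    apply Real.le_sqrt_of_sq_le
    exact Finset.single_le_sum (f := fun h => (φ h) ^ 2) (fun _ _ => sq_nonneg _) hh
  rcases hμ0.eq_or_lt with hz | hpos
  · have h0 : ∀ h ∈ Φ, φ h = 0 := fun h hh => le_antisymm (by rw [hz]; exact hle h hh) (hφ h)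
    have h1 : ∑ g ∈ W, (∑ h ∈ Φ, φ h * ψ (h⁻¹ * g)) ^ 2 = 0 := by
      refine Finset.sum_eq_zero fun g _ => ?_
      rw [Finset.sum_eq_zero (fun h hh => by rw [h0 h hh, zero_mul])]
      norm_num
    rw [h1]
    positivity
  set top : ℤ := Int.log 2 μ with htop
  have htop1 : (2 : ℝ) ^ top ≤ μ := by
    have := Int.zpow_log_le_self (b := 2) (by norm_num) hpos
    simpa using this
  set L : ℕ → Finset G := fun i =>
    Φ.filter (fun h => 0 < φ h ∧ Int.log 2 (φ h) = top - i) with hL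
  set c : ℕ → ℝ := fun i => 2 ^ (top - i + 1) with hc
  have hc0 : ∀ i, 0 ≤ c i := fun i => by rw [hc]; positivity
  -- pointwise domination of φ
  have hdom : ∀ h ∈ Φ, φ h ≤ (∑ i ∈ range (m + 1), c i * (if h ∈ L i then 1 else 0))
      + μ / 2 ^ m := by
    intro h hh
    have hs0 : 0 ≤ ∑ i ∈ range (m + 1), c i * (if h ∈ L i then (1 : ℝ) else 0) := by
      refine Finset.sum_nonneg fun i _ => mul_nonneg (hc0 i) ?_
      split_ifs <;> norm_num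
    rcases (hφ h).eq_or_lt with h0 | h0
    · rw [← h0]; positivity
    have hk : Int.log 2 (φ h) ≤ top := Int.log_mono_right h0 (hle h hh)
    have hup : φ h < (2 : ℝ) ^ (Int.log 2 (φ h) + 1) := by
      have := Int.lt_zpow_succ_log_self (b := 2) (by norm_num) (φ h)
      simpa using this
    rcases le_or_gt (top - m) (Int.log 2 (φ h)) with hc1 | hc1
    · set i : ℕ := (top - Int.log 2 (φ h)).toNat with hi
      have hi2 : (i : ℤ) = top - Int.log 2 (φ h) := by rw [hi]; omega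
      have hmem : h ∈ L i := by
        rw [hL]; dsimp only
        rw [Finset.mem_filter]
        exact ⟨hh, h0, by omega⟩
      have h1 : c i * (if h ∈ L i then (1 : ℝ) else 0)
          ≤ ∑ i ∈ range (m + 1), c i * (if h ∈ L i then (1 : ℝ) else 0) := by
        refine Finset.single_le_sum (f := fun i => c i * (if h ∈ L i then (1 : ℝ) else 0))
          (fun j _ => mul_nonneg (hc0 j) ?_) ?_
        · split_ifs <;> norm_num
        · rw [Finset.mem_range]; omega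
      rw [if_pos hmem, mul_one] at h1
      have h2 : φ h ≤ c i := by
        rw [hc]; dsimp only
        have : top - (i : ℤ) + 1 = Int.log 2 (φ h) + 1 := by omega
        rw [this]; exact hup.le
      have h3 : 0 ≤ μ / 2 ^ m := by positivity
      linarith
    · have h1 : φ h ≤ (2 : ℝ) ^ (top - m) :=
        hup.le.trans (zpow_le_zpow_right₀ (by norm_num) (by omega))
      have h2 : (2 : ℝ) ^ (top - m) ≤ μ / 2 ^ m := by
        rw [zpow_sub₀ (by norm_num : (2 : ℝ) ≠ 0), zpow_natCast]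
        exact div_le_div_of_nonneg_right htop1 (by positivity)
      linarith
  -- pointwise domination of the convolution
  have hLsub : ∀ i, L i ⊆ Φ := fun i => Finset.filter_subset _ _
  have hconv : ∀ g, ∑ h ∈ Φ, φ h * ψ (h⁻¹ * g)
      ≤ (∑ i ∈ range (m + 1), c i * ∑ h ∈ L i, ψ (h⁻¹ * g))
        + μ / 2 ^ m * ∑ h ∈ Φ, ψ (h⁻¹ * g) := by
    intro g
    have h1 : ∑ h ∈ Φ, φ h * ψ (h⁻¹ * g)
        ≤ ∑ h ∈ Φ, ((∑ i ∈ range (m + 1), c i * (if h ∈ L i then 1 else 0))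
          + μ / 2 ^ m) * ψ (h⁻¹ * g) :=
      Finset.sum_le_sum fun h hh => mul_le_mul_of_nonneg_right (hdom h hh) (hψ _)
    refine h1.trans (le_of_eq ?_)
    simp_rw [add_mul]
    rw [Finset.sum_add_distrib, ← Finset.mul_sum]
    congr 1
    simp_rw [Finset.sum_mul]
    rw [Finset.sum_comm]
    refine Finset.sum_congr rfl fun i _ => ?_
    rw [Finset.mul_sum]
    have h2 : ∑ h ∈ L i, c i * ψ (h⁻¹ * g)
        = ∑ h ∈ Φ, if h ∈ L i then c i * ψ (h⁻¹ * g) else 0 := by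
      rw [← Finset.sum_filter]
      congr 1
      ext h
      exact ⟨fun h3 => Finset.mem_filter.2 ⟨hLsub i h3, h3⟩,
        fun h3 => (Finset.mem_filter.1 h3).2⟩
    rw [h2]
    refine Finset.sum_congr rfl fun h _ => ?_
    split_ifs <;> simp
  set C1 : ℝ := 4 * (2 * m + 1) * A + 2 with hC1
  set Q : ℝ := ∑ x ∈ X, (ψ x) ^ 2 with hQ
  have hQ0 : 0 ≤ Q := Finset.sum_nonneg fun _ _ => sq_nonneg _
  have hA0 : 0 ≤ A := by linarith
  have hC10 : 0 ≤ C1 := by rw [hC1]; positivity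
  have hsq : ∀ g, (∑ h ∈ Φ, φ h * ψ (h⁻¹ * g)) ^ 2
      ≤ (m + 2) * (∑ i ∈ range (m + 1), (c i * ∑ h ∈ L i, ψ (h⁻¹ * g)) ^ 2
        + (μ / 2 ^ m * ∑ h ∈ Φ, ψ (h⁻¹ * g)) ^ 2) := by
    intro g
    have h0 : 0 ≤ ∑ h ∈ Φ, φ h * ψ (h⁻¹ * g) :=
      Finset.sum_nonneg fun h _ => mul_nonneg (hφ h) (hψ _)
    have h1 := pow_le_pow_left₀ h0 (hconv g) 2
    refine h1.trans ?_
    have h2 : (∑ i ∈ range (m + 1), c i * ∑ h ∈ L i, ψ (h⁻¹ * g)) ^ 2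
        ≤ (m + 1) * ∑ i ∈ range (m + 1), (c i * ∑ h ∈ L i, ψ (h⁻¹ * g)) ^ 2 := by
      have := sq_sum_le_card_mul_sum_sq (s := range (m + 1))
        (f := fun i => c i * ∑ h ∈ L i, ψ (h⁻¹ * g))
      rw [Finset.card_range] at this
      push_cast at this
      exact this
    set u := ∑ i ∈ range (m + 1), c i * ∑ h ∈ L i, ψ (h⁻¹ * g)
    set v := μ / 2 ^ m * ∑ h ∈ Φ, ψ (h⁻¹ * g)
    set w := ∑ i ∈ range (m + 1), (c i * ∑ h ∈ L i, ψ (h⁻¹ * g)) ^ 2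
    have hm0 : (0 : ℝ) < m + 1 := by positivity
    -- (u+v)^2 ≤ (m+2) (u^2/(m+1) + v^2)
    have h3 : (u + v) ^ 2 ≤ (m + 2) * (u ^ 2 / (m + 1) + v ^ 2) := by
      have h4 : (m + 2) * (u ^ 2 / (m + 1) + v ^ 2) - (u + v) ^ 2
          = (u - (m + 1) * v) ^ 2 / (m + 1) := by
        field_simp
        ring
      have h5 : 0 ≤ (u - (m + 1) * v) ^ 2 / ((m : ℝ) + 1) := by positivity
      linarith
    have h6 : u ^ 2 / (m + 1) ≤ w := by
      rw [div_le_iff₀ hm0]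
      linarith
    have h7 : (0 : ℝ) ≤ m + 2 := by positivity
    calc (u + v) ^ 2 ≤ (m + 2) * (u ^ 2 / (m + 1) + v ^ 2) := h3
      _ ≤ (m + 2) * (w + v ^ 2) := mul_le_mul_of_nonneg_left (by linarith) h7
  have hlev : ∀ i, ∑ g ∈ W, (c i * ∑ h ∈ L i, ψ (h⁻¹ * g)) ^ 2
      ≤ 4 * C1 * Q * ∑ h ∈ L i, (φ h) ^ 2 := by
    intro i
    simp_rw [mul_pow]
    rw [← Finset.mul_sum]
    have h1 := step1 hA hR hm (L i) (hLsub i) X W ψ hψ hX
    have h2 : (#(L i) : ℝ) * (2 ^ (top - i)) ^ 2 ≤ ∑ h ∈ L i, (φ h) ^ 2 := by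
      rw [← nsmul_eq_mul, ← Finset.sum_const]
      refine Finset.sum_le_sum fun h hh => ?_
      rw [hL] at hh; dsimp only at hh
      rw [Finset.mem_filter] at hh
      have h3 := Int.zpow_log_le_self (b := 2) (by norm_num) hh.2.1
      rw [hh.2.2] at h3
      exact pow_le_pow_left₀ (by positivity) (by simpa using h3) 2
    calc (c i) ^ 2 * ∑ g ∈ W, (∑ h ∈ L i, ψ (h⁻¹ * g)) ^ 2
        ≤ (c i) ^ 2 * (C1 * #(L i) * Q) := mul_le_mul_of_nonneg_left h1 (sq_nonneg _)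
      _ = 4 * C1 * Q * (#(L i) * (2 ^ (top - i)) ^ 2) := by
          rw [hc]; dsimp only
          rw [zpow_add_one₀ (by norm_num : (2 : ℝ) ≠ 0)]
          ring
      _ ≤ _ := mul_le_mul_of_nonneg_left h2 (by positivity)
  have hdisj : ∑ i ∈ range (m + 1), ∑ h ∈ L i, (φ h) ^ 2 ≤ ∑ h ∈ Φ, (φ h) ^ 2 := by
    have h1 : ∀ i, ∑ h ∈ L i, (φ h) ^ 2 = ∑ h ∈ Φ, if h ∈ L i then (φ h) ^ 2 else 0 := by
      intro i
      rw [← Finset.sum_filter]
      congr 1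
      ext h
      exact ⟨fun h3 => Finset.mem_filter.2 ⟨hLsub i h3, h3⟩,
        fun h3 => (Finset.mem_filter.1 h3).2⟩
    simp_rw [h1]
    rw [Finset.sum_comm]
    refine Finset.sum_le_sum fun h _ => ?_
    rw [← Finset.sum_filter, Finset.sum_const, nsmul_eq_mul]
    have h2 : #((range (m + 1)).filter (fun i => h ∈ L i)) ≤ 1 := by
      rw [Finset.card_le_one]
      intro i hi j hj
      have h3 := (Finset.mem_filter.1 hi).2
      have h4 := (Finset.mem_filter.1 hj).2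
      rw [hL] at h3 h4; dsimp only at h3 h4
      have h5 := (Finset.mem_filter.1 h3).2.2
      have h6 := (Finset.mem_filter.1 h4).2.2
      omega
    have h3 : (#((range (m + 1)).filter (fun i => h ∈ L i)) : ℝ) ≤ 1 := by exact_mod_cast h2
    calc _ ≤ 1 * (φ h) ^ 2 := mul_le_mul_of_nonneg_right h3 (sq_nonneg _)
      _ = _ := one_mul _
  have hrem : ∑ g ∈ W, (μ / 2 ^ m * ∑ h ∈ Φ, ψ (h⁻¹ * g)) ^ 2 ≤ μ ^ 2 * Q := by
    have h1 : ∑ g ∈ W, (∑ h ∈ Φ, ψ (h⁻¹ * g)) ^ 2 ≤ (#Φ : ℝ) ^ 2 * Q := by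
      calc ∑ g ∈ W, (∑ h ∈ Φ, ψ (h⁻¹ * g)) ^ 2
          ≤ ∑ g ∈ W, #Φ * ∑ h ∈ Φ, (ψ (h⁻¹ * g)) ^ 2 :=
            Finset.sum_le_sum fun g _ => sq_sum_le_card_mul_sum_sq
        _ = #Φ * ∑ h ∈ Φ, ∑ g ∈ W, (ψ (h⁻¹ * g)) ^ 2 := by
            rw [← Finset.mul_sum, Finset.sum_comm]
        _ ≤ #Φ * ∑ h ∈ Φ, Q := by
            refine mul_le_mul_of_nonneg_left ?_ (by positivity)
            exact Finset.sum_le_sum fun h _ => shift_sq W X ψ hX h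
        _ = _ := by rw [Finset.sum_const, nsmul_eq_mul]; ring
    simp_rw [mul_pow]
    rw [← Finset.mul_sum]
    have h2 : (μ / 2 ^ m) ^ 2 * (#Φ : ℝ) ^ 2 ≤ μ ^ 2 := by
      rw [div_pow, div_mul_eq_mul_div, div_le_iff₀ (by positivity)]
      exact mul_le_mul_of_nonneg_left (pow_le_pow_left₀ (by positivity) hm 2) (sq_nonneg _)
    calc (μ / 2 ^ m) ^ 2 * ∑ g ∈ W, (∑ h ∈ Φ, ψ (h⁻¹ * g)) ^ 2
        ≤ (μ / 2 ^ m) ^ 2 * ((#Φ : ℝ) ^ 2 * Q) :=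
          mul_le_mul_of_nonneg_left h1 (sq_nonneg _)
      _ = ((μ / 2 ^ m) ^ 2 * (#Φ : ℝ) ^ 2) * Q := by ring
      _ ≤ _ := mul_le_mul_of_nonneg_right h2 hQ0
  have htot : ∑ g ∈ W, (∑ h ∈ Φ, φ h * ψ (h⁻¹ * g)) ^ 2
      ≤ (m + 2) * (4 * C1 * Q * μ ^ 2 + μ ^ 2 * Q) := by
    calc ∑ g ∈ W, (∑ h ∈ Φ, φ h * ψ (h⁻¹ * g)) ^ 2
        ≤ ∑ g ∈ W, (m + 2) * (∑ i ∈ range (m + 1), (c i * ∑ h ∈ L i, ψ (h⁻¹ * g)) ^ 2
        + (μ / 2 ^ m * ∑ h ∈ Φ, ψ (h⁻¹ * g)) ^ 2) := Finset.sum_le_sum fun g _ => hsq g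
      _ = (m + 2) * (∑ i ∈ range (m + 1), ∑ g ∈ W, (c i * ∑ h ∈ L i, ψ (h⁻¹ * g)) ^ 2
        + ∑ g ∈ W, (μ / 2 ^ m * ∑ h ∈ Φ, ψ (h⁻¹ * g)) ^ 2) := by
          rw [← Finset.mul_sum, Finset.sum_add_distrib, Finset.sum_comm]
      _ ≤ (m + 2) * (∑ i ∈ range (m + 1), 4 * C1 * Q * ∑ h ∈ L i, (φ h) ^ 2
        + μ ^ 2 * Q) := by
          refine mul_le_mul_of_nonneg_left ?_ (by positivity)
          exact add_le_add (Finset.sum_le_sum fun i _ => hlev i) hrem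
      _ ≤ _ := by
          refine mul_le_mul_of_nonneg_left ?_ (by positivity)
          refine add_le_add ?_ le_rfl
          rw [← Finset.mul_sum]
          refine mul_le_mul_of_nonneg_left ?_ (by positivity)
          rw [hμ2]; exact hdisj
  refine htot.trans ?_
  rw [← hμ2]
  have hfin : ((m : ℝ) + 2) * (4 * C1 + 1) ≤ 50 * A * (m + 1) ^ 2 := by
    rw [hC1]
    have hm0 : (0 : ℝ) ≤ m := by positivity
    nlinarith [mul_nonneg hm0 hm0, mul_nonneg (sub_nonneg.2 hA) hm0,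
      mul_nonneg (mul_nonneg (sub_nonneg.2 hA) hm0) hm0, mul_nonneg hA0 hm0,
      mul_nonneg (mul_nonneg hA0 hm0) hm0]
  calc ((m : ℝ) + 2) * (4 * C1 * Q * μ ^ 2 + μ ^ 2 * Q)
      = (((m : ℝ) + 2) * (4 * C1 + 1)) * (μ ^ 2 * Q) := by ring
    _ ≤ (50 * A * (m + 1) ^ 2) * (μ ^ 2 * Q) :=
        mul_le_mul_of_nonneg_right hfin (by positivity)
    _ = _ := by ring

end Pool.Agent.R723.RDConv
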