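import Mathlib

/-!
# A converse expander mixing lemma (Bilu–Linial type) for rectangular nonnegative kernels

If a nonnegative kernel `a` has row and column sums at most `N` and is of restricted type with
constant `B` (on indicator functions), then it is bounded with a loss logarithmic in `N`.
-/

namespace Pool.Agent.R723.RDLevels

open Finset

/-- levels: near/far splitting -/
theorem sq_split {β : Type*} (X : Finset β) (f : β → ℝ)
    (lv : β → ℤ) (m : ℕ) :
    (∑ x ∈ X, f x) ^ 2 ≤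
      (2 * m + 1) * ∑ i ∈ X.image lv, (∑ x ∈ X with lv x = i, f x) ^ 2
      + 2 * ∑ x ∈ X, ∑ y ∈ X with lv y < lv x - m, f x * f y := by
  classical
  set F : ℤ → ℝ := fun i => ∑ x ∈ X with lv x = i, f x with hF
  set I := X.image lv with hI
  have hmaps : ∀ x ∈ X, lv x ∈ I := fun x hx => Finset.mem_image_of_mem lv hx
  have hnear : ∑ x ∈ X, ∑ y ∈ X with |lv x - lv y| ≤ m, f x * f y
      ≤ (2 * m + 1) * ∑ i ∈ I, (F i) ^ 2 := by
    have h1 : ∑ x ∈ X, ∑ y ∈ X with |lv x - lv y| ≤ m, f x * f y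
        = ∑ i ∈ I, ∑ j ∈ I with |i - j| ≤ m, F i * F j := by
      rw [← Finset.sum_fiberwise_of_maps_to hmaps]
      refine Finset.sum_congr rfl fun i hi => ?_
      have h2 : ∀ x ∈ X.filter (fun x => lv x = i),
          ∑ y ∈ X with |lv x - lv y| ≤ m, f x * f y
            = ∑ j ∈ I with |i - j| ≤ m, f x * F j := by
        intro x hx
        rw [Finset.mem_filter] at hx
        have hmaps2 : ∀ y ∈ X.filter (fun y => |lv x - lv y| ≤ m),
            lv y ∈ I.filter (fun j => |i - j| ≤ m) := by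
          intro y hy
          rw [Finset.mem_filter] at hy ⊢
          refine ⟨hmaps y hy.1, ?_⟩
          rw [← hx.2]; exact hy.2
        rw [← Finset.sum_fiberwise_of_maps_to hmaps2]
        refine Finset.sum_congr rfl fun j hj => ?_
        rw [Finset.mem_filter] at hj
        rw [← Finset.mul_sum]
        congr 1
        rw [hF]
        refine Finset.sum_congr ?_ fun _ _ => rfl
        ext y
        simp only [Finset.mem_filter]
        constructor
        · rintro ⟨⟨h3, _⟩, h4⟩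
          exact ⟨h3, h4⟩
        · rintro ⟨h3, h4⟩
          refine ⟨⟨h3, ?_⟩, h4⟩
          rw [hx.2, h4]; exact hj.2
      rw [Finset.sum_congr rfl h2, Finset.sum_comm]
      refine Finset.sum_congr rfl fun j hj => ?_
      rw [← Finset.sum_mul]
    rw [h1]
    have h3 : ∑ i ∈ I, ∑ j ∈ I with |i - j| ≤ m, F i * F j
        ≤ ∑ i ∈ I, ∑ j ∈ I with |i - j| ≤ m, ((F i) ^ 2 + (F j) ^ 2) / 2 := by
      refine Finset.sum_le_sum fun i _ => Finset.sum_le_sum fun j _ => ?_
      nlinarith [sq_nonneg (F i - F j)]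
    have h4 : ∑ i ∈ I, ∑ j ∈ I with |i - j| ≤ m, ((F i) ^ 2 + (F j) ^ 2) / 2
        = ∑ i ∈ I, ∑ j ∈ I with |i - j| ≤ m, (F i) ^ 2 := by
      have h5 : ∑ i ∈ I, ∑ j ∈ I with |i - j| ≤ m, (F j) ^ 2
          = ∑ i ∈ I, ∑ j ∈ I with |i - j| ≤ m, (F i) ^ 2 := by
        simp_rw [Finset.sum_filter]
        rw [Finset.sum_comm]
        refine Finset.sum_congr rfl fun i _ => Finset.sum_congr rfl fun j _ => ?_
        rw [abs_sub_comm]
      have h6 : ∑ i ∈ I, ∑ j ∈ I with |i - j| ≤ m, ((F i) ^ 2 + (F j) ^ 2) / 2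
          = (∑ i ∈ I, ∑ j ∈ I with |i - j| ≤ m, (F i) ^ 2
            + ∑ i ∈ I, ∑ j ∈ I with |i - j| ≤ m, (F j) ^ 2) / 2 := by
        simp_rw [← Finset.sum_div, Finset.sum_add_distrib]
      rw [h6, h5]; ring
    have h7 : ∑ i ∈ I, ∑ j ∈ I with |i - j| ≤ m, (F i) ^ 2
        ≤ ∑ i ∈ I, (2 * m + 1) * (F i) ^ 2 := by
      refine Finset.sum_le_sum fun i _ => ?_
      rw [Finset.sum_const, nsmul_eq_mul]
      refine mul_le_mul_of_nonneg_right ?_ (sq_nonneg _)
      have h8 : I.filter (fun j => |i - j| ≤ (m : ℤ)) ⊆ Finset.Icc (i - m) (i + m) := by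
        intro j hj
        rw [Finset.mem_filter, abs_le] at hj
        rw [Finset.mem_Icc]
        constructor <;> linarith [hj.2.1, hj.2.2]
      have h9 := Finset.card_le_card h8
      rw [Int.card_Icc] at h9
      have h10 : (i + m + 1 - (i - m)).toNat = 2 * m + 1 := by omega
      rw [h10] at h9
      exact_mod_cast h9
    rw [← Finset.mul_sum] at h7
    linarith
  have hsq : (∑ x ∈ X, f x) ^ 2 = ∑ x ∈ X, ∑ y ∈ X, f x * f y := by
    rw [sq, Finset.sum_mul_sum]
  have hsplit : ∀ x ∈ X, ∑ y ∈ X, f x * f y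
      = ∑ y ∈ X with |lv x - lv y| ≤ m, f x * f y
        + (∑ y ∈ X with lv y < lv x - m, f x * f y
          + ∑ y ∈ X with lv x < lv y - m, f x * f y) := by
    intro x _
    simp_rw [Finset.sum_filter]
    rw [← Finset.sum_add_distrib, ← Finset.sum_add_distrib]
    refine Finset.sum_congr rfl fun y _ => ?_
    rcases le_or_gt (|lv x - lv y|) (m : ℤ) with h | h
    · rw [if_pos h]
      rw [abs_le] at h
      rw [if_neg (by omega), if_neg (by omega)]
      ring
    · rw [if_neg (not_le.mpr h)]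
      rw [lt_abs] at h
      rcases h with h | h
      · rw [if_pos (by omega), if_neg (by omega)]
        ring
      · rw [if_neg (by omega), if_pos (by omega)]
        ring
  have hsymm : ∑ x ∈ X, ∑ y ∈ X with lv x < lv y - m, f x * f y
      = ∑ x ∈ X, ∑ y ∈ X with lv y < lv x - m, f x * f y := by
    simp_rw [Finset.sum_filter]
    rw [Finset.sum_comm]
    refine Finset.sum_congr rfl fun i _ => Finset.sum_congr rfl fun j _ => ?_
    rw [mul_comm (f j) (f i)]
  rw [hsq, Finset.sum_congr rfl hsplit, Finset.sum_add_distrib, Finset.sum_add_distrib, hsymm]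
  linarith

theorem BL {α β : Type*} (W : Finset α) (X : Finset β) (a : α → β → ℝ)
    (ha : ∀ g x, 0 ≤ a g x) (N B : ℝ) (m : ℕ)
    (r1 : ∀ g ∈ W, ∑ x ∈ X, a g x ≤ N) (r2 : ∀ x ∈ X, ∑ g ∈ W, a g x ≤ N)
    (e : ∀ Y ⊆ X, ∑ g ∈ W, (∑ x ∈ Y, a g x) ^ 2 ≤ B * #Y)
    (ψ : β → ℝ) (hψ : ∀ x ∈ X, 0 < ψ x) :
    ∑ g ∈ W, (∑ x ∈ X, a g x * ψ x) ^ 2
      ≤ (4 * (2 * m + 1) * B + 2 * (N ^ 2 / 2 ^ m)) * ∑ x ∈ X, (ψ x) ^ 2 := by
  classical
  set lv : β → ℤ := fun x => Int.log 2 (ψ x) with hlv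
  have hlow : ∀ x ∈ X, (2 : ℝ) ^ (lv x) ≤ ψ x := by
    intro x hx
    have := Int.zpow_log_le_self (b := 2) (by norm_num) (hψ x hx)
    simpa using this
  have hup : ∀ x, ψ x < (2 : ℝ) ^ (lv x + 1) := by
    intro x
    have := Int.lt_zpow_succ_log_self (b := 2) (by norm_num) (ψ x)
    simpa using this
  have h0 : ∑ g ∈ W, (∑ x ∈ X, a g x * ψ x) ^ 2
      ≤ ∑ g ∈ W, ((2 * m + 1) * ∑ i ∈ X.image lv, (∑ x ∈ X with lv x = i, a g x * ψ x) ^ 2
      + 2 * ∑ x ∈ X, ∑ y ∈ X with lv y < lv x - m, (a g x * ψ x) * (a g y * ψ y)) := by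
    refine Finset.sum_le_sum fun g _ => ?_
    exact sq_split X (fun x => a g x * ψ x) lv m
  -- near part
  have h1 : ∑ g ∈ W, ∑ i ∈ X.image lv, (∑ x ∈ X with lv x = i, a g x * ψ x) ^ 2
      ≤ 4 * B * ∑ x ∈ X, (ψ x) ^ 2 := by
    rw [Finset.sum_comm]
    have h2 : ∀ i ∈ X.image lv, ∑ g ∈ W, (∑ x ∈ X with lv x = i, a g x * ψ x) ^ 2
        ≤ 4 * B * ∑ x ∈ X with lv x = i, (ψ x) ^ 2 := by
      intro i _
      have hB : 0 ≤ B * #(X.filter (fun x => lv x = i)) :=
        le_trans (Finset.sum_nonneg fun g _ => sq_nonneg _) (e _ (Finset.filter_subset _ _))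
      have h3 : ∑ g ∈ W, (∑ x ∈ X with lv x = i, a g x * ψ x) ^ 2
          ≤ ∑ g ∈ W, (2 ^ (i + 1)) ^ 2 * (∑ x ∈ X with lv x = i, a g x) ^ 2 := by
        refine Finset.sum_le_sum fun g _ => ?_
        rw [← mul_pow]
        refine pow_le_pow_left₀ ?_ ?_ 2
        · refine Finset.sum_nonneg fun x hx => ?_
          rw [Finset.mem_filter] at hx
          exact mul_nonneg (ha g x) (hψ x hx.1).le
        · rw [Finset.mul_sum]
          refine Finset.sum_le_sum fun x hx => ?_
          rw [Finset.mem_filter] at hx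
          have := (hup x).le
          rw [hx.2] at this
          rw [mul_comm]
          exact mul_le_mul_of_nonneg_right this (ha g x)
      rw [← Finset.mul_sum] at h3
      have h4 := e (X.filter (fun x => lv x = i)) (Finset.filter_subset _ _)
      have h5 : (#(X.filter (fun x => lv x = i)) : ℝ) * (2 ^ i) ^ 2
          ≤ ∑ x ∈ X with lv x = i, (ψ x) ^ 2 := by
        rw [← nsmul_eq_mul, ← Finset.sum_const]
        refine Finset.sum_le_sum fun x hx => ?_
        rw [Finset.mem_filter] at hx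
        have := hlow x hx.1
        rw [hx.2] at this
        exact pow_le_pow_left₀ (by positivity) this 2
      rcases Nat.eq_zero_or_pos (#(X.filter (fun x => lv x = i))) with hz | hz
      · rw [Finset.card_eq_zero] at hz
        rw [hz]
        simp
      · have hBpos : 0 ≤ B := by
          have : (0 : ℝ) < #(X.filter (fun x => lv x = i)) := by exact_mod_cast hz
          exact le_of_mul_le_mul_right (by simpa using hB) this
        calc ∑ g ∈ W, (∑ x ∈ X with lv x = i, a g x * ψ x) ^ 2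
            ≤ (2 ^ (i + 1)) ^ 2 * ∑ g ∈ W, (∑ x ∈ X with lv x = i, a g x) ^ 2 := h3
          _ ≤ (2 ^ (i + 1)) ^ 2 * (B * #(X.filter (fun x => lv x = i))) :=
              mul_le_mul_of_nonneg_left h4 (by positivity)
          _ = 4 * B * (#(X.filter (fun x => lv x = i)) * (2 ^ i) ^ 2) := by
              rw [zpow_add_one₀ (by norm_num : (2 : ℝ) ≠ 0)]
              ring
          _ ≤ _ := mul_le_mul_of_nonneg_left h5 (by positivity)
    refine le_trans (Finset.sum_le_sum h2) ?_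
    rw [← Finset.mul_sum, Finset.sum_fiberwise_of_maps_to
      (fun x hx => Finset.mem_image_of_mem lv hx)]
  -- far part
  have h6 : ∑ g ∈ W, ∑ x ∈ X, ∑ y ∈ X with lv y < lv x - m, (a g x * ψ x) * (a g y * ψ y)
      ≤ N ^ 2 / 2 ^ m * ∑ x ∈ X, (ψ x) ^ 2 := by
    have h7 : ∀ g ∈ W, ∀ x ∈ X,
        ∑ y ∈ X with lv y < lv x - m, (a g x * ψ x) * (a g y * ψ y)
          ≤ a g x * ((ψ x) ^ 2 / 2 ^ m * N) := by
      intro g hg x hx
      have h8 : ∑ y ∈ X with lv y < lv x - m, (a g x * ψ x) * (a g y * ψ y)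
          ≤ ∑ y ∈ X with lv y < lv x - m, (a g x * (ψ x ^ 2 / 2 ^ m)) * a g y := by
        refine Finset.sum_le_sum fun y hy => ?_
        rw [Finset.mem_filter] at hy
        have h9 : ψ y ≤ ψ x / 2 ^ m := by
          have h10 : ψ y ≤ 2 ^ (lv x - m) :=
            (hup y).le.trans (zpow_le_zpow_right₀ (by norm_num) (by omega))
          refine h10.trans ?_
          rw [zpow_sub₀ (by norm_num : (2 : ℝ) ≠ 0), zpow_natCast]
          exact div_le_div_of_nonneg_right (hlow x hx) (by positivity)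
        have h11 : 0 ≤ a g x * ψ x * a g y :=
          mul_nonneg (mul_nonneg (ha g x) (hψ x hx).le) (ha g y)
        calc a g x * ψ x * (a g y * ψ y) = (a g x * ψ x * a g y) * ψ y := by ring
          _ ≤ (a g x * ψ x * a g y) * (ψ x / 2 ^ m) := mul_le_mul_of_nonneg_left h9 h11
          _ = _ := by ring
      refine h8.trans ?_
      rw [← Finset.mul_sum]
      have h12 : ∑ y ∈ X with lv y < lv x - m, a g y ≤ N :=
        le_trans (Finset.sum_le_sum_of_subset_of_nonneg (Finset.filter_subset _ _)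
          (fun y _ _ => ha g y)) (r1 g hg)
      have h13 : 0 ≤ a g x * (ψ x ^ 2 / 2 ^ m) := mul_nonneg (ha g x) (by positivity)
      calc a g x * (ψ x ^ 2 / 2 ^ m) * ∑ y ∈ X with lv y < lv x - m, a g y
          ≤ a g x * (ψ x ^ 2 / 2 ^ m) * N := mul_le_mul_of_nonneg_left h12 h13
        _ = _ := by ring
    have h14 : ∑ g ∈ W, ∑ x ∈ X, ∑ y ∈ X with lv y < lv x - m,
        (a g x * ψ x) * (a g y * ψ y) ≤ ∑ g ∈ W, ∑ x ∈ X, a g x * ((ψ x) ^ 2 / 2 ^ m * N) :=
      Finset.sum_le_sum fun g hg => Finset.sum_le_sum fun x hx => h7 g hg x hx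
    refine h14.trans ?_
    rw [Finset.sum_comm, Finset.mul_sum]
    refine Finset.sum_le_sum fun x hx => ?_
    rw [← Finset.sum_mul]
    have hN : 0 ≤ N := le_trans (Finset.sum_nonneg fun g _ => ha g x) (r2 x hx)
    calc (∑ g ∈ W, a g x) * ((ψ x) ^ 2 / 2 ^ m * N)
        ≤ N * ((ψ x) ^ 2 / 2 ^ m * N) :=
          mul_le_mul_of_nonneg_right (r2 x hx) (by positivity)
      _ = _ := by ring
  rw [Finset.sum_add_distrib, ← Finset.mul_sum, ← Finset.mul_sum] at h0
  have h15 : (2 * (m : ℝ) + 1) *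
      ∑ g ∈ W, ∑ i ∈ X.image lv, (∑ x ∈ X with lv x = i, a g x * ψ x) ^ 2
      ≤ (2 * m + 1) * (4 * B * ∑ x ∈ X, (ψ x) ^ 2) :=
    mul_le_mul_of_nonneg_left h1 (by positivity)
  calc _ ≤ _ := h0
    _ ≤ (2 * m + 1) * (4 * B * ∑ x ∈ X, (ψ x) ^ 2)
        + 2 * (N ^ 2 / 2 ^ m * ∑ x ∈ X, (ψ x) ^ 2) := by linarith
    _ = _ := by ring

end Pool.Agent.R723.RDLevels
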