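import Pool.Agent.R723.RainbowTree

/-!
Counting the colourings whose classes have pairwise disjoint colour sets.
-/

namespace Pool.Agent.R723.RB

open SimpleGraph

/-- different classes get different colours -/
def Good {C F : Type} {c : ℕ} (ψ : C × F → Fin c) : Prop :=
  ∀ e f : C × F, e.1 ≠ f.1 → ψ e ≠ ψ f

/-- lower bound: bijections between classes and colours -/
lemma good_lower {C F : Type} [Fintype C] [Fintype F] [Nonempty F] {c : ℕ}
    (hc : Fintype.card C = c) :
    Nat.factorial c ≤ Nat.card {ψ : C × F → Fin c // Good ψ} := by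
  classical
  have e0 : C ≃ Fin c := Fintype.equivFinOfCardEq hc
  have h1 : Nat.card (C ≃ Fin c) = Nat.factorial c := by
    rw [Nat.card_eq_fintype_card, Fintype.card_equiv e0, hc]
  rw [← h1]
  apply Nat.card_le_card_of_injective
    (fun σ : C ≃ Fin c => (⟨fun e => σ e.1, fun e f h h' => h (σ.injective h')⟩ :
      {ψ : C × F → Fin c // Good ψ}))
  intro σ τ h
  have h2 := congrArg Subtype.val h
  ext x
  obtain ⟨s⟩ := (inferInstance : Nonempty F)
  have h3 := congrFun h2 (x, s)
  exact congrArg Fin.val h3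

/-- upper bound -/
lemma good_upper {C F : Type} [Fintype C] [Fintype F] [Nonempty F] [Nonempty C] {c : ℕ}
    (hc : Fintype.card C = c) :
    Nat.card {ψ : C × F → Fin (c + 1) // Good ψ}
      ≤ Nat.factorial (c + 1) * (c * 2 ^ Fintype.card F) := by
  classical
  obtain ⟨s0⟩ := (inferInstance : Nonempty F)
  obtain ⟨x0⟩ := (inferInstance : Nonempty C)
  -- the missing colour of an injection
  have hz : ∀ g : C ↪ Fin (c + 1), ∃ z : Fin (c + 1), ∀ w, w ∉ Set.range g ↔ w = z := by
    intro g
    have hcard : ((Finset.univ.image g)ᶜ : Finset (Fin (c + 1))).card = 1 := by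
      rw [Finset.card_compl, Finset.card_image_of_injective _ g.injective, Fintype.card_fin,
        Finset.card_univ, hc]
      omega
    obtain ⟨z, hz⟩ := Finset.card_eq_one.mp hcard
    refine ⟨z, fun w => ?_⟩
    have : w ∈ ((Finset.univ.image g)ᶜ : Finset (Fin (c + 1))) ↔ w = z := by
      rw [hz, Finset.mem_singleton]
    rw [← this]
    simp
  choose z hz using hz
  let dec : (C ↪ Fin (c + 1)) × (C × (F → Bool)) → (C × F → Fin (c + 1)) := fun a e =>
    if e.1 = a.2.1 ∧ a.2.2 e.2 = true then z a.1 else a.1 e.1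
  have hsurj : ∀ ψ : C × F → Fin (c + 1), Good ψ → ∃ a, dec a = ψ := by
    intro ψ hψ
    let g : C ↪ Fin (c + 1) := ⟨fun x => ψ (x, s0), by
      intro x y h
      by_contra hxy
      exact hψ (x, s0) (y, s0) hxy h⟩
    have hg : ∀ x, g x = ψ (x, s0) := fun _ => rfl
    have hout : ∀ x s, ψ (x, s) ≠ g x → ψ (x, s) = z g := by
      intro x s h
      rw [← hz]
      rintro ⟨y, hy⟩
      by_cases hxy : x = y
      · subst hxy; exact h hy.symm
      · exact hψ (x, s) (y, s0) hxy (by rw [← hg]; exact hy.symm)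
    by_cases hex : ∃ x s, ψ (x, s) ≠ g x
    · obtain ⟨x, s, hxs⟩ := hex
      refine ⟨(g, (x, fun s' => decide (ψ (x, s') ≠ g x))), ?_⟩
      funext ⟨y, s'⟩
      show (if y = x ∧ decide (ψ (x, s') ≠ g x) = true then z g else g y) = ψ (y, s')
      by_cases hyx : y = x
      · subst hyx
        by_cases hne : ψ (y, s') ≠ g y
        · rw [if_pos ⟨rfl, by simpa using hne⟩]
          exact (hout y s' hne).symm
        · rw [if_neg (by rintro ⟨_, h⟩; exact hne (by simpa using h))]
          push Not at hne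
          exact hne.symm
      · rw [if_neg (fun h => hyx h.1)]
        by_contra hne
        have h1 := hout y s' (fun h => hne h.symm)
        have h2 := hout x s hxs
        exact hψ (y, s') (x, s) hyx (h1.trans h2.symm)
    · push Not at hex
      refine ⟨(g, (x0, fun _ => false)), ?_⟩
      funext ⟨y, s'⟩
      show (if y = x0 ∧ false = true then z g else g y) = ψ (y, s')
      rw [if_neg (by simp)]
      exact (hex y s').symm
  have hinj : Nat.card {ψ : C × F → Fin (c + 1) // Good ψ}
      ≤ Nat.card ((C ↪ Fin (c + 1)) × (C × (F → Bool))) := by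
    have hch : ∀ ψ : {ψ : C × F → Fin (c + 1) // Good ψ}, ∃ a, dec a = ψ.1 :=
      fun ψ => hsurj ψ.1 ψ.2
    choose enc henc using hch
    apply Nat.card_le_card_of_injective enc
    intro ψ φ h
    apply Subtype.ext
    rw [← henc ψ, ← henc φ, h]
  refine hinj.trans (le_of_eq ?_)
  rw [Nat.card_eq_fintype_card, Fintype.card_prod, Fintype.card_prod, Fintype.card_embedding_eq,
    Fintype.card_fin, hc, Fintype.card_fun, Fintype.card_bool]
  congr 1
  rw [Nat.descFactorial_eq_div (by omega)]
  simp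

variable {p : ℕ} [hp : Fact p.Prime]

/-- The number of trees with five vertices. -/
noncomputable def t0 (p : ℕ) [Fact p.Prime] : ℕ :=
  Nat.card {H : (Gr p).Subgraph // H.coe.IsTree ∧ Nat.card H.verts = 5}

lemma le_T_iff (h5 : 5 ≤ p) {c : ℕ} (χ : (Gr p).edgeSet → Fin c) :
    ((t0 p : ℕ) : ℝ) ≤ (T (Gr p) χ 5 : ℝ) ↔
      ∀ e f : (ZMod p × ZMod p) × ZMod p, e.1 ≠ f.1 → χ (edge e) ≠ χ (edge f) := by
  rw [Nat.cast_le]
  constructor
  · intro h e f hcl hχ
    have hall : ∀ H : (Gr p).Subgraph, (H.coe.IsTree ∧ Nat.card H.verts = 5) →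
        IsRainbowTree (Gr p) χ 5 H := by
      have hsub : {H : (Gr p).Subgraph | IsRainbowTree (Gr p) χ 5 H} ⊆
          {H : (Gr p).Subgraph | H.coe.IsTree ∧ Nat.card H.verts = 5} :=
        fun H hH => ⟨hH.1, hH.2.1⟩
      have heq := Set.eq_of_subset_of_ncard_le hsub (by
        rw [← Nat.card_coe_set_eq, ← Nat.card_coe_set_eq]; exact h) (Set.toFinite _)
      intro H hH
      have : H ∈ {H : (Gr p).Subgraph | H.coe.IsTree ∧ Nat.card H.verts = 5} := hH
      rw [← heq] at this
      exact this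
    obtain ⟨H, h1, h2, h3, h4⟩ := diff_class h5 hcl
    have := (hall H ⟨h1, h2⟩).2.2 (edge e) (edge f) h3 h4 hχ
    exact hcl (by rw [edge_inj this])
  · intro h
    have hsub : {H : (Gr p).Subgraph | H.coe.IsTree ∧ Nat.card H.verts = 5} ⊆
        {H : (Gr p).Subgraph | IsRainbowTree (Gr p) χ 5 H} := by
      intro H hH
      refine ⟨hH.1, hH.2, ?_⟩
      intro e f he hf hχ
      obtain ⟨e, rfl⟩ := edge_surj e
      obtain ⟨f, rfl⟩ := edge_surj f
      by_cases hcl : e.1 = f.1
      · rw [same_class H hH.1.connected hH.2 hcl he hf]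
      · exact absurd hχ (h e f hcl)
    have := Set.ncard_le_ncard hsub (Set.toFinite _)
    rw [← Nat.card_coe_set_eq, ← Nat.card_coe_set_eq] at this
    exact this

lemma card_good (h5 : 5 ≤ p) (c : ℕ) :
    Nat.card {χ : (Gr p).edgeSet → Fin c // ((t0 p : ℕ) : ℝ) ≤ (T (Gr p) χ 5 : ℝ)}
      = Nat.card {ψ : (ZMod p × ZMod p) × ZMod p → Fin c // Good ψ} := by
  apply Nat.card_congr
  refine Equiv.subtypeEquiv (Equiv.arrowCongr edgeEquiv.symm (Equiv.refl _)) ?_
  intro χ
  rw [le_T_iff h5]
  exact Iff.rfl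

lemma card_all (c : ℕ) : Nat.card ((Gr p).edgeSet → Fin c) = c ^ (p ^ 2 * p) := by
  rw [Nat.card_congr (Equiv.arrowCongr (edgeEquiv (p := p)).symm (Equiv.refl (Fin c))),
    Nat.card_eq_fintype_card, Fintype.card_fun, Fintype.card_fin, Fintype.card_prod,
    Fintype.card_prod, ZMod.card]
  congr 1
  ring

end Pool.Agent.R723.RB
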