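import Pool.Agent.R723.RainbowGraph

/-!
Two edges of different classes lie in a common tree with five vertices.
-/

namespace Pool.Agent.R723.RB

open SimpleGraph

/-- A graph with at most two edges has no cycle. -/
lemma acyclic_two {V : Type} (e f : Sym2 V) : (fromEdgeSet ({e, f} : Set (Sym2 V))).IsAcyclic := by
  classical
  intro v c hc
  have h3 := hc.three_le_length
  have hnd := hc.isTrail.edges_nodup
  have hsub : c.edges.toFinset ⊆ ({e, f} : Finset (Sym2 V)) := by
    intro z hz
    rw [List.mem_toFinset] at hz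
    have := Walk.edges_subset_edgeSet c hz
    rw [edgeSet_fromEdgeSet] at this
    simpa using this.1
  have h1 := Finset.card_le_card hsub
  rw [List.toFinset_card_of_nodup hnd, Walk.length_edges] at h1
  have h2 : ({e, f} : Finset (Sym2 V)).card ≤ 2 := Finset.card_le_two
  omega

lemma exists_tree {V : Type} {G : SimpleGraph V} (Y : Set V) (hY : (G.induce Y).Connected)
    {x1 y1 x2 y2 : V} (hx1 : x1 ∈ Y) (hy1 : y1 ∈ Y) (hx2 : x2 ∈ Y) (hy2 : y2 ∈ Y)
    (h1 : G.Adj x1 y1) (h2 : G.Adj x2 y2) :
    ∃ H : G.Subgraph, H.coe.IsTree ∧ H.verts = Y ∧ H.Adj x1 y1 ∧ H.Adj x2 y2 := by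
  set e : Sym2 Y := s(⟨x1, hx1⟩, ⟨y1, hy1⟩) with he
  set f : Sym2 Y := s(⟨x2, hx2⟩, ⟨y2, hy2⟩) with hf
  have hle : fromEdgeSet ({e, f} : Set (Sym2 Y)) ≤ G.induce Y := by
    intro a b hab
    rw [fromEdgeSet_adj] at hab
    obtain ⟨h, hne⟩ := hab
    rcases h with h | h
    · rw [he, Sym2.eq_iff] at h
      rcases h with ⟨rfl, rfl⟩ | ⟨rfl, rfl⟩
      · exact h1
      · exact h1.symm
    · rw [Set.mem_singleton_iff, hf, Sym2.eq_iff] at h
      rcases h with ⟨rfl, rfl⟩ | ⟨rfl, rfl⟩
      · exact h2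
      · exact h2.symm
  obtain ⟨T, hT1, hT2, hT3⟩ := hY.exists_isTree_le_of_le_of_isAcyclic hle (acyclic_two e f)
  let H : G.Subgraph :=
    { verts := Y
      Adj := fun a b => ∃ (ha : a ∈ Y) (hb : b ∈ Y), T.Adj ⟨a, ha⟩ ⟨b, hb⟩
      adj_sub := by
        rintro a b ⟨ha, hb, h⟩
        exact hT2 h
      edge_vert := by
        rintro a b ⟨ha, hb, h⟩
        exact ha
      symm := ⟨by
        rintro a b ⟨ha, hb, h⟩
        exact ⟨hb, ha, h.symm⟩⟩ }
  have hco : H.coe = T := by
    ext a b
    constructor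
    · rintro ⟨ha, hb, h⟩
      exact h
    · intro h
      exact ⟨a.2, b.2, h⟩
  refine ⟨H, ?_, rfl, ?_, ?_⟩
  · rw [hco]; exact hT3
  · refine ⟨hx1, hy1, hT1 ?_⟩
    rw [fromEdgeSet_adj]
    refine ⟨Or.inl rfl, ?_⟩
    intro h
    exact h1.ne (congrArg Subtype.val h)
  · refine ⟨hx2, hy2, hT1 ?_⟩
    rw [fromEdgeSet_adj]
    refine ⟨Or.inr rfl, ?_⟩
    intro h
    exact h2.ne (congrArg Subtype.val h)

variable {p : ℕ} [hp : Fact p.Prime]

lemma exists_nbr (h5 : 5 ≤ p) (X : Finset (VV p)) (hc : X.card < 5) (x : VV p) :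
    ∃ v, v ∉ X ∧ (Gr p).Adj x v := by
  classical
  by_contra hcon
  push Not at hcon
  have key : ∀ g : ZMod p → VV p, Function.Injective g → (∀ t, (Gr p).Adj x (g t)) → False := by
    intro g hg hadj
    have hsub : Finset.univ.image g ⊆ X := by
      intro z hz
      simp only [Finset.mem_image, Finset.mem_univ, true_and] at hz
      obtain ⟨t, rfl⟩ := hz
      by_contra hz
      exact hcon _ hz (hadj t)
    have h1 := Finset.card_le_card hsub
    rw [Finset.card_image_of_injective _ hg, Finset.card_univ, ZMod.card] at h1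
    omega
  rcases x with P | L
  · refine key (fun t => Sum.inr (t, P.2 - t * P.1)) ?_ ?_
    · intro t t' h
      simp only [Sum.inr.injEq, Prod.mk.injEq] at h
      exact h.1
    · intro t
      simp
  · refine key (fun t => Sum.inl (t, L.1 * t + L.2)) ?_ ?_
    · intro t t' h
      simp only [Sum.inl.injEq, Prod.mk.injEq] at h
      exact h.1
    · intro t
      simp

lemma extend (h5 : 5 ≤ p) : ∀ (n : ℕ) (X : Finset (VV p)),
    ((Gr p).induce (X : Set (VV p))).Connected → X.card + n = 5 →
    ∃ Y : Finset (VV p), X ⊆ Y ∧ Y.card = 5 ∧ ((Gr p).induce (Y : Set (VV p))).Connected := by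
  classical
  intro n
  induction n with
  | zero =>
    intro X hX hc
    exact ⟨X, subset_rfl, hc, hX⟩
  | succ n ih =>
    intro X hX hc
    obtain ⟨⟨x, hx⟩⟩ := hX.nonempty
    obtain ⟨v, hv, hadj⟩ := exists_nbr h5 X (by omega) x
    have hcon : ((Gr p).induce ((insert v X : Finset (VV p)) : Set (VV p))).Connected := by
      have h := induce_union_connected (induce_pair_connected_of_adj hadj).preconnected
        hX.preconnected ⟨x, by simp, hx⟩
      have hset : (({x, v} : Set (VV p)) ∪ (X : Set (VV p)))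
          = ((insert v X : Finset (VV p)) : Set (VV p)) := by
        ext z
        simp only [Set.mem_union, Set.mem_insert_iff, Set.mem_singleton_iff, Finset.coe_insert,
          Finset.mem_coe]
        constructor
        · rintro ((rfl | rfl) | h)
          · exact Or.inr hx
          · exact Or.inl rfl
          · exact Or.inr h
        · rintro (rfl | h)
          · exact Or.inl (Or.inr rfl)
          · exact Or.inr h
      rwa [hset] at h
    obtain ⟨Y, hY1, hY2, hY3⟩ := ih (insert v X) hcon (by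
      rw [Finset.card_insert_of_notMem hv]; omega)
    exact ⟨Y, (Finset.subset_insert _ _).trans hY1, hY2, hY3⟩

/-- a chain of five vertices is connected -/
lemma chain_conn {V : Type} [DecidableEq V] {G : SimpleGraph V} {a b c d e : V} (h1 : G.Adj a b)
    (h2 : b = c ∨ G.Adj b c) (h3 : c = d ∨ G.Adj c d) (h4 : G.Adj d e) :
    (G.induce (({a, b, c, d, e} : Finset V) : Set V)).Connected := by
  have hp1 := (induce_pair_connected_of_adj h1).preconnected
  have hp4 := (induce_pair_connected_of_adj h4).preconnected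
  have hp2 : (G.induce ({b, c} : Set V)).Preconnected := by
    rcases h2 with rfl | h2
    · rw [Set.pair_eq_singleton]
      intro x y
      have : x = y := Subtype.ext (x.2.trans y.2.symm)
      rw [this]
    · exact (induce_pair_connected_of_adj h2).preconnected
  have hp3 : (G.induce ({c, d} : Set V)).Preconnected := by
    rcases h3 with rfl | h3
    · rw [Set.pair_eq_singleton]
      intro x y
      have : x = y := Subtype.ext (x.2.trans y.2.symm)
      rw [this]
    · exact (induce_pair_connected_of_adj h3).preconnected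
  have q1 := induce_union_connected hp1 hp2 ⟨b, by simp, by simp⟩
  have q2 := induce_union_connected hp3 hp4 ⟨d, by simp, by simp⟩
  have q3 := induce_union_connected q1.preconnected q2.preconnected ⟨c, by simp, by simp⟩
  have hset : (({a, b} : Set V) ∪ {b, c}) ∪ ({c, d} ∪ {d, e})
      = (({a, b, c, d, e} : Finset V) : Set V) := by
    ext z
    simp only [Set.mem_union, Set.mem_insert_iff, Set.mem_singleton_iff, Finset.coe_insert,
      Finset.coe_singleton]
    tauto
  rwa [hset] at q3

/-- Two edges of different classes lie in a common tree with five vertices. -/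
lemma diff_class (h5 : 5 ≤ p) {e f : (ZMod p × ZMod p) × ZMod p} (hcl : e.1 ≠ f.1) :
    ∃ H : (Gr p).Subgraph, H.coe.IsTree ∧ Nat.card H.verts = 5 ∧ (edge e).1 ∈ H.edgeSet ∧
      (edge f).1 ∈ H.edgeSet := by
  classical
  have main : ∃ X : Finset (VV p), ((Gr p).induce (X : Set (VV p))).Connected ∧ X.card ≤ 5 ∧
      pt e ∈ X ∧ ln e ∈ X ∧ pt f ∈ X ∧ ln f ∈ X := by
    obtain ⟨⟨a, m⟩, s⟩ := e
    obtain ⟨⟨a', m'⟩, s'⟩ := f
    have hcl' : ¬ (a = a' ∧ m = m') := by
      rintro ⟨rfl, rfl⟩; exact hcl rfl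
    by_cases ha : a = a'
    · have hm : m ≠ m' := fun h => hcl' ⟨ha, h⟩
      have hm' : m - m' ≠ 0 := sub_ne_zero.mpr hm
      set c : VV p := Sum.inl ((s' - s) / (m - m'), m * ((s' - s) / (m - m')) + s) with hc
      refine ⟨{pt ((a, m), s), ln ((a, m), s), c, ln ((a', m'), s'), pt ((a', m'), s')},
        chain_conn (adj_pt_ln _) (Or.inr ?_) (Or.inr ?_) (adj_pt_ln _).symm,
        Finset.card_le_five, by simp, by simp, by simp, by simp⟩
      · simp [ln, hc]
      · simp only [ln, hc, adj_lr]
        field_simp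
        ring
    · have ha' : a - a' ≠ 0 := sub_ne_zero.mpr ha
      set μ : ZMod p := ((m * a + s) - (m' * a' + s')) / (a - a') with hμ
      set c : VV p := Sum.inr (μ, (m * a + s) - μ * a) with hc
      refine ⟨{ln ((a, m), s), pt ((a, m), s), c, pt ((a', m'), s'), ln ((a', m'), s')},
        chain_conn (adj_pt_ln _).symm (Or.inr ?_) (Or.inr ?_) (adj_pt_ln _),
        Finset.card_le_five, by simp, by simp, by simp, by simp⟩
      · simp [pt, hc]
      · simp only [pt, hc, adj_rl, hμ]
        field_simp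
        ring
  obtain ⟨X, hX1, hX2, m1, m2, m3, m4⟩ := main
  obtain ⟨Y, hY1, hY2, hY3⟩ := extend h5 (5 - X.card) X hX1 (by omega)
  obtain ⟨H, hH1, hH2, hH3, hH4⟩ := exists_tree (Y : Set (VV p)) hY3 (hY1 m1) (hY1 m2) (hY1 m3)
    (hY1 m4) (adj_pt_ln e) (adj_pt_ln f)
  refine ⟨H, hH1, ?_, hH3, hH4⟩
  rw [hH2]
  simpa using hY2

end Pool.Agent.R723.RB
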