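import Pool.Agent.R723.SimpleExt
import Pool.Agent.R723.Indec

/-!
The rigid module `k[C_p]` over the group algebra of `G = C_p × (F ⋊ Fˣ)` (inflated along the
projection `G → C_p`), and self-extensions of the simple modules.

`A` is a `k`-algebra isomorphic to `kG`.
-/

set_option autoImplicit false

open CategoryTheory MonoidAlgebra

namespace Pool.Agent.R723

universe u

open AffG

variable {p : ℕ} [Fact p.Prime] {k : Type u} [Field k] {F : Type} [Field F]
  {A : Type u} [Ring A] [Algebra k A]

/-- the ring homomorphism `A ≃ kG → k[C_p]` -/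
noncomputable def rho (e : MonoidAlgebra k (AffG p F) ≃ₐ[k] A) :
    A →+* MonoidAlgebra k (Multiplicative (ZMod p)) :=
  (MonoidAlgebra.mapDomainRingHom k (pr : AffG p F →* _)).comp (e.symm : A →+* _)

theorem rho_e (e : MonoidAlgebra k (AffG p F) ≃ₐ[k] A) (g : AffG p F) (r : k) :
    rho e (e (single g r)) = single (pr g) r := by
  simp [rho]

/-- The module `k[C_p]`. -/
def MC (_ : MonoidAlgebra k (AffG p F) ≃ₐ[k] A) : Type u :=
  MonoidAlgebra k (Multiplicative (ZMod p))

variable (e : MonoidAlgebra k (AffG p F) ≃ₐ[k] A)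

noncomputable instance : AddCommGroup (MC e) :=
  inferInstanceAs (AddCommGroup (MonoidAlgebra k (Multiplicative (ZMod p))))

noncomputable instance : Module k (MC e) :=
  inferInstanceAs (Module k (MonoidAlgebra k (Multiplicative (ZMod p))))

noncomputable instance : Module A (MC e) :=
  Module.compHom (MonoidAlgebra k (Multiplicative (ZMod p))) (rho e)

theorem MC.smul_eq (κ : AffG p F) (hκ : pr κ = 1) (x : MC e) : e (single κ 1) • x = x := by
  have h : ∀ y : MonoidAlgebra k (Multiplicative (ZMod p)),
      rho e (e (single κ 1)) * y = y := by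
    intro y
    rw [rho_e, hκ]
    exact one_mul y
  exact h x

/-- the surjection `A → k[C_p]` -/
noncomputable def MC.q : A →ₗ[A] MC e where
  toFun a := rho e a
  map_add' a b := map_add (rho e) a b
  map_smul' a b := map_mul (rho e) a b

theorem MC.q_surjective : Function.Surjective (MC.q e) := by
  intro (x : MonoidAlgebra k (Multiplicative (ZMod p)))
  refine ⟨e (MonoidAlgebra.mapDomainRingHom k (inC : _ →* AffG p F) x), ?_⟩
  change rho e _ = x
  rw [rho]
  simp only [RingHom.comp_apply]
  have : (e.symm : A →+* _) (e (MonoidAlgebra.mapDomainRingHom k (inC : _ →* AffG p F) x)) =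
      MonoidAlgebra.mapDomainRingHom k (inC : _ →* AffG p F) x := e.symm_apply_apply _
  rw [this, ← RingHom.comp_apply, ← MonoidAlgebra.mapDomainRingHom_comp]
  have h2 : (pr : AffG p F →* _).comp inC = MonoidHom.id _ := by
    ext
    simp
  rw [h2, MonoidAlgebra.mapDomainRingHom_id]
  rfl

theorem MC.mem_ker (κ : AffG p F) (hκ : pr κ = 1) :
    e (single κ 1) - 1 ∈ LinearMap.ker (MC.q e) := by
  rw [LinearMap.mem_ker, map_sub, sub_eq_zero]
  change rho e _ = rho e 1
  rw [rho_e, hκ, map_one]
  rfl

/-- `ker (A → k[C_p])` is generated by the elements `κ - 1`, `κ ∈ F ⋊ Fˣ`. -/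
theorem MC.ker_le : (LinearMap.ker (MC.q e)) ≤
    Submodule.span A {x | ∃ (b : F) (a : Fˣ), x = e (single (inK b a) 1) - 1} := by
  set N := Submodule.span A {x | ∃ (b : F) (a : Fˣ), x = e (single (inK b a : AffG p F) 1) - 1}
  have key : ∀ y : MonoidAlgebra k (AffG p F),
      e y - e (mapDomainRingHom k ((inC : _ →* AffG p F).comp pr) y) ∈ N := by
    intro y
    induction y using MonoidAlgebra.induction_linear with
    | zero => simp
    | add x y hx hy =>
      rw [map_add, map_add, map_add]
      have := N.add_mem hx hy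
      convert this using 1
      abel
    | single g r =>
      have h1 : e (single g r) - e (mapDomainRingHom k ((inC : _ →* AffG p F).comp pr)
          (single g r)) = e (single (inC (pr g)) r) • (e (single (inK g.b g.a) 1) - 1) := by
        rw [smul_eq_mul, mul_sub, mul_one, ← map_mul, single_mul_single, mul_one,
          ← eq_inC_mul_inK]
        simp
      rw [h1]
      exact N.smul_mem _ (Submodule.subset_span ⟨_, _, rfl⟩)
  intro x hx
  have h1 := key (e.symm x)
  have h2 : mapDomainRingHom k ((inC : _ →* AffG p F).comp pr) (e.symm x) = 0 := by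
    rw [MonoidAlgebra.mapDomainRingHom_comp, RingHom.comp_apply]
    have h3 : mapDomainRingHom k (pr : AffG p F →* _) (e.symm x) = 0 := hx
    rw [h3, map_zero]
  rw [h2, map_zero, sub_zero, e.apply_symm_apply] at h1
  exact h1

variable [CharP k p]

/-- `Hom_A(ker (A → k[C_p]), k[C_p]) = 0`. -/
theorem MC.hom_eq_zero [Finite F] [CharP F p] (hF : ∃ a : Fˣ, a ≠ 1)
    (g : LinearMap.ker (MC.q e) →ₗ[A] MC e) : g = 0 := by
  classical
  have := Fintype.ofFinite F
  let c : F → Fˣ → MC e := fun b a => g ⟨_, MC.mem_ker e (inK b a) rfl⟩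
  have hc : ∀ (b : F) (a : Fˣ) (b' : F) (a' : Fˣ),
      c (b + a * b') (a * a') = c b a + c b' a' := by
    intro b a b' a'
    have h1 : (⟨_, MC.mem_ker e (inK (b + a * b') (a * a')) rfl⟩ : LinearMap.ker (MC.q e)) =
        ⟨_, MC.mem_ker e (inK b a) rfl⟩ + e (single (inK b a) 1) •
          (⟨_, MC.mem_ker e (inK b' a') rfl⟩ : LinearMap.ker (MC.q e)) := by
      apply Subtype.ext
      simp only [Submodule.coe_add, Submodule.coe_smul, smul_eq_mul]
      rw [mul_sub, mul_one, ← map_mul, single_mul_single, mul_one, inK_mul]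
      abel
    change g _ = g _ + g _
    rw [h1, map_add, map_smul, MC.smul_eq e _ rfl]
  have h01 : c 0 1 = 0 := by
    have := hc 0 1 0 1
    simp at this
    exact this
  have hpow : ∀ (a : Fˣ) (n : ℕ), c 0 (a ^ n) = n • c 0 a := by
    intro a n
    induction n with
    | zero => simp [h01]
    | succ n ih =>
      have := hc 0 (a ^ n) 0 a
      simp only [mul_zero, add_zero] at this
      rw [pow_succ, this, ih, succ_nsmul]
  have h0a : ∀ a : Fˣ, c 0 a = 0 := by
    intro a
    have h1 := hpow a (Fintype.card Fˣ)
    rw [pow_card_eq_one, h01, Fintype.card_units] at h1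
    have h2 : ((Fintype.card F : ℕ) : k) = 0 := by
      obtain ⟨n, hn, hcard⟩ := FiniteField.card F p
      rw [hcard]
      simp
    have h3 : ((Fintype.card F - 1 : ℕ) : k) = -1 := by
      rw [Nat.cast_sub Fintype.card_pos, h2]
      simp
    rw [← Nat.cast_smul_eq_nsmul k, h3] at h1
    simpa using h1.symm
  have hb1 : ∀ b : F, c b 1 = 0 := by
    intro b
    obtain ⟨a, ha⟩ := hF
    have ha' : (a : F) - 1 ≠ 0 := fun h => ha (Units.ext (sub_eq_zero.1 h))
    set b' : F := b / (a - 1)
    have hb : b = a * b' - b' := by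
      simp only [b']
      field_simp
    have h1 := hc 0 a b' 1
    simp only [zero_add, mul_one, h0a] at h1
    have h2 := hc (a * b') 1 0 a
    simp only [mul_zero, add_zero, one_mul, h0a] at h2
    have h3 := hc b 1 b' 1
    simp only [Units.val_one, one_mul, mul_one] at h3
    have h4 : b + b' = a * b' := by rw [hb]; ring
    rw [h4, ← h2, h1] at h3
    exact (add_eq_right.1 h3.symm)
  have hall : ∀ b a, c b a = 0 := by
    intro b a
    have := hc b 1 0 a
    simp only [mul_zero, add_zero, one_mul, hb1, h0a] at this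
    exact this
  have hle : Submodule.span A {x | ∃ (b : F) (a : Fˣ), x = e (single (inK b a) 1) - 1} ≤
      Submodule.map (LinearMap.ker (MC.q e)).subtype (LinearMap.ker g) := by
    rw [Submodule.span_le]
    rintro x ⟨b, a, rfl⟩
    exact ⟨⟨_, MC.mem_ker e (inK b a) rfl⟩, hall b a, rfl⟩
  ext x : 1
  obtain ⟨y, hy, hxy⟩ := hle (MC.ker_le e x.2)
  have : y = x := Subtype.ext hxy
  rw [← this]
  exact hy

/-- `Ext¹_A(k[C_p], k[C_p]) = 0` -/
theorem MC.ext_one [Finite F] [CharP F p] (hF : ∃ a : Fˣ, a ≠ 1) :
    Subsingleton (Abelian.Ext (ModuleCat.of A (MC e)) (ModuleCat.of A (MC e)) 1) :=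
  ext_one_subsingleton (MC.q e) (MC.q_surjective e) (MC.hom_eq_zero e hF)

/-- `k[C_p]` is not projective. -/
theorem MC.not_projective [Finite F] [CharP F p] : ¬ Module.Projective A (MC e) := by
  classical
  intro h
  have : Fintype (AffG p F) := Fintype.ofFinite _
  obtain ⟨s, hs⟩ := Module.projective_lifting_property (MC.q e) LinearMap.id (MC.q_surjective e)
  let one : MC e := (1 : MonoidAlgebra k (Multiplicative (ZMod p)))
  set y := e.symm (s one) with hy
  have h1 : mapDomainRingHom k (pr : AffG p F →* _) y = 1 := congrArg (fun f => f one) hs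
  have h2 : single (⟨0, 1, 1⟩ : AffG p F) 1 * y = y := by
    apply e.injective
    rw [map_mul, hy, e.apply_symm_apply, ← smul_eq_mul, ← map_smul, MC.smul_eq e _ rfl]
  -- the augmentation of `y`
  have h3 : ∑ g, y.coeff g = 1 := by
    have h4 : ∀ z : MonoidAlgebra k (AffG p F),
        MonoidAlgebra.lift k k (AffG p F) 1 z = ∑ g, z.coeff g := by
      intro z
      rw [MonoidAlgebra.lift_apply]
      rw [Finsupp.sum_fintype _ _ (by simp)]
      simp
    have h5 : ∀ z : MonoidAlgebra k (AffG p F),
        MonoidAlgebra.lift k k (AffG p F) 1 z =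
        MonoidAlgebra.lift k k (Multiplicative (ZMod p)) 1 (mapDomainRingHom k pr z) := by
      intro z
      induction z using MonoidAlgebra.induction_linear with
      | zero => simp
      | add x y hx hy => rw [map_add, map_add, map_add, hx, hy]
      | single g r => simp
    rw [← h4, h5, h1, map_one]
  have h6 := sum_eq_zero_of_invariant (p := p) (⟨0, 1, 1⟩ : AffG p F)
      (by
        intro h
        have := congrArg AffG.b h
        simp at this)
      (by
        have : ∀ m : ℕ, (⟨0, 1, 1⟩ : AffG p F) ^ m = ⟨0, m, 1⟩ := by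
          intro m
          induction m with
          | zero => ext <;> simp
          | succ m ih => rw [pow_succ, ih]; ext <;> simp
        rw [this]
        ext <;> simp)
      (fun h => y.coeff h⁻¹) (by
        intro g
        have := congrArg (fun z => z.coeff g⁻¹) h2
        simp only [coeff_single_mul_apply, one_mul] at this
        rw [← this]
        simp [mul_inv_rev])
  have h7 : ∑ g, y.coeff g = ∑ g, y.coeff g⁻¹ :=
    (Equiv.sum_comp (Equiv.inv (AffG p F)) (fun g => y.coeff g)).symm
  rw [h7, h6] at h3
  exact zero_ne_one h3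

include e in
/-- Every simple `A`-module has a nontrivial self-extension. -/
theorem simple_ext (S : Type u) [AddCommGroup S] [Module A S] [IsSimpleModule A S] :
    Nontrivial (Abelian.Ext (ModuleCat.of A S) (ModuleCat.of A S) 1) := by
  let θ : AffG p F → k := fun g => ZMod.castHom (dvd_refl p) k g.c
  have hθ : ∀ g h, θ (g * h) = θ g + θ h := fun g h => by simp [θ]
  let d : Deriv A :=
    { D := (e : MonoidAlgebra k (AffG p F) →+ A).comp ((der θ).comp (e.symm : A →+ _))
      leib := fun a b => by
        change e (der θ (e.symm (a * b))) = e (der θ (e.symm a)) * b + a * e (der θ (e.symm b))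
        rw [map_mul, der_mul θ hθ, map_add, map_mul, map_mul, e.apply_symm_apply,
          e.apply_symm_apply] }
  let t : AffG p F := inC (Multiplicative.ofAdd 1)
  let z : A := e (single t 1 - 1)
  have hz : ∀ a, z * a = a * z := by
    intro a
    obtain ⟨y, rfl⟩ := e.surjective a
    rw [← map_mul, ← map_mul, sub_mul, mul_sub, one_mul, mul_one]
    rw [(MonoidAlgebra.single_commute (fun g => inC_commute _ g)
      (fun r => Commute.all _ r) y).eq]
  have hzn : IsNilpotent z := by
    refine ⟨p, ?_⟩
    have : CharP (MonoidAlgebra k (AffG p F)) p :=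
      charP_of_injective_algebraMap (algebraMap k (MonoidAlgebra k (AffG p F))).injective p
    rw [← map_pow, sub_pow_char_of_commute p (Commute.one_right _), MonoidAlgebra.single_pow, one_pow,
      one_pow]
    have : t ^ p = 1 := by
      rw [← map_pow, ← ofAdd_nsmul]
      simp
    rw [this]
    change e (1 - 1) = 0
    simp
  refine nontrivial_ext d S z z hz hzn hz hzn ?_
  change e (der θ (e.symm (e (single t 1 - 1)))) = 1 + e (single t 1 - 1)
  rw [e.symm_apply_apply, map_sub, map_sub, der_single, MonoidAlgebra.one_def, der_single]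
  have h1 : θ t = 1 := by simp [θ, t, inC]
  have h2 : θ 1 = 0 := by simp [θ]
  rw [h1, h2, ← MonoidAlgebra.one_def]
  simp

end Pool.Agent.R723
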