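import Pool.Agent.R723.ExtLem

/-!
If `G` has a central element `t` with `t ^ p = 1` (`p = char k`) and an additive character
`θ : G → k` with `θ t = 1` then `Ext¹(S, S) ≠ 0` for every simple `kG`-module `S`.
-/

set_option autoImplicit false

open CategoryTheory

namespace Pool.Agent.R723

universe u

section Deriv

variable {k : Type u} [Field k] {G : Type} [Group G]

/-- the derivation `g ↦ θ(g) g` of `kG` -/
noncomputable def der (θ : G → k) : MonoidAlgebra k G →+ MonoidAlgebra k G :=
  (Finsupp.liftAddHom fun g : G =>
    (MonoidAlgebra.singleAddHom g : k →+ MonoidAlgebra k G).comp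
      (AddMonoidHom.mulLeft (θ g))).comp MonoidAlgebra.coeffAddEquiv.toAddMonoidHom

theorem der_single (θ : G → k) (g : G) (r : k) :
    der θ (MonoidAlgebra.single g r) = MonoidAlgebra.single g (θ g * r) := by
  simp [der]

theorem der_mul (θ : G → k) (hθ : ∀ g h, θ (g * h) = θ g + θ h) (x y : MonoidAlgebra k G) :
    der θ (x * y) = der θ x * y + x * der θ y := by
  induction x using MonoidAlgebra.induction_linear with
  | zero => simp
  | add x x' hx hx' => rw [add_mul, map_add, hx, hx', map_add, add_mul, add_mul]; abel
  | single g r =>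
    induction y using MonoidAlgebra.induction_linear with
    | zero => simp
    | add y y' hy hy' => rw [mul_add, map_add, hy, hy', map_add, mul_add, mul_add]; abel
    | single h s =>
      rw [MonoidAlgebra.single_mul_single, der_single, der_single, der_single,
        MonoidAlgebra.single_mul_single, MonoidAlgebra.single_mul_single, ← MonoidAlgebra.single_add,
        hθ]
      congr 1
      ring

end Deriv

section

variable {A : Type u} [Ring A]

/-- A derivation of a ring. -/
structure Deriv (A : Type u) [Ring A] where
  D : A →+ A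
  leib : ∀ a b, D (a * b) = D a * b + a * D b

theorem Deriv.one (d : Deriv A) : d.D 1 = 0 := by
  have h := d.leib 1 1
  simp at h
  exact h

/-- The self-extension of a module `S` defined by a derivation. -/
def TE (_ : Deriv A) (S : Type u) : Type u := S × S

variable (d : Deriv A) (S : Type u) [AddCommGroup S] [Module A S]

instance : AddCommGroup (TE d S) := inferInstanceAs (AddCommGroup (S × S))

instance : Module A (TE d S) where
  smul a x := ((a • x.1, a • x.2 + d.D a • x.1) : S × S)
  one_smul x := by
    change ((1 : A) • x.1, (1 : A) • x.2 + d.D 1 • x.1) = x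
    rw [d.one, one_smul, one_smul, zero_smul, add_zero]
    rfl
  mul_smul a b x := by
    change ((a * b) • x.1, (a * b) • x.2 + d.D (a * b) • x.1) =
      (a • (b • x.1), a • (b • x.2 + d.D b • x.1) + d.D a • (b • x.1))
    rw [d.leib]
    simp only [mul_smul, add_smul, smul_add]
    congr 1
    abel
  smul_zero a := by
    change (a • (0 : S), a • (0 : S) + d.D a • (0 : S)) = (0, 0)
    simp
  smul_add a x y := by
    change (a • (x.1 + y.1), a • (x.2 + y.2) + d.D a • (x.1 + y.1)) =
      (a • x.1 + a • y.1, (a • x.2 + d.D a • x.1) + (a • y.2 + d.D a • y.1))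
    simp only [smul_add]
    congr 1
    abel
  add_smul a b x := by
    change ((a + b) • x.1, (a + b) • x.2 + d.D (a + b) • x.1) =
      (a • x.1 + b • x.1, (a • x.2 + d.D a • x.1) + (b • x.2 + d.D b • x.1))
    rw [map_add]
    simp only [add_smul]
    congr 1
    abel
  zero_smul x := by
    change ((0 : A) • x.1, (0 : A) • x.2 + d.D 0 • x.1) = (0, 0)
    simp

theorem TE.smul_def (a : A) (x : TE d S) :
    a • x = ((a • x.1, a • x.2 + d.D a • x.1) : S × S) := rfl

/-- the projection -/
def TE.fst : TE d S →ₗ[A] S where
  toFun x := x.1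
  map_add' _ _ := rfl
  map_smul' _ _ := rfl

theorem TE.fst_surjective : Function.Surjective (TE.fst d S) := fun s => ⟨(s, 0), rfl⟩

/-- the kernel of the projection -/
def TE.kerEquiv : LinearMap.ker (TE.fst d S) ≃ₗ[A] S where
  toFun x := x.1.2
  map_add' _ _ := rfl
  map_smul' a x := by
    have hx : x.1.1 = 0 := x.2
    change a • x.1.2 + d.D a • x.1.1 = a • x.1.2
    rw [hx]; simp
  invFun s := ⟨(0, s), rfl⟩
  left_inv x := by
    have hx : x.1.1 = 0 := x.2
    apply Subtype.ext
    exact Prod.ext hx.symm rfl
  right_inv _ := rfl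

/-- If `z` is a central nilpotent element of `A` such that `1 - D z` is also central and nilpotent
then `Ext¹(S, S) ≠ 0` for all simple `S`. -/
theorem nontrivial_ext (z w : A) (hz : ∀ a, z * a = a * z) (hzn : IsNilpotent z)
    (hw : ∀ a, w * a = a * w) (hwn : IsNilpotent w) (hd : d.D z = 1 + w)
    [IsSimpleModule A S] :
    Nontrivial (Abelian.Ext (ModuleCat.of A S) (ModuleCat.of A S) 1) := by
  have key : ∀ z : A, (∀ a, z * a = a * z) → IsNilpotent z → ∀ s : S, z • s = 0 := by
    intro z hz hzn
    let f : S →ₗ[A] S :=
      { toFun := fun s => z • s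
        map_add' := fun _ _ => smul_add _ _ _
        map_smul' := fun a s => by
          simp only [← mul_smul, RingHom.id_apply]
          rw [hz] }
    rcases LinearMap.bijective_or_eq_zero f with h | h
    · exfalso
      obtain ⟨n, hn⟩ := hzn
      have h1 : ∀ m : ℕ, ∀ s : S, (f ^ m) s = z ^ m • s := by
        intro m
        induction m with
        | zero => intro s; simp
        | succ m ih => intro s; rw [pow_succ', pow_succ', mul_smul, ← ih]; rfl
      have h2 : Function.Injective (f ^ n) := by
        rw [Module.End.coe_pow]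
        exact h.1.iterate n
      have := IsSimpleModule.nontrivial A S
      obtain ⟨s, hs⟩ := exists_ne (0 : S)
      apply hs
      apply h2
      rw [h1, hn]
      simp
    · intro s
      exact congrArg (fun g => g s) h
  by_contra hcon
  rw [not_nontrivial_iff_subsingleton] at hcon
  have hiso : Subsingleton (Abelian.Ext (ModuleCat.of A S)
      (ModuleCat.of A (LinearMap.ker (TE.fst d S))) 1) := by
    let i := (TE.kerEquiv d S).toModuleIso
    refine subsingleton_of_forall_eq 0 fun x => ?_
    have h1 : x.comp (Abelian.Ext.mk₀ i.hom) (add_zero 1) = 0 := Subsingleton.elim _ _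
    have h2 : x = (x.comp (Abelian.Ext.mk₀ i.hom) (add_zero 1)).comp
        (Abelian.Ext.mk₀ i.inv) (add_zero 1) := by
      rw [Abelian.Ext.comp_assoc_of_second_deg_zero]
      rw [Abelian.Ext.mk₀_comp_mk₀, Iso.hom_inv_id]
      simp
    rw [h2, h1]
    simp
  obtain ⟨s, hs⟩ := exists_section (TE.fst d S) (TE.fst_surjective d S) hiso
  have := IsSimpleModule.nontrivial A S
  obtain ⟨x, hx⟩ := exists_ne (0 : S)
  apply hx
  have h1 : z • s x = s (z • x) := (s.map_smul z x).symm
  rw [key z hz hzn x, map_zero, TE.smul_def, hd] at h1
  have h2 : z • (s x).2 + (1 + w) • (s x).1 = 0 := congrArg Prod.snd h1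
  have h3 : (s x).1 = x := hs x
  rw [h3, key z hz hzn, add_smul, key w hw hwn, one_smul] at h2
  simpa using h2

end

end Pool.Agent.R723
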