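import Mathlib

/-!
# Characteristic of a subspace lattice containing the submodule lattice of `R^3`

If the lattice of submodules of `R^3` (`R` a nontrivial ring) embeds into the lattice of subspaces
of a vector space over a division ring `D`, then for every natural number `n` we have `n = 0` in `R`
if and only if `n = 0` in `D`.
-/

namespace Pool.Agent.R723.SubLat

section Char

variable {R : Type*} [Ring R]

/-- The submodule of `R^3` spanned by one vector. -/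
abbrev pt (v : Fin 3 → R) : Submodule R (Fin 3 → R) := Submodule.span R {v}

theorem mem_pt {v w : Fin 3 → R} : w ∈ pt v ↔ ∃ a : R, a • v = w :=
  Submodule.mem_span_singleton

theorem mem_pt_sup {v w z : Fin 3 → R} : z ∈ pt v ⊔ pt w ↔ ∃ a b : R, a • v + b • w = z := by
  rw [Submodule.mem_sup]
  constructor
  · rintro ⟨y, hy, x, hx, rfl⟩
    obtain ⟨a, rfl⟩ := mem_pt.mp hy
    obtain ⟨b, rfl⟩ := mem_pt.mp hx
    exact ⟨a, b, rfl⟩
  · rintro ⟨a, b, rfl⟩
    exact ⟨a • v, mem_pt.mpr ⟨a, rfl⟩, b • w, mem_pt.mpr ⟨b, rfl⟩, rfl⟩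

theorem ext3 {v w : Fin 3 → R} : v = w ↔ v 0 = w 0 ∧ v 1 = w 1 ∧ v 2 = w 2 := by
  constructor
  · rintro rfl; exact ⟨rfl, rfl, rfl⟩
  · rintro ⟨h0, h1, h2⟩
    ext i
    fin_cases i
    · exact h0
    · exact h1
    · exact h2

theorem le1 : pt (![1, 0, 0] : Fin 3 → R) ≤ pt ![0, 1, 0] ⊔ pt ![1, 1, 0] := by
  rw [Submodule.span_singleton_le_iff_mem, mem_pt_sup]
  exact ⟨-1, 1, by simp⟩

theorem le2 : pt (![1, 0, 0] : Fin 3 → R) ≤ pt ![0, 0, 1] ⊔ pt ![1, 0, 1] := by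
  rw [Submodule.span_singleton_le_iff_mem, mem_pt_sup]
  exact ⟨-1, 1, by simp⟩

theorem le3 : (pt (![0, 1, 0] : Fin 3 → R) ⊔ pt ![0, 0, 1]) ⊓ (pt ![1, 1, 0] ⊔ pt ![1, 0, 1]) ≤
    pt ![0, 1, -1] := by
  intro z hz
  obtain ⟨h1, h2⟩ := Submodule.mem_inf.mp hz
  obtain ⟨a, b, rfl⟩ := mem_pt_sup.mp h1
  obtain ⟨c, d, h⟩ := mem_pt_sup.mp h2
  rw [ext3] at h
  simp at h
  obtain ⟨h0, h1, h2⟩ := h
  rw [mem_pt]
  refine ⟨a, ?_⟩
  rw [ext3]
  simp
  rw [← h1, ← h2]
  exact (eq_neg_of_add_eq_zero_right h0).symm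

theorem le4 (n : ℕ) : (pt (![1, (n : R), 0] : Fin 3 → R) ⊔ pt ![0, 0, 1]) ⊓
    (pt ![0, 1, 0] ⊔ pt ![1, 0, 1]) ≤ pt ![1, (n : R), 1] := by
  intro z hz
  obtain ⟨h1, h2⟩ := Submodule.mem_inf.mp hz
  obtain ⟨a, b, rfl⟩ := mem_pt_sup.mp h1
  obtain ⟨c, d, h⟩ := mem_pt_sup.mp h2
  rw [ext3] at h
  simp at h
  obtain ⟨h0, h1, h2⟩ := h
  rw [mem_pt]
  refine ⟨a, ?_⟩
  rw [ext3]
  simp
  rw [← h0, ← h2]

theorem le5 (n : ℕ) : (pt (![1, (n : R), 1] : Fin 3 → R) ⊔ pt ![0, 1, -1]) ⊓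
    (pt ![1, 0, 0] ⊔ pt ![0, 1, 0]) ≤ pt ![1, ((n + 1 : ℕ) : R), 0] := by
  intro z hz
  obtain ⟨h1, h2⟩ := Submodule.mem_inf.mp hz
  obtain ⟨a, b, rfl⟩ := mem_pt_sup.mp h1
  obtain ⟨c, d, h⟩ := mem_pt_sup.mp h2
  rw [ext3] at h
  simp at h
  obtain ⟨h0, h1, h2⟩ := h
  have hab : a = b := by
    have := h2.symm
    rwa [add_neg_eq_zero] at this
  rw [mem_pt]
  refine ⟨a, ?_⟩
  rw [ext3]
  simp
  rw [← hab]
  simp [mul_add]

theorem inf1 : pt (![1, 0, 0] : Fin 3 → R) ⊓ pt ![1, 1, 0] = ⊥ := by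
  rw [eq_bot_iff]
  intro z hz
  obtain ⟨h1, h2⟩ := Submodule.mem_inf.mp hz
  obtain ⟨a, rfl⟩ := mem_pt.mp h1
  obtain ⟨c, h⟩ := mem_pt.mp h2
  rw [ext3] at h
  simp at h
  obtain ⟨h0, h1⟩ := h
  rw [Submodule.mem_bot, ext3]
  simp
  rw [← h0, h1]

theorem inf2 : pt (![1, 0, 0] : Fin 3 → R) ⊓ pt ![0, 1, 0] = ⊥ := by
  rw [eq_bot_iff]
  intro z hz
  obtain ⟨h1, h2⟩ := Submodule.mem_inf.mp hz
  obtain ⟨a, rfl⟩ := mem_pt.mp h1
  obtain ⟨c, h⟩ := mem_pt.mp h2
  rw [ext3] at h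
  simp at h
  obtain ⟨h0, h1⟩ := h
  rw [Submodule.mem_bot, ext3]
  simp
  rw [← h0]

variable {D : Type*} [DivisionRing D] {V : Type*} [AddCommGroup V] [Module D V]
variable (f : LatticeHom (Submodule R (Fin 3 → R)) (Submodule D V))

theorem fmono {x y : Submodule R (Fin 3 → R)} (h : x ≤ y) : f x ≤ f y :=
  OrderHomClass.mono f h

theorem key {a1 : V} (ha1 : a1 ∈ f (pt ![1, 0, 0])) (ha1' : a1 ∉ f ⊥) :
    ∃ a2 ∈ f (pt ![0, 1, 0]), a2 ∉ f ⊥ ∧ ∀ n : ℕ, a1 + n • a2 ∈ f (pt ![1, (n : R), 0]) := by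
  -- choose a2
  have h1 : a1 ∈ f (pt ![0, 1, 0]) ⊔ f (pt ![1, 1, 0]) := by
    rw [← map_sup]; exact fmono f le1 ha1
  obtain ⟨b2, hb2, d, hd, hbd⟩ := Submodule.mem_sup.mp h1
  have h2 : a1 ∈ f (pt ![0, 0, 1]) ⊔ f (pt ![1, 0, 1]) := by
    rw [← map_sup]; exact fmono f le2 ha1
  obtain ⟨b3, hb3, d', hd', hbd'⟩ := Submodule.mem_sup.mp h2
  -- a2 = - b2, a3 = - b3
  have e2 : a1 + (-b2) = d := by rw [← hbd]; abel
  have e3 : a1 + (-b3) = d' := by rw [← hbd']; abel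
  have hdiff : (-b2) - (-b3) ∈ f (pt ![0, 1, -1]) := by
    apply fmono f le3
    rw [map_inf, map_sup, map_sup]
    refine Submodule.mem_inf.mpr ⟨?_, ?_⟩
    · exact Submodule.sub_mem _ (Submodule.mem_sup_left (Submodule.neg_mem _ hb2))
        (Submodule.mem_sup_right (Submodule.neg_mem _ hb3))
    · have : (-b2) - (-b3) = d - d' := by rw [← e2, ← e3]; abel
      rw [this]
      exact Submodule.sub_mem _ (Submodule.mem_sup_left hd) (Submodule.mem_sup_right hd')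
  refine ⟨-b2, Submodule.neg_mem _ hb2, ?_, ?_⟩
  · intro hb
    apply ha1'
    have h3 : a1 ∈ f (pt ![1, 0, 0]) ⊓ f (pt ![1, 1, 0]) := by
      refine Submodule.mem_inf.mpr ⟨ha1, ?_⟩
      have : a1 = d - (-b2) := by rw [← e2]; abel
      rw [this]
      exact Submodule.sub_mem _ hd (fmono f bot_le hb)
    rwa [← map_inf, inf1] at h3
  · intro n
    induction n with
    | zero => simpa using ha1
    | succ n ih =>
      have h4 : a1 + n • (-b2) + (-b3) ∈ f (pt ![1, (n : R), 1]) := by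
        apply fmono f (le4 n)
        rw [map_inf, map_sup, map_sup]
        refine Submodule.mem_inf.mpr ⟨?_, ?_⟩
        · exact Submodule.add_mem _ (Submodule.mem_sup_left ih)
            (Submodule.mem_sup_right (Submodule.neg_mem _ hb3))
        · have : a1 + n • (-b2) + (-b3) = n • (-b2) + d' := by rw [← e3]; abel
          rw [this]
          exact Submodule.add_mem _
            (Submodule.mem_sup_left (Submodule.smul_of_tower_mem _ n (Submodule.neg_mem _ hb2)))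
            (Submodule.mem_sup_right hd')
      have h5 : a1 + (n + 1) • (-b2) = (a1 + n • (-b2) + (-b3)) + ((-b2) - (-b3)) := by
        rw [add_smul, one_smul]; abel
      apply fmono f (le5 n)
      rw [map_inf, map_sup, map_sup]
      refine Submodule.mem_inf.mpr ⟨?_, ?_⟩
      · rw [h5]
        exact Submodule.add_mem _ (Submodule.mem_sup_left h4) (Submodule.mem_sup_right hdiff)
      · exact Submodule.add_mem _ (Submodule.mem_sup_left ha1)
          (Submodule.mem_sup_right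
            (Submodule.smul_of_tower_mem _ (n + 1) (Submodule.neg_mem _ hb2)))

theorem le_of_map_le (hf : Function.Injective f) {x y : Submodule R (Fin 3 → R)}
    (h : f x ≤ f y) : x ≤ y := by
  have : f (x ⊓ y) = f x := by rw [map_inf]; exact inf_eq_left.mpr h
  exact inf_eq_left.mp (hf this)

/-- If the lattice of submodules of `R^3` embeds into the subspace lattice of a vector space over
the division ring `D` then `R` and `D` have the same characteristic. -/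
theorem char_eq [Nontrivial R] (hf : Function.Injective f) (n : ℕ) :
    (n : R) = 0 ↔ (n : D) = 0 := by
  constructor
  · intro hn
    by_contra hD
    have hne : ¬ (f (pt ![1, 0, 0]) ≤ f ⊥) := by
      intro h
      have h1 := le_of_map_le f hf h
      rw [Submodule.span_singleton_le_iff_mem, Submodule.mem_bot, ext3] at h1
      simp at h1
    obtain ⟨a1, ha1, ha1'⟩ := SetLike.not_le_iff_exists.mp hne
    obtain ⟨a2, ha2, ha2', h⟩ := key f ha1 ha1'
    apply ha2'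
    have h1 := h n
    rw [hn] at h1
    have h2 : n • a2 ∈ f (pt ![1, 0, 0]) ⊓ f (pt ![0, 1, 0]) := by
      refine Submodule.mem_inf.mpr ⟨?_, Submodule.smul_of_tower_mem _ n ha2⟩
      have : n • a2 = (a1 + n • a2) - a1 := by abel
      rw [this]
      exact Submodule.sub_mem _ h1 ha1
    rw [← map_inf, inf2, ← Nat.cast_smul_eq_nsmul D] at h2
    have h3 := Submodule.smul_mem (f ⊥) (n : D)⁻¹ h2
    rwa [smul_smul, inv_mul_cancel₀ hD, one_smul] at h3
  · intro hn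
    have h1 : f (pt ![1, 0, 0]) ≤ f (pt ![1, (n : R), 0]) := by
      intro a1 ha1
      by_cases ha1' : a1 ∈ f ⊥
      · exact fmono f bot_le ha1'
      · obtain ⟨a2, ha2, ha2', h⟩ := key f ha1 ha1'
        have h2 := h n
        rwa [← Nat.cast_smul_eq_nsmul D, hn, zero_smul, add_zero] at h2
    have h3 := le_of_map_le f hf h1
    rw [Submodule.span_singleton_le_iff_mem, mem_pt] at h3
    obtain ⟨a, ha⟩ := h3
    rw [ext3] at ha
    simp at ha
    obtain ⟨h4, h5⟩ := ha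
    rw [h4, one_mul] at h5
    exact h5

end Char

end Pool.Agent.R723.SubLat
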