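import Mathlib

/-!
# Lattices of subspaces: definitions

The first-order language of lattices, and the classes of lattices that embed into the lattice of
subspaces of a vector space over a field, respectively over a division ring.
-/

namespace Pool.Agent.R723.SubLat

universe u

/-- The operation symbols of lattices: join and meet, both binary. -/
inductive LatOp : ℕ → Type
  | sup : LatOp 2
  | inf : LatOp 2

/-- The first-order language of lattices: two binary operation symbols, no relation symbols (equality
is logical), no constants. -/
def Lat : FirstOrder.Language := ⟨LatOp, fun _ => Empty⟩

/-- Every lattice is a structure for the language `Lat`, with join and meet as operations. -/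
instance latStructure (L : Type u) [Lattice L] : Lat.Structure L where
  funMap := fun {_} f x => match f, x with
    | LatOp.sup, x => x 0 ⊔ x 1
    | LatOp.inf, x => x 0 ⊓ x 1
  RelMap := fun r _ => Empty.elim r

/-- `L` is isomorphic to a sublattice of the lattice of subspaces of a vector space over some
(commutative) field: there are a field `F`, an `F`-vector space `V` and an injective map from `L` to
the lattice of `F`-subspaces of `V` preserving binary joins and meets. -/
def EmbedsField (L : Type u) [Lattice L] : Prop :=
  ∃ (F : Type u) (_ : Field F) (V : Type u) (_ : AddCommGroup V) (_ : Module F V)
    (f : LatticeHom L (Submodule F V)), Function.Injective f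

/-- `L` is isomorphic to a sublattice of the lattice of subspaces of a (left) vector space over some
division ring. -/
def EmbedsSkew (L : Type u) [Lattice L] : Prop :=
  ∃ (D : Type u) (_ : DivisionRing D) (V : Type u) (_ : AddCommGroup V) (_ : Module D V)
    (f : LatticeHom L (Submodule D V)), Function.Injective f

end Pool.Agent.R723.SubLat
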