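import Pool.Agent.R723.SubLatUltra

/-!
# The classes of lattices embeddable into subspace lattices are not finitely axiomatizable
-/

namespace Pool.Agent.R723.SubLat

open FirstOrder Filter

universe u v w

/-- A prime larger than `i`. -/
noncomputable def pr (i : ℕ) : ℕ := (Nat.exists_infinite_primes (i + 1)).choose

theorem pr_lt (i : ℕ) : i < pr i := (Nat.exists_infinite_primes (i + 1)).choose_spec.1

theorem pr_prime (i : ℕ) : (pr i).Prime := (Nat.exists_infinite_primes (i + 1)).choose_spec.2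

/-- The rings `Z / p_i^2`. -/
abbrev Rg (i : ℕ) : Type u := ULift.{u} (ZMod (pr i ^ 2))

theorem ulift_cast {n : ℕ} (m : ℕ) : ((n : ULift.{u} (ZMod m)) = 0) ↔ ((n : ZMod m) = 0) := by
  constructor
  · intro h
    have := congrArg ULift.down h
    simpa using this
  · intro h
    apply ULift.ext
    simpa using h

instance nontrivial_Rg (i : ℕ) : Nontrivial (Rg.{u} i) := by
  have : Fact (1 < pr i ^ 2) := ⟨one_lt_pow₀ (pr_prime i).one_lt (by norm_num)⟩
  infer_instance

theorem not_skew (i : ℕ) : ¬ EmbedsSkew (LL Rg.{u} i) := by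
  rintro ⟨D, hD, V, hV, hM, f, hf⟩
  have h := char_eq f hf
  have h1 : ((pr i ^ 2 : ℕ) : Rg.{u} i) = 0 := by
    rw [ulift_cast]
    exact ZMod.natCast_self _
  have h2 : ((pr i ^ 2 : ℕ) : D) = 0 := (h _).mp h1
  have h3 : ((pr i : ℕ) : D) = 0 := by
    rw [Nat.cast_pow] at h2
    exact pow_eq_zero_iff (by norm_num) |>.mp h2
  have h4 : ((pr i : ℕ) : Rg.{u} i) = 0 := (h _).mpr h3
  rw [ulift_cast, ZMod.natCast_eq_zero_iff] at h4
  have h5 := Nat.le_of_dvd (pr_prime i).pos h4
  have h6 : pr i < pr i ^ 2 := by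
    have := (pr_prime i).one_lt
    nlinarith
  omega

/-- A nonprincipal ultrafilter. -/
noncomputable abbrev UU : Ultrafilter ℕ := Filter.hyperfilter ℕ

theorem eventually_gt (N : ℕ) : ∀ᶠ i in (UU : Filter ℕ), N < i := by
  have h : ∀ᶠ i in Filter.cofinite, N < i := by
    rw [Nat.cofinite_eq_atTop]
    exact Filter.eventually_gt_atTop N
  exact Filter.hyperfilter_le_cofinite h

theorem isUnit_cast (y : ℤ) (hy : y ≠ 0) : IsUnit (y : UR Rg.{u} UU) := by
  have hu : ∀ᶠ i in (UU : Filter ℕ), IsUnit ((y : ∀ i, Rg.{u} i) i) := by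
    filter_upwards [eventually_gt y.natAbs] with i hi
    have h1 : IsUnit ((y : ℤ) : ZMod (pr i ^ 2)) := by
      rw [ZMod.coe_int_isUnit_iff_isCoprime]
      have hcop : Nat.Coprime (pr i ^ 2) y.natAbs := by
        apply Nat.Coprime.pow_left
        rw [Nat.Prime.coprime_iff_not_dvd (pr_prime i)]
        intro hd
        have := Nat.le_of_dvd (Int.natAbs_pos.mpr hy) hd
        have := pr_lt i
        omega
      rw [Int.isCoprime_iff_gcd_eq_one, Int.gcd_eq_natAbs, Int.natAbs_natCast]
      exact hcop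
    have h2 : ((y : ∀ i, Rg.{u} i) i) = ULift.ringEquiv.symm ((y : ℤ) : ZMod (pr i ^ 2)) := by
      simp
    rw [h2]
    exact h1.map _
  refine IsUnit.of_mul_eq_one (Ideal.Quotient.mk _ (fun i => Ring.inverse ((y : ∀ i, Rg.{u} i) i))) ?_
  rw [← map_intCast (Ideal.Quotient.mk (nullIdeal Rg.{u} UU)) y, ← map_mul, ← map_one (Ideal.Quotient.mk _),
    mk_eq]
  filter_upwards [hu] with i hi
  exact Ring.mul_inverse_cancel _ hi

/-- The rational numbers act on the ultraproduct ring. -/
noncomputable def ratHom : ℚ →+* UR Rg.{u} UU :=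
  IsLocalization.lift (M := nonZeroDivisors ℤ) (S := ℚ) (g := Int.castRingHom (UR Rg.{u} UU))
    fun y => isUnit_cast y (nonZeroDivisors.ne_zero y.2)

noncomputable instance algRat : Algebra (ULift.{u} ℚ) (UR Rg.{u} UU) :=
  (ratHom.comp (ULift.ringEquiv : ULift.{u} ℚ ≃+* ℚ).toRingHom).toAlgebra

/-- No finite set of first-order sentences can define a class of lattices lying between the class of
lattices embeddable into subspace lattices over fields and the class of those embeddable into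
subspace lattices over division rings. -/
theorem not_finitely_axiomatizable (P : ∀ (L : Type u) [Lattice L], Prop)
    (h1 : ∀ (L : Type u) [Lattice L], EmbedsField L → P L)
    (h2 : ∀ (L : Type u) [Lattice L], P L → EmbedsSkew L) :
    ¬ ∃ S : Set Lat.Sentence, S.Finite ∧ ∀ (L : Type u) [Lattice L], P L ↔ ∀ φ ∈ S, L ⊨ φ := by
  rintro ⟨S, hS, h⟩
  have hF := h1 _ (imgF_embeds Rg.{u} UU (ULift.{u} ℚ))
  rw [h] at hF
  have hU : ∀ φ ∈ S, ∀ᶠ i in (UU : Filter ℕ), (LL Rg.{u} i) ⊨ φ := by
    intro φ hφ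
    rw [← Language.Ultraproduct.sentence_realize]
    exact (Language.StrongHomClass.realize_sentence (isoF Rg.{u} UU (ULift.{u} ℚ)) φ).mpr (hF φ hφ)
  have hall : ∀ᶠ i in (UU : Filter ℕ), ∀ φ ∈ S, (LL Rg.{u} i) ⊨ φ :=
    (Filter.eventually_all_finite hS).mpr hU
  obtain ⟨i, hi⟩ := hall.exists
  exact not_skew i (h2 _ ((h _).mpr hi))

end Pool.Agent.R723.SubLat
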