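import Pool.Agent.R723.SubLatMain

/-!
# Identities
-/

namespace Pool.Agent.R723.SubLat

open FirstOrder

universe u

/-- The lattice `L` satisfies the identity `s = t`, where `(s, t)` is a pair of lattice terms in the
variables `x_0, x_1, x_2, ...`: the terms `s` and `t` take the same value for all values of the
variables in `L`. -/
def Satisfies (L : Type u) [Lattice L] (e : Lat.Term ℕ × Lat.Term ℕ) : Prop :=
  ∀ v : ℕ → L, e.1.realize v = e.2.realize v

variable {L₁ L₂ : Type u} [Lattice L₁] [Lattice L₂]

/-- first projection -/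
def fstHom : (L₁ × L₂) →[Lat] L₁ where
  toFun := Prod.fst
  map_fun' := by
    intro n g x
    cases g with
    | sup => rfl
    | inf => rfl
  map_rel' := by
    intro n r
    exact Empty.elim r

/-- second projection -/
def sndHom : (L₁ × L₂) →[Lat] L₂ where
  toFun := Prod.snd
  map_fun' := by
    intro n g x
    cases g with
    | sup => rfl
    | inf => rfl
  map_rel' := by
    intro n r
    exact Empty.elim r

theorem satisfies_prod (e : Lat.Term ℕ × Lat.Term ℕ) (h1 : Satisfies L₁ e) (h2 : Satisfies L₂ e) :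
    Satisfies (L₁ × L₂) e := by
  intro v
  apply Prod.ext
  · have ha := Language.HomClass.realize_term (fstHom (L₁ := L₁) (L₂ := L₂)) (t := e.1) (v := v)
    have hb := Language.HomClass.realize_term (fstHom (L₁ := L₁) (L₂ := L₂)) (t := e.2) (v := v)
    exact ha.symm.trans ((h1 _).trans hb)
  · have ha := Language.HomClass.realize_term (sndHom (L₁ := L₁) (L₂ := L₂)) (t := e.1) (v := v)
    have hb := Language.HomClass.realize_term (sndHom (L₁ := L₁) (L₂ := L₂)) (t := e.2) (v := v)
    exact ha.symm.trans ((h2 _).trans hb)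

/-- The lattice of submodules of `(Z/n)^3`. -/
abbrev SS (n : ℕ) : Type u := Submodule (ULift.{u} (ZMod n)) (Fin 3 → ULift.{u} (ZMod n))

theorem SS_embeds (n : ℕ) [Fact n.Prime] : EmbedsField (SS.{u} n) :=
  ⟨ULift.{u} (ZMod n), inferInstance, Fin 3 → ULift.{u} (ZMod n), inferInstance, inferInstance,
    LatticeHom.id _, fun _ _ h => h⟩

theorem prod_not_skew (m n : ℕ) (hm : m.Prime) (hn : n.Prime) (hmn : m ≠ n) :
    ¬ EmbedsSkew (SS.{u} m × SS.{u} n) := by
  rintro ⟨D, hD, V, hV, hM, f, hf⟩
  have : Fact (1 < m) := ⟨hm.one_lt⟩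
  have : Fact (1 < n) := ⟨hn.one_lt⟩
  let f1 : LatticeHom (SS.{u} m) (Submodule D V) :=
    { toFun := fun x => f (x, ⊥)
      map_sup' := fun x y => by
        rw [← map_sup, Prod.mk_sup_mk, sup_idem]
      map_inf' := fun x y => by
        rw [← map_inf, Prod.mk_inf_mk, inf_idem] }
  let f2 : LatticeHom (SS.{u} n) (Submodule D V) :=
    { toFun := fun x => f (⊥, x)
      map_sup' := fun x y => by
        rw [← map_sup, Prod.mk_sup_mk, sup_idem]
      map_inf' := fun x y => by
        rw [← map_inf, Prod.mk_inf_mk, inf_idem] }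
  have hf1 : Function.Injective f1 := fun x y h => (Prod.ext_iff.mp (hf h)).1
  have hf2 : Function.Injective f2 := fun x y h => (Prod.ext_iff.mp (hf h)).2
  have h1 : (m : D) = 0 := by
    rw [← char_eq f1 hf1, ulift_cast]
    exact ZMod.natCast_self _
  have h2 : (n : D) = 0 := by
    rw [← char_eq f2 hf2, ulift_cast]
    exact ZMod.natCast_self _
  have h3 : IsCoprime (m : ℤ) (n : ℤ) :=
    Nat.isCoprime_iff_coprime.mpr ((Nat.coprime_primes hm hn).mpr hmn)
  obtain ⟨a, b, hab⟩ := h3
  have h4 := congrArg (fun z : ℤ => (z : D)) hab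
  simp only [Int.cast_add, Int.cast_mul, Int.cast_natCast, Int.cast_one, h1, h2, mul_zero,
    add_zero] at h4
  exact zero_ne_one h4

/-- No set of identities defines a class of lattices lying between the class of
lattices embeddable into subspace lattices over fields and the class of those embeddable into
subspace lattices over division rings. -/
theorem not_identities (P : ∀ (L : Type u) [Lattice L], Prop)
    (h1 : ∀ (L : Type u) [Lattice L], EmbedsField L → P L)
    (h2 : ∀ (L : Type u) [Lattice L], P L → EmbedsSkew L) :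
    ¬ ∃ S : Set (Lat.Term ℕ × Lat.Term ℕ),
      ∀ (L : Type u) [Lattice L], P L ↔ ∀ e ∈ S, Satisfies L e := by
  rintro ⟨S, h⟩
  have : Fact (Nat.Prime 2) := ⟨Nat.prime_two⟩
  have : Fact (Nat.Prime 3) := ⟨Nat.prime_three⟩
  have ha := (h _).mp (h1 _ (SS_embeds.{u} 2))
  have hb := (h _).mp (h1 _ (SS_embeds.{u} 3))
  refine prod_not_skew.{u} 2 3 Nat.prime_two Nat.prime_three (by norm_num) (h2 _ ((h _).mpr ?_))
  intro e he
  exact satisfies_prod e (ha e he) (hb e he)

end Pool.Agent.R723.SubLat
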