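import Pool.Agent.R723.SubLatChar
import Pool.Agent.R723.SubLatDefs

/-!
# Ultraproducts of submodule lattices of `R^3`
-/

namespace Pool.Agent.R723.SubLat

open FirstOrder Filter

universe u

section Ultra

variable (R : ℕ → Type u) [∀ i, CommRing (R i)] (U : Ultrafilter ℕ)

/-- The ideal of sequences that vanish almost everywhere. -/
def nullIdeal : Ideal (∀ i, R i) where
  carrier := {r | ∀ᶠ i in (U : Filter ℕ), r i = 0}
  add_mem' {a b} ha hb := by
    simp only [Set.mem_ofPred_eq] at ha hb ⊢
    filter_upwards [ha, hb] with i h1 h2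
    rw [Pi.add_apply, h1, h2, add_zero]
  zero_mem' := Filter.Eventually.of_forall fun _ => rfl
  smul_mem' c x hx := by
    simp only [Set.mem_ofPred_eq] at hx ⊢
    filter_upwards [hx] with i h
    rw [smul_eq_mul, Pi.mul_apply, h, mul_zero]

/-- The ultraproduct ring. -/
abbrev UR := (∀ i, R i) ⧸ nullIdeal R U

theorem mk_eq (a b : ∀ i, R i) : (Ideal.Quotient.mk (nullIdeal R U) a = Ideal.Quotient.mk _ b) ↔
    ∀ᶠ i in (U : Filter ℕ), a i = b i := by
  rw [Ideal.Quotient.eq]
  change (∀ᶠ i in (U : Filter ℕ), (a - b) i = 0) ↔ _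
  refine Filter.eventually_congr (Filter.Eventually.of_forall fun i => ?_)
  rw [Pi.sub_apply, sub_eq_zero]

/-- The internal submodule defined by a sequence of submodules. -/
def intSub (X : ∀ i, Submodule (R i) (Fin 3 → R i)) : Submodule (UR R U) (Fin 3 → UR R U) where
  carrier := {v | ∃ w : Fin 3 → ∀ i, R i, (∀ j, Ideal.Quotient.mk (nullIdeal R U) (w j) = v j) ∧
    ∀ᶠ i in (U : Filter ℕ), (fun j => w j i) ∈ X i}
  add_mem' {a b} ha hb := by
    obtain ⟨w, hw, hwX⟩ := ha
    obtain ⟨w', hw', hwX'⟩ := hb
    refine ⟨fun j => w j + w' j, fun j => ?_, ?_⟩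
    · rw [map_add, hw, hw', Pi.add_apply]
    · filter_upwards [hwX, hwX'] with i h1 h2
      exact Submodule.add_mem _ h1 h2
  zero_mem' := ⟨fun _ => 0, fun _ => map_zero _,
    Filter.Eventually.of_forall fun i => Submodule.zero_mem _⟩
  smul_mem' c v hv := by
    obtain ⟨w, hw, hwX⟩ := hv
    obtain ⟨c, rfl⟩ := Ideal.Quotient.mk_surjective c
    refine ⟨fun j => c * w j, fun j => ?_, ?_⟩
    · rw [map_mul, hw, Pi.smul_apply, smul_eq_mul]
    · filter_upwards [hwX] with i h1
      exact Submodule.smul_mem _ (c i) h1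

theorem mem_intSub (X : ∀ i, Submodule (R i) (Fin 3 → R i)) (w : Fin 3 → ∀ i, R i) :
    (fun j => Ideal.Quotient.mk (nullIdeal R U) (w j)) ∈ intSub R U X ↔
      ∀ᶠ i in (U : Filter ℕ), (fun j => w j i) ∈ X i := by
  constructor
  · rintro ⟨w', hw', hX⟩
    have h : ∀ j, ∀ᶠ i in (U : Filter ℕ), w' j i = w j i := fun j => (mk_eq R U _ _).mp (hw' j)
    filter_upwards [hX, h 0, h 1, h 2] with i h0 h1 h2 h3
    have : (fun j => w j i) = fun j => w' j i := by
      rw [ext3]; exact ⟨h1.symm, h2.symm, h3.symm⟩
    rw [this]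
    exact h0
  · intro h
    exact ⟨w, fun _ => rfl, h⟩

theorem exists_rep (v : Fin 3 → UR R U) :
    ∃ w : Fin 3 → ∀ i, R i, v = fun j => Ideal.Quotient.mk (nullIdeal R U) (w j) := by
  choose w hw using fun j => Ideal.Quotient.mk_surjective (v j)
  exact ⟨w, funext fun j => (hw j).symm⟩

theorem intSub_congr {X Y : ∀ i, Submodule (R i) (Fin 3 → R i)}
    (h : ∀ᶠ i in (U : Filter ℕ), X i = Y i) : intSub R U X = intSub R U Y := by
  ext v
  obtain ⟨w, rfl⟩ := exists_rep R U v
  rw [mem_intSub, mem_intSub]
  refine Filter.eventually_congr ?_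
  filter_upwards [h] with i hi
  rw [hi]

theorem intSub_inj {X Y : ∀ i, Submodule (R i) (Fin 3 → R i)}
    (h : intSub R U X ≤ intSub R U Y) : ∀ᶠ i in (U : Filter ℕ), X i ≤ Y i := by
  by_contra hcon
  rw [← Ultrafilter.eventually_not] at hcon
  have hex : ∀ i, ∃ w : Fin 3 → R i, ¬ X i ≤ Y i → w ∈ X i ∧ w ∉ Y i := by
    intro i
    by_cases hi : X i ≤ Y i
    · exact ⟨0, fun h => absurd hi h⟩
    · obtain ⟨w, hw⟩ := SetLike.not_le_iff_exists.mp hi
      exact ⟨w, fun _ => hw⟩
  choose w hw using hex
  have h1 : (fun j => Ideal.Quotient.mk (nullIdeal R U) (fun i => w i j)) ∈ intSub R U X := by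
    rw [mem_intSub R U X (fun j i => w i j)]
    filter_upwards [hcon] with i hi
    exact (hw i hi).1
  have h2 := h h1
  rw [mem_intSub R U Y (fun j i => w i j)] at h2
  have h3 : ∀ᶠ i in (U : Filter ℕ), False := by
    filter_upwards [hcon, h2] with i hi hi2
    exact (hw i hi).2 hi2
  exact (Filter.eventually_false_iff_eq_bot.mp h3) |> (U.neBot.ne)

theorem intSub_inf (X Y : ∀ i, Submodule (R i) (Fin 3 → R i)) :
    intSub R U (fun i => X i ⊓ Y i) = intSub R U X ⊓ intSub R U Y := by
  ext v
  obtain ⟨w, rfl⟩ := exists_rep R U v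
  rw [Submodule.mem_inf, mem_intSub, mem_intSub, mem_intSub, ← Filter.eventually_and]
  exact Iff.rfl

theorem intSub_sup (X Y : ∀ i, Submodule (R i) (Fin 3 → R i)) :
    intSub R U (fun i => X i ⊔ Y i) = intSub R U X ⊔ intSub R U Y := by
  ext v
  obtain ⟨w, rfl⟩ := exists_rep R U v
  rw [mem_intSub, Submodule.mem_sup]
  constructor
  · intro h
    have hex : ∀ i, ∃ a b : Fin 3 → R i, (fun j => w j i) ∈ X i ⊔ Y i →
        a ∈ X i ∧ b ∈ Y i ∧ a + b = fun j => w j i := by
      intro i
      by_cases hi : (fun j => w j i) ∈ X i ⊔ Y i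
      · obtain ⟨a, ha, b, hb, hab⟩ := Submodule.mem_sup.mp hi
        exact ⟨a, b, fun _ => ⟨ha, hb, hab⟩⟩
      · exact ⟨0, 0, fun h => absurd h hi⟩
    choose a b hab using hex
    refine ⟨fun j => Ideal.Quotient.mk _ (fun i => a i j), ?_,
      fun j => Ideal.Quotient.mk _ (fun i => b i j), ?_, ?_⟩
    · rw [mem_intSub R U X (fun j i => a i j)]
      filter_upwards [h] with i hi
      exact (hab i hi).1
    · rw [mem_intSub R U Y (fun j i => b i j)]
      filter_upwards [h] with i hi
      exact (hab i hi).2.1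
    · funext j
      rw [Pi.add_apply, ← map_add, mk_eq]
      filter_upwards [h] with i hi
      exact congrFun (hab i hi).2.2 j
  · rintro ⟨y, hy, z, hz, hyz⟩
    obtain ⟨a, rfl⟩ := exists_rep R U y
    obtain ⟨b, rfl⟩ := exists_rep R U z
    rw [mem_intSub] at hy hz
    have h : ∀ j, ∀ᶠ i in (U : Filter ℕ), (a j + b j) i = w j i := fun j =>
      (mk_eq R U _ _).mp (by rw [map_add]; exact congrFun hyz j)
    filter_upwards [hy, hz, h 0, h 1, h 2] with i h1 h2 h3 h4 h5
    have : (fun j => w j i) = (fun j => a j i) + fun j => b j i := by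
      rw [ext3]; exact ⟨h3.symm, h4.symm, h5.symm⟩
    rw [this]
    exact Submodule.add_mem _ (Submodule.mem_sup_left h1) (Submodule.mem_sup_right h2)

/-- The lattice of submodules of `R^3`. -/
abbrev LL (i : ℕ) := Submodule (R i) (Fin 3 → R i)

/-- The map from the ultraproduct of the lattices to the lattice of submodules over the ultraproduct
ring. -/
def emb : (U : Filter ℕ).Product (LL R) → Submodule (UR R U) (Fin 3 → UR R U) :=
  Quotient.lift (intSub R U) fun _ _ h => intSub_congr R U h

theorem emb_mk (X : ∀ i, LL R i) : emb R U (X : (U : Filter ℕ).Product (LL R)) = intSub R U X := rfl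

theorem emb_injective : Function.Injective (emb R U) := by
  intro x y h
  induction x using Quotient.inductionOn with
  | _ X =>
    induction y using Quotient.inductionOn with
    | _ Y =>
      have h' : intSub R U X = intSub R U Y := h
      apply Quotient.sound
      change ∀ᶠ i in (U : Filter ℕ), X i = Y i
      filter_upwards [intSub_inj R U h'.le, intSub_inj R U h'.ge] with i h1 h2
      exact le_antisymm h1 h2

theorem emb_funMap {n : ℕ} (g : Lat.Functions n) (x : Fin n → (U : Filter ℕ).Product (LL R)) :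
    emb R U (Language.Structure.funMap g x) = Language.Structure.funMap g (fun i => emb R U (x i)) := by
  have hex : ∀ i, ∃ X : ∀ a, LL R a, (X : (U : Filter ℕ).Product (LL R)) = x i :=
    fun i => Quotient.exists_rep (x i)
  choose X hX using hex
  obtain rfl : (fun i => ((X i : ∀ a, LL R a) : (U : Filter ℕ).Product (LL R))) = x := funext hX
  refine (congrArg (emb R U) (Language.Ultraproduct.funMap_cast g X)).trans ?_
  cases g with
  | sup => exact intSub_sup R U (X 0) (X 1)
  | inf => exact intSub_inf R U (X 0) (X 1)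

section Field

variable (F : Type u) [Field F] [Algebra F (UR R U)]

/-- The map to the lattice of subspaces over a field `F` contained in the ultraproduct ring. -/
noncomputable def embF (x : (U : Filter ℕ).Product (LL R)) : Submodule F (Fin 3 → UR R U) :=
  Submodule.restrictScalars F (emb R U x)

theorem embF_injective : Function.Injective (embF R U F) := fun _ _ h =>
  emb_injective R U (Submodule.restrictScalars_injective F _ _ h)

theorem restr_sup (A B : Submodule (UR R U) (Fin 3 → UR R U)) :
    Submodule.restrictScalars F (A ⊔ B) =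
      Submodule.restrictScalars F A ⊔ Submodule.restrictScalars F B := by
  ext v
  rw [Submodule.restrictScalars_mem, Submodule.mem_sup, Submodule.mem_sup]
  exact Iff.rfl

theorem restr_inf (A B : Submodule (UR R U) (Fin 3 → UR R U)) :
    Submodule.restrictScalars F (A ⊓ B) =
      Submodule.restrictScalars F A ⊓ Submodule.restrictScalars F B := rfl

theorem embF_funMap {n : ℕ} (g : Lat.Functions n) (x : Fin n → (U : Filter ℕ).Product (LL R)) :
    embF R U F (Language.Structure.funMap g x) =
      Language.Structure.funMap g (fun i => embF R U F (x i)) := by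
  unfold embF
  rw [emb_funMap]
  cases g with
  | sup => exact restr_sup R U F _ _
  | inf => exact restr_inf R U F _ _

/-- The image of the ultraproduct as a sublattice of the lattice of subspaces. -/
noncomputable def imgF : Sublattice (Submodule F (Fin 3 → UR R U)) where
  carrier := Set.range (embF R U F)
  supClosed' := by
    rintro _ ⟨x, rfl⟩ _ ⟨y, rfl⟩
    exact ⟨Language.Structure.funMap (L := Lat) LatOp.sup ![x, y], embF_funMap R U F LatOp.sup ![x, y]⟩
  infClosed' := by
    rintro _ ⟨x, rfl⟩ _ ⟨y, rfl⟩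
    exact ⟨Language.Structure.funMap (L := Lat) LatOp.inf ![x, y], embF_funMap R U F LatOp.inf ![x, y]⟩

/-- The ultraproduct is isomorphic, as a structure for the language of lattices, to a sublattice of
the lattice of subspaces. -/
noncomputable def isoF : (U : Filter ℕ).Product (LL R) ≃[Lat] (imgF R U F) where
  toEquiv := Equiv.ofInjective (embF R U F) (embF_injective R U F)
  map_fun' := by
    intro n g x
    apply Subtype.ext
    have h := embF_funMap R U F g x
    refine h.trans ?_
    cases g with
    | sup => rfl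
    | inf => rfl
  map_rel' := by
    intro n r
    exact Empty.elim r

theorem imgF_embeds : EmbedsField (imgF R U F) :=
  ⟨F, inferInstance, Fin 3 → UR R U, inferInstance, inferInstance,
    (imgF R U F).subtype, Subtype.val_injective⟩

end Field

end Ultra

end Pool.Agent.R723.SubLat
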